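import Pool.Agent.L0h5.TE.D13
import Pool.Agent.L0h80.T8.Low4c

/-!
# Rational parameters ordered by height
-/

set_option autoImplicit false
set_option linter.unusedSectionVars false

namespace Pool.Agent.L0h5.TE

open Finset Polynomial Pool.Agent.W262.RK Pool.Agent.L0h5.TH Pool.Agent.L0h5.MR
  Pool.Agent.L0h5.TQ UniqueFactorizationMonoid
open Pool.Agent.L0h5.TF hiding oo QF

/-- the rational numbers of height at most `X` -/
noncomputable def rats (X : ℕ) : Finset ℚ :=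
  ((Icc (-(X : ℤ)) X) ×ˢ (Icc (1 : ℤ) X)).image (fun p => (p.1 : ℚ) / (p.2 : ℚ))

lemma rats_spec {X : ℕ} {t : ℚ} (h : t ∈ rats X) :
    (-(X : ℤ) ≤ t.num ∧ t.num ≤ X) ∧ (t.den : ℤ) ≤ X := by
  unfold rats at h
  obtain ⟨⟨a, b⟩, hp, rfl⟩ := mem_image.1 h
  rw [mem_product, mem_Icc, mem_Icc] at hp
  obtain ⟨⟨h1, h2⟩, h3, h4⟩ := hp
  simp only at h1 h2 h3 h4 ⊢
  have hb : b ≠ 0 := by omega
  have hd : (((a : ℚ) / (b : ℚ)).den : ℤ) ∣ b := by
    have h := Rat.den_dvd a b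
    rwa [Rat.divInt_eq_div] at h
  have hn : ((a : ℚ) / (b : ℚ)).num ∣ a := by
    have h := Rat.num_dvd a hb
    rwa [Rat.divInt_eq_div] at h
  have hdl : (((a : ℚ) / (b : ℚ)).den : ℤ) ≤ X := (Int.le_of_dvd (by omega) hd).trans h4
  refine ⟨?_, hdl⟩
  by_cases ha : a = 0
  · subst ha
    simp
  · have h5 := Int.natAbs_le_of_dvd_ne_zero hn ha
    omega

lemma card_rats (X : ℕ) (hX : 1 ≤ X) : ((rats X).card : ℝ) ≤ 3 * (X : ℝ) ^ 2 := by
  have h1 : (rats X).card ≤ (2 * X + 1) * X := by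
    unfold rats
    refine card_image_le.trans ?_
    rw [card_product, Int.card_Icc, Int.card_Icc]
    have h2 : ((X : ℤ) + 1 - -(X : ℤ)).toNat = 2 * X + 1 := by omega
    have h3 : ((X : ℤ) + 1 - 1).toNat = X := by omega
    rw [h2, h3]
  have h2 : ((rats X).card : ℝ) ≤ (((2 * X + 1) * X : ℕ) : ℝ) := by exact_mod_cast h1
  refine h2.trans ?_
  push_cast
  have hX' : (1 : ℝ) ≤ X := by exact_mod_cast hX
  nlinarith

lemma card_rats_lower (X : ℕ) : (X : ℝ) ^ 2 ≤ 12 * ((rats X).card : ℝ) := by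
  have h1 := Pool.Agent.L0h80.T8.card_G4 X X
  have h2 : (Pool.Agent.L0h80.T8.G4 X X).card ≤ (rats X).card := by
    refine card_le_card_of_injOn (fun t => (t.1 : ℚ) / (t.2 : ℚ)) ?_ ?_
    · intro t ht
      have ht' := mem_filter.1 (mem_coe.1 ht)
      rw [mem_product, mem_Ioc, mem_Ioc] at ht'
      unfold rats
      refine mem_coe.2 (mem_image.2 ⟨((t.1 : ℤ), (t.2 : ℤ)), ?_, by push_cast; rfl⟩)
      rw [mem_product, mem_Icc, mem_Icc]
      simp only
      omega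
    · intro s hs t ht hst
      have hs' := mem_filter.1 (mem_coe.1 hs)
      have ht' := mem_filter.1 (mem_coe.1 ht)
      rw [mem_product, mem_Ioc, mem_Ioc] at hs' ht'
      simp only at hst
      have hcs : Nat.Coprime s.1 s.2 := Nat.Coprime.coprime_dvd_right ⟨3, by ring⟩ hs'.2.1
      have hct : Nat.Coprime t.1 t.2 := Nat.Coprime.coprime_dvd_right ⟨3, by ring⟩ ht'.2.1
      have hs2 : (s.2 : ℚ) ≠ 0 := by
        have : s.2 ≠ 0 := by omega
        exact_mod_cast this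
      have ht2 : (t.2 : ℚ) ≠ 0 := by
        have : t.2 ≠ 0 := by omega
        exact_mod_cast this
      rw [div_eq_div_iff hs2 ht2] at hst
      have h3 : s.1 * t.2 = t.1 * s.2 := by exact_mod_cast hst
      have h4 : s.1 ∣ t.1 := hcs.dvd_of_dvd_mul_right ⟨t.2, h3.symm⟩
      have h5 : t.1 ∣ s.1 := hct.dvd_of_dvd_mul_right ⟨s.2, h3⟩
      have h6 : s.1 = t.1 := Nat.dvd_antisymm h4 h5
      have h7 : s.2 = t.2 := by
        rw [h6] at h3
        have h8 : 0 < t.1 := by omega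
        exact (Nat.eq_of_mul_eq_mul_left h8 h3).symm
      exact Prod.ext h6 h7
  have h3 : ((Pool.Agent.L0h80.T8.G4 X X).card : ℝ) ≤ ((rats X).card : ℝ) := by exact_mod_cast h2
  nlinarith

/-- the value of the homogenization -/
lemma hv_div (P : ℤ[X]) (t : ℚ) : ((hv P (t.num, (t.den : ℤ)) : ℤ) : ℚ) =
    (t.den : ℚ) ^ P.natDegree * (P.map (Int.castRingHom ℚ)).eval t := by
  rw [hv_sum]
  rw [eval_map, eval₂_eq_sum_range, mul_sum]
  push_cast
  refine sum_congr rfl fun i hi => ?_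
  have hi' : i ≤ P.natDegree := by
    rw [mem_range] at hi
    omega
  have hd : (t.den : ℚ) ≠ 0 := by exact_mod_cast t.den_nz
  have ht : (t.num : ℚ) = t * t.den := (Rat.mul_den_eq_num t).symm
  rw [ht]
  have e : (t.den : ℚ) ^ P.natDegree = (t.den : ℚ) ^ i * (t.den : ℚ) ^ (P.natDegree - i) := by
    rw [← pow_add]
    congr 1
    omega
  rw [e]
  simp only [eq_intCast]
  ring

section

variable {D : ℚ[X]} {G : Fin 3 → ℚ[X]}

lemma rk_eqQ {F : Fin 3 → ℤ[X]} {u : ℤ} (hu : u ≠ 0)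
    (hF : ∀ k, (F k).map (Int.castRingHom ℚ) = C ((u : ℚ) ^ 2) * (D * G k)) {n : ℕ}
    (hdeg : ∀ k, (F k).natDegree = 2 * n) (t : ℚ) :
    Module.finrank ℤ (EAB (hv (F 0) (t.num, (t.den : ℤ)))
      (hv (F 1) (t.num, (t.den : ℤ)))).toAffine.Point = rkE D G t := by
  have h1 : ∀ k, ((hv (F k) (t.num, (t.den : ℤ)) : ℤ) : ℚ) =
      ((t.den : ℚ) ^ n * u) ^ 2 * (D * G k).eval t := by
    intro k
    rw [hv_div, hdeg, hF, eval_mul, eval_C]
    ring
  have h2 : EAB (hv (F 0) (t.num, (t.den : ℤ))) (hv (F 1) (t.num, (t.den : ℤ))) =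
      EQ (((t.den : ℚ) ^ n * u) ^ 2 * (D * G 0).eval t)
        (((t.den : ℚ) ^ n * u) ^ 2 * (D * G 1).eval t) := by
    unfold EAB EQ
    rw [h1, h1]
  have hd : (t.den : ℚ) ≠ 0 := by exact_mod_cast t.den_nz
  rw [h2, rank_scaleQ _ _ (mul_ne_zero (pow_ne_zero _ hd) (by exact_mod_cast hu))]
  rfl

/-- **Rational parameters** -/
theorem gQE (hlow : LOWNL) (hrel : G 0 - G 1 = G 2) (hD : Squarefree D) (hG : ∀ k, G k ≠ 0)
    (h01 : IsCoprime (G 0) (G 1)) {n : ℕ} (hdeg : ∀ k, (D * G k).natDegree = 2 * n)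
    {ε : ℝ} (h0 : 0 < ε) (h1 : ε ≤ 1) (hcr : CritE ε D G) :
    ∃ C : ℝ, ∀ X : ℕ, 1 ≤ X →
      ∑ t ∈ (rats X).filter (fun t : ℚ => (D * G 0 * G 1 * G 2).eval t ≠ 0),
        (2 : ℝ) ^ (ε * (rkE D G t : ℝ)) ≤ C * (X : ℝ) ^ 2 := by
  classical
  rcases (fcs D G).eq_empty_or_nonempty with hE | hE
  · refine ⟨3 * (2 : ℝ) ^ (ε * (rkE D G 0 : ℝ)), fun X hX => ?_⟩
    have h1 : ∀ t ∈ (rats X).filter (fun t : ℚ => (D * G 0 * G 1 * G 2).eval t ≠ 0),
        (2 : ℝ) ^ (ε * (rkE D G t : ℝ)) = (2 : ℝ) ^ (ε * (rkE D G 0 : ℝ)) := fun t _ => by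
      rw [const_fam hD.ne_zero hG hE]
    rw [sum_congr rfl h1, sum_const, nsmul_eq_mul]
    have h2 : (((rats X).filter (fun t : ℚ => (D * G 0 * G 1 * G 2).eval t ≠ 0)).card : ℝ) ≤
        3 * (X : ℝ) ^ 2 :=
      le_trans (by exact_mod_cast card_filter_le _ _) (card_rats X hX)
    have h3 : (0 : ℝ) ≤ (2 : ℝ) ^ (ε * (rkE D G 0 : ℝ)) := by positivity
    calc _ ≤ 3 * (X : ℝ) ^ 2 * (2 : ℝ) ^ (ε * (rkE D G 0 : ℝ)) :=
          mul_le_mul_of_nonneg_right h2 h3
      _ = _ := by ring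
  · obtain ⟨P, a, u, hPd, hFm, hu, hFk, hact, hav⟩ := setupE hlow hrel hD hG h01 h0 h1 hcr hE
    have : Nonempty {f // f ∈ fcs D G} := ⟨⟨hE.choose, hE.choose_spec⟩⟩
    obtain ⟨z1, hz1⟩ := hFm.good
    set c : ℕ := ∑ j, (P j).natDegree with hc
    obtain ⟨z2, hz2⟩ := hav c
    have huq : (u : ℚ) ≠ 0 := by exact_mod_cast hu
    have hrel' : Fk P a (fun f => dl D f.1) (fun f => ql G f.1) (fun f => ml G f.1) 0 -
        Fk P a (fun f => dl D f.1) (fun f => ql G f.1) (fun f => ml G f.1) 1 =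
        Fk P a (fun f => dl D f.1) (fun f => ql G f.1) (fun f => ml G f.1) 2 := by
      apply Polynomial.map_injective (Int.castRingHom ℚ) (RingHom.injective_int _)
      rw [Polynomial.map_sub, hFk, hFk, hFk, ← hrel]
      ring
    have hF0 : ∀ k, Fk P a (fun f => dl D f.1) (fun f => ql G f.1) (fun f => ml G f.1) k ≠ 0 := by
      intro k h2
      have h3 := hFk k
      rw [h2, Polynomial.map_zero] at h3
      have h4 : C ((u : ℚ) ^ 2) * (D * G k) ≠ 0 :=
        mul_ne_zero (by simpa using huq) (mul_ne_zero hD.ne_zero (hG k))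
      exact h4 h3.symm
    have hdeg' : ∀ k, (Fk P a (fun f => dl D f.1) (fun f => ql G f.1)
        (fun f => ml G f.1) k).natDegree = 2 * n := by
      intro k
      rw [← natDegree_map_eq_of_injective (RingHom.injective_int (Int.castRingHom ℚ)), hFk,
        natDegree_C_mul (pow_ne_zero _ huq), hdeg]
    obtain ⟨z3, hz3⟩ := mainQE hFm hF0 hrel' hdeg' hact hc h0.le h1
    set z : ℕ := z1 + z2 + z3 + 2 * c + 2 with hz
    obtain ⟨C', hC'⟩ := hz2 z (by omega)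
    obtain ⟨C2, hC2⟩ := hz3 z (by omega) (hz1 z (by omega)) (by omega) C' hC'
    refine ⟨C2, fun X hX => ?_⟩
    refine le_trans ?_ (hC2 X hX)
    set S := (rats X).filter (fun t : ℚ => (D * G 0 * G 1 * G 2).eval t ≠ 0) with hS
    set g : ℚ → ℤ × ℤ := fun t => (t.num, (t.den : ℤ)) with hg
    have hginj : Function.Injective g := by
      intro s t hst
      simp only [hg, Prod.mk.injEq] at hst
      exact Rat.ext hst.1 (by exact_mod_cast hst.2)
    have h4 : ∑ t ∈ S, (2 : ℝ) ^ (ε * (rkE D G t : ℝ)) =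
        ∑ t ∈ S.image g, (2 : ℝ) ^ (ε * (Module.finrank ℤ
          (EAB (hv (Fk P a (fun f => dl D f.1) (fun f => ql G f.1) (fun f => ml G f.1) 0) t)
          (hv (Fk P a (fun f => dl D f.1) (fun f => ql G f.1)
            (fun f => ml G f.1) 1) t)).toAffine.Point : ℝ)) := by
      rw [sum_image fun s _ t _ hst => hginj hst]
      refine sum_congr rfl fun t _ => ?_
      rw [hg]
      simp only
      rw [rk_eqQ hu hFk hdeg' t]
    rw [h4]
    refine sum_le_sum_of_subset_of_nonneg ?_ fun t _ _ => by positivity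
    intro s hs
    obtain ⟨t, ht, rfl⟩ := mem_image.1 hs
    rw [hS, mem_filter] at ht
    obtain ⟨h5, h6⟩ := ht
    obtain ⟨h7, h8⟩ := rats_spec h5
    rw [mem_TH]
    simp only [hg]
    have hdp := t.den_pos
    refine ⟨⟨h7, by omega, h8⟩, ?_, ?_⟩
    · exact Int.isCoprime_iff_gcd_eq_one.2 t.reduced
    · rw [hv_FF, prod_ne_zero_iff]
      intro j _ hj
      obtain ⟨d, hd, hPd'⟩ := hPd j
      have h9 := hv_div (P j) t
      rw [hj, hPd', eval_mul, eval_C] at h9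
      have h10 : j.1.eval t ≠ 0 := factor_ne (fcs_spec j.2).2.2 h6
      have hdq : (t.den : ℚ) ≠ 0 := by exact_mod_cast t.den_nz
      have h11 : (t.den : ℚ) ^ (P j).natDegree * ((d : ℚ) * j.1.eval t) ≠ 0 :=
        mul_ne_zero (pow_ne_zero _ hdq) (mul_ne_zero (by exact_mod_cast hd) h10)
      apply h11
      rw [← h9]
      simp

end

end Pool.Agent.L0h5.TE
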