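import Pool.Agent.L0h5.TE.D12

/-!
# The averages of a family over the rational polynomials
-/

set_option autoImplicit false
set_option linter.unusedSectionVars false

namespace Pool.Agent.L0h5.TE

open Finset Polynomial Pool.Agent.W262.RK Pool.Agent.L0h5.TH Pool.Agent.L0h5.MR
  UniqueFactorizationMonoid
open Pool.Agent.L0h5.TF hiding oo QF

section

variable {D : ℚ[X]} {G : Fin 3 → ℚ[X]}

open Classical in
lemma Bot_nonneg (k : Fin 3) : 0 ≤ Bot D G k := by
  unfold Bot
  refine sum_nonneg fun l _ => sum_nonneg fun f _ => ?_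
  split_ifs <;> norm_num

open Classical in
/-- the data of a family -/
theorem setupE (hlow : LOWNL) (hrel : G 0 - G 1 = G 2) (hD : Squarefree D) (hG : ∀ k, G k ≠ 0)
    (h01 : IsCoprime (G 0) (G 1)) {ε : ℝ} (h0 : 0 < ε) (h1 : ε ≤ 1) (hcr : CritE ε D G)
    (hne : (fcs D G).Nonempty) :
    ∃ (P : {f // f ∈ fcs D G} → ℤ[X]) (a : Fin 3 → ℤ) (u : ℤ),
      (∀ f : {f // f ∈ fcs D G}, ∃ d : ℤ, d ≠ 0 ∧
        (P f).map (Int.castRingHom ℚ) = C (d : ℚ) * f.1) ∧ Fm P a ∧ u ≠ 0 ∧
      (∀ k, (Fk P a (fun f => dl D f.1) (fun f => ql G f.1) (fun f => ml G f.1) k).map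
        (Int.castRingHom ℚ) = C ((u : ℚ) ^ 2) * (D * G k)) ∧
      (∀ j : {f // f ∈ fcs D G}, dl D j.1 = true ∨ 1 ≤ ml G j.1) ∧
      ∀ c : ℕ, ∃ z0 : ℕ, ∀ z, z0 ≤ z → ∃ C' : ℝ, ∀ y, z < y → ∑ s ∈ (PP z y).divisors,
        GE (SpA P (fun _ => true))
          (LSA P a (fun f => dl D f.1) (fun f => ql G f.1) (fun f => ml G f.1)) ε s * gw 1 c s ≤
        C' * (Real.log y) ^ (Fintype.card {f // f ∈ fcs D G}) := by
  have hcop := cop3 hrel h01
  set S := fcs D G with hSd
  have hS : ∀ f ∈ S, Irreducible f ∧ normalize f = f := fun f hf =>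
    ⟨(fcs_spec hf).1, (fcs_spec hf).2.1⟩
  have hDS : ∀ f, Irreducible f → normalize f = f → f ∣ D → f ∈ S := fun f h1 h2 h3 =>
    mem_fcs hD.ne_zero hG h1 h2 (((h3.mul_right _).mul_right _).mul_right _)
  have hGS : ∀ k f, Irreducible f → normalize f = f → f ∣ G k → f ∈ S := fun l f h1 h2 h3 =>
    mem_fcs hD.ne_zero hG h1 h2 (h3.trans (dvd_all l))
  have hcov : ∀ f ∈ S, f ∣ D ∨ ∃ k, f ∣ G k := fun f hf => fcs_cases hf
  obtain ⟨P, a, u, hPd, hFm, hu, hFk⟩ := fac2 hD hG hcop S hS hDS hGS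
  have hNe : Nonempty {f // f ∈ S} := ⟨⟨hne.choose, hne.choose_spec⟩⟩
  refine ⟨P, a, u, hPd, hFm, hu, hFk, ?_, fun c => ?_⟩
  · intro j
    rcases hcov j.1 j.2 with h2 | ⟨l, h2⟩
    · left
      exact decide_eq_true h2
    · right
      obtain ⟨h3, h4⟩ := hS j.1 j.2
      have h5 := ql_of_dvd hcop h3 h2
      unfold ml
      rw [h5, Multiset.one_le_count_iff_mem]
      obtain ⟨g, hg, hfg⟩ := exists_mem_normalizedFactors_of_dvd (hG l) h3 h2
      have h13 : j.1 = g := by
        rw [← h4, ← normalize_normalized_factor g hg]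
        exact normalize_eq_normalize_iff_associated.2 hfg
      rwa [h13]
  -- the bad classes
  set B3 : Finset (Fin 3) := univ.filter (fun k => Bot D G k < Aow D G k) with hB3
  have hB3c : B3.card ≤ 2 := by
    by_contra hcon
    have h2 : B3.card ≤ 3 := by
      have := card_le_univ B3
      rwa [Fintype.card_fin] at this
    have h3 : B3 = univ := by
      apply eq_univ_of_card
      rw [Fintype.card_fin]
      omega
    refine Aow_le_Bot_sum (D := D) (G := G) fun k => ?_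
    have h4 : k ∈ B3 := by
      rw [h3]
      exact mem_univ k
    exact (mem_filter.1 h4).2
  have hcs : ∀ q' : Fin 4, q' ≠ 3 → ∃ k : Fin 3, k.castSucc = q' := by decide
  have hexp : ∀ (Ψ : Fin 4 → Bool → Bool → Bool → ℝ), (∀ a b c, Ψ 3 a b c = 1) →
      ∑ j : {f // f ∈ S}, Ψ (clsG (fun f : {f // f ∈ S} => dl D f.1) (fun f => ql G f.1) j)
        (evG (fun f : {f // f ∈ S} => ml G f.1) j) (spb D G j.1) (lnb j.1) =
      Fintype.card {f // f ∈ S} + ∑ l : Fin 3, ∑ f ∈ mfT ∅ D (G l),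
        (Ψ l.castSucc (decide (Even (ml G f))) (spb D G f) (lnb f) - 1) := by
    intro Ψ hΨ
    have h2 := sum_bridge hG hcop hS hGS hcov (spb D G) lnb (fun c ev sp lin => Ψ c ev sp lin - 1)
      (fun a b c => by
        show Ψ 3 a b c - 1 = 0
        rw [hΨ, sub_self])
    rw [← h2, sum_sub_distrib, sum_const, card_univ, nsmul_eq_mul, mul_one]
    ring
  refine avE hlow hFm c h0 h1 (fun j => spb D G j.1) (fun j => lnb j.1)
    (B3.image Fin.castSucc) ?_ (card_image_le.trans hB3c) ?_ ?_ ?_ ?_ ?_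
  · intro q' hq'
    obtain ⟨k, hk, rfl⟩ := mem_image.1 hq'
    refine ⟨cs_ne' k, ?_⟩
    have h2 := (mem_filter.1 hk).2
    have h3 : (mfT ∅ D (G k)).Nonempty := by
      rw [nonempty_iff_ne_empty]
      intro h4
      have h5 : Aow D G k = 0 := by
        unfold Aow
        rw [h4, sum_empty]
      have h6 := Bot_nonneg (D := D) (G := G) k
      linarith
    obtain ⟨f, hf⟩ := h3
    have hql := ql_mfT hcop hf
    unfold mfT at hf
    rw [mem_filter, Multiset.mem_toFinset] at hf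
    refine ⟨⟨f, hGS k f (irreducible_of_normalized_factor f hf.1)
      (normalize_normalized_factor f hf.1) (dvd_of_mem_normalizedFactors hf.1)⟩, ?_⟩
    unfold clsG
    have h5 : dl D f = false := by
      unfold dl
      exact decide_eq_false hf.2.1
    simp only [h5, Bool.false_eq_true, if_false, hql]
  · intro q' hq3 hqB
    obtain ⟨k, rfl⟩ := hcs q' hq3
    have h2 : ¬ Bot D G k < Aow D G k := fun h => hqB (mem_image.2 ⟨k, mem_filter.2
      ⟨mem_univ _, h⟩, rfl⟩)
    have h3 := hexp (fun c ev sp _ => kc k.castSucc c ev sp) (fun a b c => by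
      show kc k.castSucc 3 a b = 1
      unfold kc
      rw [if_pos rfl])
    have h4 := kc_sum (D := D) (G := G) hcop k
    rw [h3, h4]
    push Not at h2
    linarith
  · intro q' hq'
    obtain ⟨k, hk, rfl⟩ := mem_image.1 hq'
    have h2 := (mem_filter.1 hk).2
    have h3 := hexp (fun c ev sp _ => kc k.castSucc c ev sp) (fun a b c => by
      show kc k.castSucc 3 a b = 1
      unfold kc
      rw [if_pos rfl])
    have h4 := kc_sum (D := D) (G := G) hcop k
    have h5 := sum_bridge hG hcop hS hGS hcov (spb D G) lnb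
      (fun c _ sp lin => sv k.castSucc c sp lin) (fun a b c => by
        show sv k.castSucc 3 b c = 0
        unfold sv
        rw [if_neg]
        rintro ⟨h, -⟩
        exact cs_ne' k h.symm)
    have h6 := sv_sum (D := D) (G := G) hcop k
    have h7 := ((hcr k).2.resolve_left (by linarith))
    rw [h3, h4, h5, h6]
    linarith
  · intro q' hq'
    obtain ⟨k, hk, rfl⟩ := mem_image.1 hq'
    have h3 := hexp (fun c ev sp _ => ke ε k.castSucc c ev sp) (fun a b c => by
      show ke ε k.castSucc 3 a b = 1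
      unfold ke mj
      rw [if_pos rfl, if_pos rfl, Real.one_rpow]
      ring)
    have h4 := ke_sum (D := D) (G := G) hcop ε k
    rw [h3, h4]
    have h5 := (hcr k).1
    set x : ℝ := (2 : ℝ) ^ ε with hx
    have hx1 : 1 ≤ x := Real.one_le_rpow (by norm_num) h0.le
    have hx2 : (1 / 2 : ℝ) ^ ε = 1 / x := by
      rw [one_div, Real.inv_rpow (by norm_num), ← hx, one_div]
    rw [hx2]
    have h6 : (x - 1) / 2 * Aow D G k + -(1 - 1 / x) * Bot D G k =
        (x - 1) / (2 * x) * (x * Aow D G k - 2 * Bot D G k) := by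
      have hx0 : x ≠ 0 := by linarith
      field_simp
      ring
    rw [h6]
    have h7 : (x - 1) / (2 * x) * (x * Aow D G k - 2 * Bot D G k) ≤ 0 := by
      apply mul_nonpos_of_nonneg_of_nonpos
      · apply div_nonneg <;> linarith
      · linarith
    linarith
  · intro j hj3
    have hδj : dl D j.1 = false := by
      by_contra hcon
      rw [Bool.not_eq_false] at hcon
      apply hj3
      unfold clsG
      rw [if_pos hcon]
    rw [split_iff hu hFk j (hPd j) hδj]
    unfold spb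
    rw [decide_eq_true_iff]
  · intro j hj
    obtain ⟨d, hd, hPd'⟩ := hPd j
    have h2 : (P j).natDegree = j.1.natDegree := by
      rw [← natDegree_map_eq_of_injective (RingHom.injective_int (Int.castRingHom ℚ)), hPd',
        natDegree_C_mul (by exact_mod_cast hd)]
    have h3 := (hS j.1 j.2).1.natDegree_pos
    unfold lnb at hj
    have h4 := of_decide_eq_true hj
    omega

/-- **Integers in short intervals** -/
theorem gZE (hlow : LOWNL) (hrel : G 0 - G 1 = G 2) (hD : Squarefree D) (hG : ∀ k, G k ≠ 0)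
    (h01 : IsCoprime (G 0) (G 1)) {ε : ℝ} (h0 : 0 < ε) (h1 : ε ≤ 1) (hcr : CritE ε D G) (M : ℕ) :
    ∃ C : ℝ, ∀ X : ℕ, 1 ≤ X → ∀ x : ℤ, x.natAbs ≤ X ^ M →
      ∑ t ∈ (Ioc x (x + X)).filter (fun t : ℤ => (D * G 0 * G 1 * G 2).eval (t : ℚ) ≠ 0),
        (2 : ℝ) ^ (ε * (rkE D G t : ℝ)) ≤ C * X := by
  classical
  rcases (fcs D G).eq_empty_or_nonempty with hE | hE
  · refine ⟨(2 : ℝ) ^ (ε * (rkE D G 0 : ℝ)), fun X _ x _ => ?_⟩
    have h1 : ∀ t ∈ (Ioc x (x + X)).filter (fun t : ℤ => (D * G 0 * G 1 * G 2).eval (t : ℚ) ≠ 0),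
        (2 : ℝ) ^ (ε * (rkE D G t : ℝ)) = (2 : ℝ) ^ (ε * (rkE D G 0 : ℝ)) := fun t _ => by
      rw [const_fam hD.ne_zero hG hE]
    rw [sum_congr rfl h1, sum_const, nsmul_eq_mul, mul_comm]
    exact mul_le_mul_of_nonneg_left (card_Ioc_le x X _) (by positivity)
  · obtain ⟨P, a, u, hPd, hFm, hu, hFk, hact, hav⟩ := setupE hlow hrel hD hG h01 h0 h1 hcr hE
    have : Nonempty {f // f ∈ fcs D G} := ⟨⟨hE.choose, hE.choose_spec⟩⟩
    obtain ⟨z1, hz1⟩ := hFm.good
    set c : ℕ := ∑ j, (P j).natDegree with hc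
    obtain ⟨z2, hz2⟩ := hav c
    set z : ℕ := z1 + z2 + 2 * c + 2 with hz
    obtain ⟨C', hC'⟩ := hz2 z (by omega)
    have hrel' : Fk P a (fun f => dl D f.1) (fun f => ql G f.1) (fun f => ml G f.1) 0 -
        Fk P a (fun f => dl D f.1) (fun f => ql G f.1) (fun f => ml G f.1) 1 =
        Fk P a (fun f => dl D f.1) (fun f => ql G f.1) (fun f => ml G f.1) 2 := by
      apply Polynomial.map_injective (Int.castRingHom ℚ) (RingHom.injective_int _)
      rw [Polynomial.map_sub, hFk, hFk, hFk, ← hrel]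
      ring
    obtain ⟨C2, hC2⟩ := main1E hFm (hz1 z (by omega)) hrel' hact hc (by omega) h0.le h1 M C' hC'
    refine ⟨C2, fun X hX x hx => ?_⟩
    refine le_trans (le_of_eq (sum_congr rfl fun t _ => ?_)) (hC2 X hX _ ⟨x, hx, fun t ht => ?_⟩)
    · rw [rk_eq hu hFk t]
    · rw [mem_filter, mem_Ioc] at ht
      refine ⟨ht.1.1, ht.1.2, FF_ne hPd (fun f hf => factor_ne (fcs_spec hf).2.2 ht.2),
        fun j hj => ?_⟩
      simp at hj

end

end Pool.Agent.L0h5.TE
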