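import Mathlib

/-!
# The number of the curves tends to infinity
-/

set_option autoImplicit false

namespace Pool.Agent.L0h5.TE

open Finset Filter

/-- the number of the curves tends to infinity -/
lemma tendsto_gen {S : ℕ → Finset (ℤ × ℤ)} {k d : ℕ} (hd : 1 ≤ d)
    (h : ∃ (c : ℝ) (C T0 : ℕ), 0 < c ∧ ∀ T H : ℕ, T0 ≤ T → C * T ^ k ≤ H →
      c * (T : ℝ) ^ d ≤ ((S H).card : ℝ)) :
    Tendsto (fun H : ℕ => (S H).card) atTop atTop := by
  obtain ⟨c, C, T0, hc, h⟩ := h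
  rw [tendsto_atTop_atTop]
  intro b
  obtain ⟨n, hn⟩ := exists_nat_gt ((b : ℝ) / c)
  set T := max (max n T0) 1 with hT
  have h1 : (b : ℝ) ≤ c * (T : ℝ) ^ d := by
    rw [div_lt_iff₀ hc] at hn
    have hT1 : (1 : ℝ) ≤ T := by exact_mod_cast (le_max_right (max n T0) 1)
    have hTn : (n : ℝ) ≤ T := by
      exact_mod_cast (le_max_left n T0).trans (le_max_left (max n T0) 1)
    have h2 : (T : ℝ) ≤ (T : ℝ) ^ d := le_self_pow₀ hT1 (by omega)
    have h3 : (n : ℝ) * c ≤ (T : ℝ) ^ d * c := mul_le_mul_of_nonneg_right (hTn.trans h2) hc.le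
    linarith
  refine ⟨C * T ^ k, fun H hH => ?_⟩
  have h2 := h T H ((le_max_right n T0).trans (le_max_left _ _)) hH
  exact_mod_cast h1.trans h2

end Pool.Agent.L0h5.TE
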