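import Pool.Agent.L0h5.TE.W4
import Pool.Agent.L0h80.TE.LowPf
import Pool.Agent.L0h80.T4.Rank4
import Pool.Agent.L0h80.T4.Cnt4
import Pool.Agent.L0h80.T8.Par4c
import Pool.Agent.L0h80.T8.Low4c

/-!
# The curves with a point of order 4, by height
-/

set_option autoImplicit false
set_option linter.unusedSectionVars false

namespace Pool.Agent.L0h5.TE

open Finset Pool.Agent.W262.RK Pool.Agent.L0h5.TH Pool.Agent.L0h5.T4 Pool.Agent.L0h5.T8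
  Pool.Agent.W307.RT
open Pool.Agent.L0h5.TF hiding oo

/-- the box -/
noncomputable def T4X (X : ℕ) : Finset (ℤ × ℤ) :=
  ((Icc (-(X : ℤ)) X) ×ˢ (Icc (-((X : ℤ) ^ 2)) ((X : ℤ) ^ 2))).filter (fun t => f4 t ≠ 0)

lemma mem_T4X {X : ℕ} {t : ℤ × ℤ} : t ∈ T4X X ↔
    (t.1.natAbs ≤ X ∧ t.2.natAbs ≤ X ^ 2) ∧ f4 t ≠ 0 := by
  unfold T4X
  rw [mem_filter, mem_product, mem_Icc, mem_Icc]
  have e : ((X : ℤ) ^ 2) = ((X ^ 2 : ℕ) : ℤ) := by push_cast; rfl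
  rw [e]
  constructor
  · rintro ⟨⟨⟨h1, h2⟩, h3, h4⟩, h5⟩
    exact ⟨⟨by omega, by omega⟩, h5⟩
  · rintro ⟨⟨h1, h2⟩, h5⟩
    exact ⟨⟨⟨by omega, by omega⟩, by omega, by omega⟩, h5⟩

lemma f4_bd {X : ℕ} (hX : 2 ≤ X) {t : ℤ × ℤ} (h1 : t.1.natAbs ≤ X) (h2 : t.2.natAbs ≤ X ^ 2) :
    (f4 t).natAbs ≤ X ^ 8 := by
  unfold f4
  rw [Int.natAbs_mul, Int.natAbs_mul]
  have h3 : (t.1 ^ 2 - 4 * t.2).natAbs ≤ 5 * X ^ 2 := by
    have h4 : (t.1 ^ 2 - 4 * t.2).natAbs ≤ (t.1 ^ 2).natAbs + (4 * t.2).natAbs := by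
      have := Int.natAbs_sub_le (t.1 ^ 2) (4 * t.2)
      exact this
    rw [Int.natAbs_pow, Int.natAbs_mul] at h4
    have h5 : t.1.natAbs ^ 2 ≤ X ^ 2 := Nat.pow_le_pow_left h1 2
    have h6 : (4 : ℤ).natAbs = 4 := rfl
    rw [h6] at h4
    omega
  calc t.1.natAbs * t.2.natAbs * (t.1 ^ 2 - 4 * t.2).natAbs ≤ X * X ^ 2 * (5 * X ^ 2) := by
        gcongr
    _ = 5 * X ^ 5 := by ring
    _ ≤ X ^ 3 * X ^ 5 := by
        apply Nat.mul_le_mul_right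
        calc 5 ≤ 2 ^ 3 := by norm_num
          _ ≤ X ^ 3 := Nat.pow_le_pow_left hX 3
    _ = X ^ 8 := by ring

/-- the main estimate -/
theorem main4b {ε : ℝ} (h0 : 0 < ε) (h1 : ε ≤ 1) (hx : (2 : ℝ) ^ ε ≤ 3 / 2) :
    ∃ C2 : ℝ, ∀ X : ℕ, 1 ≤ X → ∑ t ∈ T4X X, (2 : ℝ) ^ (ε * (Module.finrank ℤ
      (EAB (t.1 ^ 2) (t.1 ^ 2 - 4 * t.2)).toAffine.Point : ℝ)) ≤ C2 * (X : ℝ) ^ 3 := by
  classical
  obtain ⟨z1, hz1⟩ := avg4 Pool.Agent.L0h80.TE.lownl h0 h1 hx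
  obtain ⟨z2, hz2⟩ := Pool.Agent.L0h80.T4.cnt4
  set z : ℕ := z1 + z2 + 20 with hz
  obtain ⟨C', hC'⟩ := hz1 z (by omega)
  obtain ⟨C, K, y0, hC, hK, hcnt⟩ := hz2 z (by omega)
  have hp2 : ∀ p : ℕ, z < p → p ≠ 2 := fun p hp => by omega
  have hD1 : (1 : ℝ) ≤ 4 ^ 8 := by norm_num
  have hmain := coreE (Ω := ℤ × ℤ) (c := 4) (N := 3) (z := z)
    (fun _ => (univ : Finset (Fin 3 × Bool))) LS4 (by omega) h0.le h1
    (fun p _ _ => by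
      rw [card_univ]
      simp)
    (fun p hp hzp σ _ => xc4 hp (hp2 p hzp) σ) C' hC'
    T4X (fun X TX => TX = T4X X) (fun X TX hTX => by rw [hTX])
    (fun X Y hXY t ht => by
      rw [mem_T4X] at ht ⊢
      exact ⟨⟨ht.1.1.trans hXY, ht.1.2.trans (Nat.pow_le_pow_left hXY 2)⟩, ht.2⟩)
    (fun X => (X : ℝ) ^ 3) (fun X hX => one_le_pow₀ (by exact_mod_cast hX)) f4
    (fun X t ht => (mem_T4X.1 ht).2) st4 (fun X t _ p _ _ _ _ => mem_univ _)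
    (fun t => Module.finrank ℤ (EAB (t.1 ^ 2) (t.1 ^ 2 - 4 * t.2)).toAffine.Point)
    (4 ^ (z + 2)) (4 ^ 8) (one_le_pow₀ (by norm_num)) hD1 C K (y0 + 2) hC hK ?_ ?_
  · obtain ⟨C2, hC2⟩ := hmain
    exact ⟨C2, fun X hX => hC2 X hX (T4X X) rfl⟩
  · rintro X y k' hy hzy hyX hXk TX rfl t ht
    obtain ⟨⟨h3, h4⟩, h5⟩ := mem_T4X.1 ht
    exact Pool.Agent.L0h80.T4.rank4 z y X k' 8 t (by omega) h5 (f4_bd (by omega) h3 h4)
      (by norm_num) hXk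
  · rintro X y Y k' hy hzy hyX hXk TX rfl s v u hs hv hu hsvu hcop T' hT' hT hst
    have h3 := hcnt X y Y (by omega) hzy hyX s v u hs hv hu hsvu hcop T' (fun t ht => by
      obtain ⟨⟨h3, h4⟩, h5⟩ := mem_T4X.1 (hT' ht)
      exact ⟨h3, h4, h5, hT t ht⟩) hst
    have hgs := gw_nonneg (c := 4) (by omega) hs
    have hgv := gw_nonneg (c := 4) (by omega) hv
    have hl : 0 ≤ (Real.log y) ^ 3 := pow_nonneg (Real.log_natCast_nonneg y) _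
    set R : ℝ := ((1 / 2) ^ s.primeFactors.card * gw 1 4 s) *
      ((4 : ℝ) ^ v.primeFactors.card * (gw 1 4 v / v)) *
      ((4 : ℝ) ^ u.primeFactors.card / u) / (Real.log y) ^ 3 with hR
    have hR0 : 0 ≤ R := by
      rw [hR]
      positivity
    have h4 : (T'.card : ℝ) ≤ C * (X : ℝ) ^ 3 * R := by
      refine h3.trans (le_of_eq ?_)
      rw [hR]
      ring
    have h5 : (1 : ℝ) ≤ (4 ^ 8) ^ k' := one_le_pow₀ hD1
    have h6 : C * (X : ℝ) ^ 3 ≤ C * (4 ^ 8) ^ k' * (X : ℝ) ^ 3 := by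
      have : 0 ≤ C * (X : ℝ) ^ 3 := by positivity
      nlinarith
    refine h4.trans ((mul_le_mul_of_nonneg_right h6 hR0).trans (le_of_eq ?_))
    rw [hR]
    push_cast
    ring

/-- **The curves with a point of order 4** -/
theorem main4c : ∃ C : ℝ, ∀ H : ℕ, ∑ c ∈ Cc 4 H,
    (3 / 2 : ℝ) ^ Module.finrank ℤ (Sh c.1 c.2).toAffine.Point ≤ C * (Cc 4 H).card := by
  classical
  set ε : ℝ := Real.logb 2 (3 / 2) with hεd
  have hε : (2 : ℝ) ^ ε = 3 / 2 := Real.rpow_logb (by norm_num) (by norm_num) (by norm_num)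
  have h0 : 0 < ε := Real.logb_pos (by norm_num) (by norm_num)
  have h1 : ε ≤ 1 := by
    rw [hεd, Real.logb_le_iff_le_rpow (by norm_num) (by norm_num), Real.rpow_one]
    norm_num
  obtain ⟨C2, hC2⟩ := main4b h0 h1 hε.le
  simp only [Real.rpow_mul (show (0 : ℝ) ≤ 2 by norm_num), hε, Real.rpow_natCast] at hC2
  obtain ⟨C0', F, hF⟩ := Pool.Agent.L0h80.T8.par4c
  have hC20 : 0 ≤ |C2| * 8 := by positivity
  refine final_gen (Cc 4) (fun c => (3 / 2 : ℝ) ^ Module.finrank ℤ (Sh c.1 c.2).toAffine.Point)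
    (k := 12) (d := 3) (by norm_num) C0' (|C2| * 8) hC20 ?_ Pool.Agent.L0h80.T8.low4c
  intro H T hT hTk
  obtain ⟨hinj, h2⟩ := hF H
  have h3 : ∑ c ∈ Cc 4 H, (3 / 2 : ℝ) ^ Module.finrank ℤ (Sh c.1 c.2).toAffine.Point ≤
      ∑ t ∈ (Cc 4 H).image F, (3 / 2 : ℝ) ^ Module.finrank ℤ
        (EAB (t.1 ^ 2) (t.1 ^ 2 - 4 * t.2)).toAffine.Point := by
    rw [sum_image hinj]
    apply sum_le_sum
    intro c hc
    obtain ⟨_, _, _, _, _, h4⟩ := h2 c hc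
    exact pow_le_pow_right₀ (by norm_num) h4
  have h4 : (Cc 4 H).image F ⊆ T4X (2 * T) := by
    intro t ht
    obtain ⟨c, hc, rfl⟩ := mem_image.1 ht
    obtain ⟨a1, a2, a3, a4, a5, _⟩ := h2 c hc
    rw [mem_T4X]
    refine ⟨⟨?_, ?_⟩, ?_⟩
    · have := (Nat.pow_lt_pow_iff_left (by norm_num : 12 ≠ 0)).1 (lt_of_le_of_lt a4 hTk)
      omega
    · have h5 : (T + 1) ^ 12 = ((T + 1) ^ 2) ^ 6 := by ring
      rw [h5] at hTk
      have h6 := (Nat.pow_lt_pow_iff_left (by norm_num : 6 ≠ 0)).1 (lt_of_le_of_lt a5 hTk)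
      nlinarith
    · unfold f4
      refine mul_ne_zero (mul_ne_zero a1 a2) ?_
      intro h5
      exact a3 (by linarith)
  refine h3.trans ((sum_le_sum_of_subset_of_nonneg h4 fun t _ _ => by positivity).trans
    ((hC2 (2 * T) (by omega)).trans ?_))
  push_cast
  have h5 := le_abs_self C2
  have h6 : (0 : ℝ) ≤ (2 * (T : ℝ)) ^ 3 := by positivity
  refine (mul_le_mul_of_nonneg_right h5 h6).trans (le_of_eq (by ring))

end Pool.Agent.L0h5.TE
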