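import Pool.Agent.L0h5.TE.Z12b
import Pool.Agent.L0h98.T12.Low12

/-!
# The family of the curves with a point of order 12
-/

set_option autoImplicit false

namespace Pool.Agent.L0h5.TE.S12

open Finset Pool.Agent.W262.RK Pool.Agent.W307.RT Pool.Agent.L0h5.T8 Pool.Agent.L0h5.TE

/-- **The curves with a point of order 12** -/
theorem main12 : ∃ C : ℝ, ∀ H : ℕ, ∑ c ∈ Cc 12 H,
    (7 / 6 : ℝ) ^ Module.finrank ℤ (Sh c.1 c.2).toAffine.Point ≤ C * (Cc 12 H).card :=
  final_c (by norm_num) Pool.Agent.L0h98.T12.par12c Pool.Agent.L0h98.T12.low12c (by norm_num) box12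

end Pool.Agent.L0h5.TE.S12
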