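import Pool.Agent.L0h5.TE.D15
import Pool.Agent.L0h80.TE.LowPf
import Pool.Agent.L0h98.T8.Low8
import Pool.Agent.L0h98.T8.Par8

/-!
# The family of the curves with a point of order 8
-/

set_option autoImplicit false
set_option linter.unusedSectionVars false

namespace Pool.Agent.L0h5.TE

open Finset Polynomial Pool.Agent.W262.RK Pool.Agent.L0h5.TH Pool.Agent.L0h5.MR
  Pool.Agent.L0h5.TQ Pool.Agent.W307.RT Pool.Agent.L0h5.T8
open Pool.Agent.L0h5.TF hiding oo QF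

/-- the factors -/
def d8 : Fin 5 → ℤ × ℤ × ℤ := ![(0, 1, 0), (0, 2, 1), (2, 4, 1), (0, 1, 1), (0, 3, 1)]

/-- the constants -/
def a8 : Fin 3 → ℤ := ![1, -1, 1]

/-- the classes -/
def q8 : Fin 5 → Fin 3 := ![0, 1, 1, 2, 2]

/-- the multiplicities -/
def m8 : Fin 5 → ℕ := ![4, 2, 1, 2, 2]

/-- the splitting bits -/
def sp8 : Fin 5 → Bool := ![true, false, false, true, true]

/-- the linear factors -/
def ln8 : Fin 5 → Bool := ![true, true, false, true, true]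

/-- the forms -/
noncomputable abbrev F8 (k : Fin 3) : ℤ[X] := Fk (fun j => pol (d8 j)) a8 (fun _ => false) q8 m8 k

lemma ok8 (j : Fin 5) : okp (d8 j) := by
  fin_cases j
  · exact Or.inl ⟨rfl, by norm_num [d8]⟩
  · exact Or.inl ⟨rfl, by norm_num [d8]⟩
  · exact Or.inr ⟨by norm_num [d8], by norm_num [d8]⟩
  · exact Or.inl ⟨rfl, by norm_num [d8]⟩
  · exact Or.inl ⟨rfl, by norm_num [d8]⟩

lemma fm8 : Fm (fun j => pol (d8 j)) a8 := by
  refine fm_of d8 a8 ok8 (by decide) (by decide)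

lemma F80 : F8 0 = (pol (0, 1, 0)) ^ 4 := by
  unfold F8 Fk mu
  simp [Fin.prod_univ_succ, d8, a8, q8, m8]

lemma F81 : F8 1 = -((pol (0, 2, 1)) ^ 2 * pol (2, 4, 1)) := by
  unfold F8 Fk mu
  simp [Fin.prod_univ_succ, d8, a8, q8, m8]

lemma F82 : F8 2 = (pol (0, 1, 1)) ^ 2 * (pol (0, 3, 1)) ^ 2 := by
  unfold F8 Fk mu
  simp [Fin.prod_univ_succ, d8, a8, q8, m8]

lemma rel8 : F8 0 - F8 1 = F8 2 := by
  rw [F80, F81, F82]
  simp only [pol_eq, map_zero, map_one, map_ofNat]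
  ring

lemma deg8 (k : Fin 3) : (F8 k).natDegree = 2 * 2 := by
  rw [natDegree_Fk fm8 k (fun j => dgp (d8 j)) (fun j => natDegree_pol (ok8 j))]
  revert k
  decide

lemma sp8_iff (j : Fin 5) : sp8 j = true ↔
    IsSquare (AdjoinRoot.mk ((pol (d8 j)).map (Int.castRingHom ℚ))
      ((kapQ (fun j => pol (d8 j)) a8 (fun _ => false) q8 m8 j 0).map (Int.castRingHom ℚ))) := by
  have h0 : kapQ (fun j => pol (d8 j)) a8 (fun _ => false) q8 m8 0 0 = -F8 1 := rfl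
  have h1 : kapQ (fun j => pol (d8 j)) a8 (fun _ => false) q8 m8 1 0 = -F8 0 := rfl
  have h2 : kapQ (fun j => pol (d8 j)) a8 (fun _ => false) q8 m8 2 0 = -F8 0 := rfl
  have h3 : kapQ (fun j => pol (d8 j)) a8 (fun _ => false) q8 m8 3 0 = F8 0 := rfl
  have h4 : kapQ (fun j => pol (d8 j)) a8 (fun _ => false) q8 m8 4 0 = F8 0 := rfl
  have e : ∀ i : Fin 5, i = 0 ∨ i = 1 ∨ i = 2 ∨ i = 3 ∨ i = 4 := by decide
  rcases e j with rfl | rfl | rfl | rfl | rfl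
  · rw [h0, F81]
    refine ⟨fun _ => ?_, fun _ => rfl⟩
    have e0 : d8 0 = (0, 1, 0) := rfl
    rw [e0]
    refine sq_of 1 (8 * X ^ 3 + 24 * X ^ 2 + 22 * X + 8) ?_
    simp only [pol_eq, map_zero, map_one, map_ofNat]
    ring
  · rw [h1, F80]
    have e0 : d8 1 = (0, 2, 1) := rfl
    rw [e0]
    refine ⟨fun h => absurd h (by decide), fun h => absurd h (nsq_of (-1 / 2) ?_ ?_)⟩
    · rw [aeval_pol]
      norm_num
    · simp only [map_neg, map_pow, aeval_pol]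
      norm_num
  · rw [h2, F80]
    have e0 : d8 2 = (2, 4, 1) := rfl
    rw [e0]
    have hs := Real.sq_sqrt (show (0 : ℝ) ≤ 2 by norm_num)
    refine ⟨fun h => absurd h (by decide), fun h => absurd h (nsq_of ((-2 + √2) / 2) ?_ ?_)⟩
    · rw [aeval_pol]
      push_cast
      linarith [hs, show (2 : ℝ) * ((-2 + √2) / 2) ^ 2 + 4 * ((-2 + √2) / 2) + 1 =
        (√2 ^ 2 - 2) / 2 by ring]
    · simp only [map_neg, map_pow, aeval_pol]
      have h5 : ((-2 + √2) / 2) ≠ 0 := by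
        intro h6
        have h7 : √2 = 2 := by linarith
        rw [h7] at hs
        norm_num at hs
      have h6 : 0 < ((-2 + √2) / 2) ^ 4 := by positivity
      push_cast
      linarith [show (0 * ((-2 + √2) / 2) ^ 2 + 1 * ((-2 + √2) / 2) + 0) ^ 4 =
        ((-2 + √2) / 2) ^ 4 by ring]
  · rw [h3, F80]
    exact ⟨fun _ => sq_of ((pol (0, 1, 0)) ^ 2) 0 (by ring), fun _ => rfl⟩
  · rw [h4, F80]
    exact ⟨fun _ => sq_of ((pol (0, 1, 0)) ^ 2) 0 (by ring), fun _ => rfl⟩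

lemma hv80 (u v : ℤ) : hv (F8 0) (u, v - 2 * u) = -(M8 u v) := by
  have h0 : okp (0, 1, 0) := Or.inl ⟨rfl, by norm_num⟩
  rw [F80, hv_pow, hv_pol h0]
  unfold M8
  simp only [if_true]
  ring

lemma hv81 (u v : ℤ) : hv (F8 1) (u, v - 2 * u) = -(N8 u v) := by
  have h0 : okp (0, 2, 1) := Or.inl ⟨rfl, by norm_num⟩
  have h1 : okp (2, 4, 1) := Or.inr ⟨by norm_num, by norm_num⟩
  have e : F8 1 = C (-1) * ((pol (0, 2, 1)) ^ 2 * pol (2, 4, 1)) := by
    rw [F81, map_neg, map_one]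
    ring
  rw [e, hv_mul, hv_C, hv_mul, hv_pow, hv_pol h0, hv_pol h1]
  unfold N8
  simp only [if_true, OfNat.ofNat_ne_zero, if_false]
  ring

lemma crit8 (q' : Fin 4) (h3 : q' ≠ 3) (h2 : q' ∉ ({2} : Finset (Fin 4))) :
    ∑ j, kc q' (q8 j).castSucc (evG m8 j) (sp8 j) ≤ Fintype.card (Fin 5) := by
  rw [mem_singleton] at h2
  have e : q' = 0 ∨ q' = 1 := by
    revert q'
    decide
  rcases e with rfl | rfl
  · simp [Fin.sum_univ_succ, kc, th, evG, q8, m8, sp8]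
    norm_num
  · simp [Fin.sum_univ_succ, kc, th, evG, q8, m8, sp8]
    norm_num

lemma critB8 (q' : Fin 4) (h2 : q' ∈ ({2} : Finset (Fin 4))) :
    ∑ j, kc q' (q8 j).castSucc (evG m8 j) (sp8 j) -
      ∑ j, sv q' (q8 j).castSucc (sp8 j) (ln8 j) < Fintype.card (Fin 5) := by
  rw [mem_singleton] at h2
  subst h2
  simp [Fin.sum_univ_succ, kc, sv, th, evG, q8, m8, sp8, ln8]
  norm_num

lemma critE8 (q' : Fin 4) (h2 : q' ∈ ({2} : Finset (Fin 4))) :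
    ∑ j, kx (5 / 4) q' (q8 j).castSucc (evG m8 j) (sp8 j) ≤ Fintype.card (Fin 5) := by
  rw [mem_singleton] at h2
  subst h2
  simp [Fin.sum_univ_succ, kx, th, evG, q8, m8, sp8]
  norm_num

/-- the box estimate -/
theorem box8 : ∃ C : ℝ, 0 ≤ C ∧ ∀ T : ℕ, 1 ≤ T → ∑ t ∈ (Box T).filter (fun t : ℤ × ℤ =>
      IsCoprime t.1 t.2 ∧ M8 t.1 t.2 ≠ 0 ∧ N8 t.1 t.2 ≠ 0 ∧ M8 t.1 t.2 ≠ N8 t.1 t.2),
      (5 / 4 : ℝ) ^ Module.finrank ℤ (EAB (-(M8 t.1 t.2)) (-(N8 t.1 t.2))).toAffine.Point ≤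
        C * (T : ℝ) ^ 2 :=
  boxMN Pool.Agent.L0h80.TE.lownl fm8 rel8 deg8 (by decide) (by norm_num) (by norm_num) sp8 ln8
    {2} (by decide) (by decide) crit8 critB8 critE8 sp8_iff
    (fun j hj => by
      rw [natDegree_pol (ok8 j)]
      revert j
      decide) M8 N8 hv80 hv81

/-- **The curves with a point of order 8** -/
theorem main8 : ∃ C : ℝ, ∀ H : ℕ, ∑ c ∈ Cc 8 H,
    (5 / 4 : ℝ) ^ Module.finrank ℤ (Sh c.1 c.2).toAffine.Point ≤ C * (Cc 8 H).card :=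
  final_c (by norm_num) Pool.Agent.L0h98.T8.par8c Pool.Agent.L0h98.T8.low8c (by norm_num) box8

end Pool.Agent.L0h5.TE
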