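import Pool.Agent.L0h5.TE.D15
import Pool.Agent.L0h80.TE.LowPf
import Pool.Agent.L0h80.T8.Low28
import Pool.Agent.L0h80.T8.Par28

/-!
# The family of the curves with a subgroup `Z/2 x Z/8`
-/

set_option autoImplicit false
set_option linter.unusedSectionVars false

namespace Pool.Agent.L0h5.TE.S28

open Finset Polynomial Pool.Agent.W262.RK Pool.Agent.L0h5.TH Pool.Agent.L0h5.MR
  Pool.Agent.L0h5.TQ Pool.Agent.W307.RT Pool.Agent.L0h5.T8 Pool.Agent.L0h5.TE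
open Pool.Agent.L0h5.TF hiding oo QF

/-- the factors -/
def dd : Fin 7 → ℤ × ℤ × ℤ :=
  ![(0, 1, 0), (0, 2, 1), (0, 1, 1), (0, 3, 1), (5, 4, 1), (1, -2, -1), (7, 6, 1)]

/-- the constants -/
def aa : Fin 3 → ℤ := ![-16, -1, -1]

/-- the classes -/
def qq : Fin 7 → Fin 3 := ![0, 0, 1, 1, 2, 2, 2]

/-- the multiplicities -/
def mm : Fin 7 → ℕ := ![4, 4, 4, 4, 2, 1, 1]

/-- the splitting bits -/
def ss : Fin 7 → Bool := ![true, true, true, true, true, false, false]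

/-- the linear factors -/
def ll : Fin 7 → Bool := fun _ => false

/-- the forms -/
noncomputable abbrev F8 (k : Fin 3) : ℤ[X] := Fk (fun j => pol (dd j)) aa (fun _ => false) qq mm k

lemma ok8 (j : Fin 7) : okp (dd j) := by
  fin_cases j
  · exact Or.inl ⟨rfl, by norm_num [dd]⟩
  · exact Or.inl ⟨rfl, by norm_num [dd]⟩
  · exact Or.inl ⟨rfl, by norm_num [dd]⟩
  · exact Or.inl ⟨rfl, by norm_num [dd]⟩
  · exact Or.inr ⟨by norm_num [dd], by norm_num [dd]⟩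
  · exact Or.inr ⟨by norm_num [dd], by norm_num [dd]⟩
  · exact Or.inr ⟨by norm_num [dd], by norm_num [dd]⟩

lemma fm8 : Fm (fun j => pol (dd j)) aa := by
  refine fm_of dd aa ok8 (by decide) (by decide)

lemma F80 : F8 0 = -(16 * (pol (0, 1, 0)) ^ 4 * (pol (0, 2, 1)) ^ 4) := by
  unfold F8 Fk mu
  simp [Fin.prod_univ_succ, dd, aa, qq, mm]
  ring

lemma F81 : F8 1 = -((pol (0, 1, 1)) ^ 4 * (pol (0, 3, 1)) ^ 4) := by
  unfold F8 Fk mu
  simp [Fin.prod_univ_succ, dd, aa, qq, mm]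

lemma F82 : F8 2 = -((pol (5, 4, 1)) ^ 2 * pol (1, -2, -1) * pol (7, 6, 1)) := by
  unfold F8 Fk mu
  simp [Fin.prod_univ_succ, dd, aa, qq, mm]
  ring

lemma rel8 : F8 0 - F8 1 = F8 2 := by
  rw [F80, F81, F82]
  simp only [pol_eq, map_zero, map_one, map_ofNat, map_neg]
  ring

lemma deg8 (k : Fin 3) : (F8 k).natDegree = 2 * 4 := by
  rw [natDegree_Fk fm8 k (fun j => dgp (dd j)) (fun j => natDegree_pol (ok8 j))]
  revert k
  decide

lemma sp8_iff (j : Fin 7) : ss j = true ↔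
    IsSquare (AdjoinRoot.mk ((pol (dd j)).map (Int.castRingHom ℚ))
      ((kapQ (fun j => pol (dd j)) aa (fun _ => false) qq mm j 0).map (Int.castRingHom ℚ))) := by
  have h0 : kapQ (fun j => pol (dd j)) aa (fun _ => false) qq mm 0 0 = -F8 1 := rfl
  have h1 : kapQ (fun j => pol (dd j)) aa (fun _ => false) qq mm 1 0 = -F8 1 := rfl
  have h2 : kapQ (fun j => pol (dd j)) aa (fun _ => false) qq mm 2 0 = -F8 0 := rfl
  have h3 : kapQ (fun j => pol (dd j)) aa (fun _ => false) qq mm 3 0 = -F8 0 := rfl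
  have h4 : kapQ (fun j => pol (dd j)) aa (fun _ => false) qq mm 4 0 = F8 0 := rfl
  have h5 : kapQ (fun j => pol (dd j)) aa (fun _ => false) qq mm 5 0 = F8 0 := rfl
  have h6 : kapQ (fun j => pol (dd j)) aa (fun _ => false) qq mm 6 0 = F8 0 := rfl
  have e : ∀ i : Fin 7, i = 0 ∨ i = 1 ∨ i = 2 ∨ i = 3 ∨ i = 4 ∨ i = 5 ∨ i = 6 := by decide
  have hs := Real.sq_sqrt (show (0 : ℝ) ≤ 2 by norm_num)
  have hs1 : (1 : ℝ) < √2 := by
    rw [Real.lt_sqrt (by norm_num)]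
    norm_num
  have hs2 : √2 < (2 : ℝ) := by
    rw [Real.sqrt_lt' (by norm_num)]
    norm_num
  rcases e j with rfl | rfl | rfl | rfl | rfl | rfl | rfl
  · rw [h0, F81]
    exact ⟨fun _ => sq_of ((pol (0, 1, 1)) ^ 2 * (pol (0, 3, 1)) ^ 2) 0 (by ring), fun _ => rfl⟩
  · rw [h1, F81]
    exact ⟨fun _ => sq_of ((pol (0, 1, 1)) ^ 2 * (pol (0, 3, 1)) ^ 2) 0 (by ring), fun _ => rfl⟩
  · rw [h2, F80]
    exact ⟨fun _ => sq_of (4 * (pol (0, 1, 0)) ^ 2 * (pol (0, 2, 1)) ^ 2) 0 (by ring),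
      fun _ => rfl⟩
  · rw [h3, F80]
    exact ⟨fun _ => sq_of (4 * (pol (0, 1, 0)) ^ 2 * (pol (0, 2, 1)) ^ 2) 0 (by ring),
      fun _ => rfl⟩
  · rw [h4, F80]
    refine ⟨fun _ => ?_, fun _ => rfl⟩
    have e0 : dd 4 = (5, 4, 1) := rfl
    rw [e0]
    refine sq_of ((5 * X + 2) * (4 * X ^ 2 * (2 * X + 1) ^ 2))
      (-5 * (4 * X ^ 2 * (2 * X + 1) ^ 2) ^ 2) ?_
    simp only [pol_eq, map_zero, map_one, map_ofNat]
    ring
  · rw [h5, F80]
    have e0 : dd 5 = (1, -2, -1) := rfl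
    rw [e0]
    refine ⟨fun h => absurd h (by decide), fun h => absurd h (nsq_of (1 + √2) ?_ ?_)⟩
    · rw [aeval_pol]
      push_cast
      linarith [hs, show (1 : ℝ) * (1 + √2) ^ 2 + -2 * (1 + √2) + -1 = √2 ^ 2 - 2 by ring]
    · simp only [map_neg, map_pow, map_mul, map_ofNat, aeval_pol]
      push_cast
      have h7 : (0 : ℝ) < 16 * (0 * (1 + √2) ^ 2 + 1 * (1 + √2) + 0) ^ 4 *
          (0 * (1 + √2) ^ 2 + 2 * (1 + √2) + 1) ^ 4 := by
        have g1 : (0 : ℝ) < 0 * (1 + √2) ^ 2 + 1 * (1 + √2) + 0 := by linarith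
        have g2 : (0 : ℝ) < 0 * (1 + √2) ^ 2 + 2 * (1 + √2) + 1 := by linarith
        positivity
      linarith
  · rw [h6, F80]
    have e0 : dd 6 = (7, 6, 1) := rfl
    rw [e0]
    refine ⟨fun h => absurd h (by decide), fun h => absurd h (nsq_of ((-3 + √2) / 7) ?_ ?_)⟩
    · rw [aeval_pol]
      push_cast
      linarith [hs, show (7 : ℝ) * ((-3 + √2) / 7) ^ 2 + 6 * ((-3 + √2) / 7) + 1 =
        (√2 ^ 2 - 2) / 7 by ring]
    · simp only [map_neg, map_pow, map_mul, map_ofNat, aeval_pol]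
      push_cast
      have h7 : (0 : ℝ) < 16 * (0 * ((-3 + √2) / 7) ^ 2 + 1 * ((-3 + √2) / 7) + 0) ^ 4 *
          (0 * ((-3 + √2) / 7) ^ 2 + 2 * ((-3 + √2) / 7) + 1) ^ 4 := by
        have g1 : 0 * ((-3 + √2) / 7) ^ 2 + 1 * ((-3 + √2) / 7) + 0 ≠ 0 := by
          intro h
          have : √2 = 3 := by linarith
          linarith
        have g2 : 0 * ((-3 + √2) / 7) ^ 2 + 2 * ((-3 + √2) / 7) + 1 ≠ 0 := by
          intro h
          have : √2 = -1 / 2 := by linarith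
          linarith
        positivity
      linarith

lemma hv80 (u v : ℤ) : hv (F8 0) (u, v - 2 * u) = -(M28 u v) := by
  have h0 : okp (0, 1, 0) := Or.inl ⟨rfl, by norm_num⟩
  have h1 : okp (0, 2, 1) := Or.inl ⟨rfl, by norm_num⟩
  have e : F8 0 = C (-16) * ((pol (0, 1, 0)) ^ 4 * (pol (0, 2, 1)) ^ 4) := by
    rw [F80]
    simp only [map_neg, map_ofNat]
    ring
  rw [e, hv_mul, hv_C, hv_mul, hv_pow, hv_pow, hv_pol h0, hv_pol h1]
  unfold M28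
  simp only [if_true]
  ring

lemma hv81 (u v : ℤ) : hv (F8 1) (u, v - 2 * u) = -(N28 u v) := by
  have h0 : okp (0, 1, 1) := Or.inl ⟨rfl, by norm_num⟩
  have h1 : okp (0, 3, 1) := Or.inl ⟨rfl, by norm_num⟩
  have e : F8 1 = C (-1) * ((pol (0, 1, 1)) ^ 4 * (pol (0, 3, 1)) ^ 4) := by
    rw [F81, map_neg, map_one]
    ring
  rw [e, hv_mul, hv_C, hv_mul, hv_pow, hv_pow, hv_pol h0, hv_pol h1]
  unfold N28
  simp only [if_true]
  ring

lemma crit8 (q' : Fin 4) (h3 : q' ≠ 3) (_ : q' ∉ (∅ : Finset (Fin 4))) :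
    ∑ j, kc q' (qq j).castSucc (evG mm j) (ss j) ≤ Fintype.card (Fin 7) := by
  have e : q' = 0 ∨ q' = 1 ∨ q' = 2 := by
    revert q'
    decide
  rcases e with rfl | rfl | rfl
  · simp [Fin.sum_univ_succ, kc, th, evG, qq, mm, ss]
    norm_num
  · simp [Fin.sum_univ_succ, kc, th, evG, qq, mm, ss]
    norm_num
  · simp [Fin.sum_univ_succ, kc, th, evG, qq, mm, ss]
    norm_num

/-- the box estimate -/
theorem box28 : ∃ C : ℝ, 0 ≤ C ∧ ∀ T : ℕ, 1 ≤ T → ∑ t ∈ (Box T).filter (fun t : ℤ × ℤ =>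
      IsCoprime t.1 t.2 ∧ M28 t.1 t.2 ≠ 0 ∧ N28 t.1 t.2 ≠ 0 ∧ M28 t.1 t.2 ≠ N28 t.1 t.2),
      (2 : ℝ) ^ Module.finrank ℤ (EAB (-(M28 t.1 t.2)) (-(N28 t.1 t.2))).toAffine.Point ≤
        C * (T : ℝ) ^ 2 :=
  boxMN Pool.Agent.L0h80.TE.lownl fm8 rel8 deg8 (by decide) (by norm_num) (by norm_num) ss ll
    ∅ (by decide) (by decide) crit8 (fun q' h => absurd h (notMem_empty _))
    (fun q' h => absurd h (notMem_empty _)) sp8_iff
    (fun j hj => absurd hj (by unfold ll; decide)) M28 N28 hv80 hv81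

/-- **The curves with a subgroup `Z/2 x Z/8`** -/
theorem main28 : ∃ C : ℝ, ∀ H : ℕ, ∑ c ∈ Cv 8 H,
    (2 : ℝ) ^ Module.finrank ℤ (Sh c.1 c.2).toAffine.Point ≤ C * (Cv 8 H).card :=
  final_of (by norm_num) Pool.Agent.L0h80.T8.par28 Pool.Agent.L0h80.T8.low28 box28

end Pool.Agent.L0h5.TE.S28
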