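import Pool.Agent.L0h5.AH.B5

/-!
# The sum over all values of the variables of a set without symbols: the main term
-/

set_option autoImplicit false

namespace Pool.Agent.L0h5.TE

open Finset Pool.Agent.W262.RK Pool.Agent.W262.RK.AT Pool.Agent.L0h5.AG Pool.Agent.L0h5.AH
open Pool.Agent.W307.RT (tE tF mem_tE mem_tF sum_split)
open Pool.Agent.W108.RK (mem_Tup)

variable {ι : Type} [Fintype ι] [DecidableEq ι]

/-- the main term of the set `S` -/
noncomputable def MT (g : ι → ℕ → ℝ) (S : Finset ι) (z y : ℕ) : ℝ :=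
  ∏ p ∈ PS z y, (1 + ∑ i ∈ S, g i p)

lemma Sym_one_of (L : ι → ι → Bool) (S : Finset ι) (hS : ∀ i ∈ S, ∀ j ∈ S, L i j = false)
    (d : ι → ℕ) (hd : ∀ i, i ∉ S → d i = 1) : Pool.Agent.W262.RK.Sym L (fun _ => 1) d = 1 := by
  unfold Pool.Agent.W262.RK.Sym
  have h1 : ∀ i j, (if L i j then Jr (d i) (d j) else 1 : ℝ) = 1 := by
    intro i j
    by_cases hi : i ∈ S
    · by_cases hj : j ∈ S
      · rw [hS i hi j hj]
        simp
      · rw [hd j hj, Jr_right_one]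
        simp
    · rw [hd i hi, Nat.cast_one, Jr_left_one]
      simp
  rw [prod_eq_one fun i _ => prod_eq_one fun j _ => h1 i j, one_mul]
  refine prod_eq_one fun i _ => ?_
  rw [Jr_left_one]

/-- the term without small variables -/
lemma main_eq (g : ι → ℕ → ℝ) (L : ι → ι → Bool) (S : Finset ι)
    (hS : ∀ i ∈ S, ∀ j ∈ S, L i j = false) (z y : ℕ) {t : ι → Finset ℕ}
    (ht : ∀ b ∈ S, t b = (PP z y).divisors) :
    ∑ f ∈ Fintype.piFinset (tF S t), HG g L f = MT g S z y := by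
  classical
  unfold MT
  have hX : ∀ (i : ι) (m : ℕ), Xp L (fun _ => 1) i m = 1 := by
    intro i m
    rw [Xp_eq]
    unfold XX
    refine prod_eq_one fun b _ => ?_
    rw [Jr_right_one, Nat.cast_one, Jr_left_one]
    simp
  have h1 := sum_coprime (g := g) (z := z) (y := y) S L (fun _ => 1) 1
  simp only [hX, mul_one] at h1
  have h2 : (PS z y).filter (fun p => ¬ p ∣ 1) = PS z y := by
    apply filter_true_of_mem
    intro p hp h
    have := (mem_PS.1 hp).2.one_lt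
    have := Nat.dvd_one.1 h
    omega
  rw [h2] at h1
  rw [← h1]
  have h3 : (Tup ι z y).filter (fun f => (∀ i, (f i).Coprime 1) ∧ ∀ i, i ∉ S → f i = 1) =
      (Fintype.piFinset (tF S t)).filter (fun d => ∀ i j, i ≠ j → (d i).Coprime (d j)) := by
    ext d
    unfold Tup
    rw [mem_filter, mem_filter, mem_filter, Fintype.mem_piFinset, mem_tF]
    constructor
    · rintro ⟨⟨h1, h2⟩, -, h4⟩
      exact ⟨⟨fun b hb => by rw [ht b hb]; exact h1 b, h4⟩, h2⟩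
    · rintro ⟨⟨h1, h4⟩, h2⟩
      refine ⟨⟨fun b => ?_, h2⟩, fun i => Nat.coprime_one_right _, h4⟩
      by_cases hb : b ∈ S
      · rw [← ht b hb]; exact h1 b hb
      · rw [h4 b hb]; exact one_mem_dv z y
  rw [h3, sum_filter]
  refine sum_congr rfl fun f hf => ?_
  obtain ⟨-, hf2⟩ := mem_tF.1 hf
  unfold HG
  by_cases hc : ∀ i j, i ≠ j → (f i).Coprime (f j)
  · rw [if_pos hc, if_pos hc, Sym_one_of L S hS f hf2, mul_one]
    symm
    refine prod_subset (subset_univ S) fun i _ hi => ?_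
    rw [hf2 i hi, gg_one]
  · rw [if_neg hc, if_neg hc]

variable {g : ι → ℕ → ℝ} {e : ι → ℝ} {L : ι → ι → Bool} {c z : ℕ} {C : ℝ}

lemma loglog_le (M A : ℕ) {γ : ℝ} (hγ : 0 < γ) : ∃ C2 : ℝ, 0 ≤ C2 ∧ ∀ l : ℝ, 1 ≤ l →
    ∀ r : ℕ, 1 < r → r ≤ VV A l ^ M → Real.log (Real.log r) ≤ C2 + γ * Real.log l := by
  set ε : ℝ := γ / (M * A + 1) with hε
  have hMA : (0 : ℝ) ≤ M * A := by positivity
  have hε0 : 0 < ε := by positivity
  refine ⟨ε * (M * 2) + |Real.log ε|, by positivity, fun l hl r hr1 hr => ?_⟩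
  have hL : 0 ≤ Real.log l := Real.log_nonneg hl
  have h0 : 0 < Real.log r := Real.log_pos (by exact_mod_cast hr1)
  have h1 : Real.log r ≤ M * (2 + A * Real.log l) := by
    have e2 : Real.log r ≤ Real.log ((VV A l ^ M : ℕ) : ℝ) :=
      Real.log_le_log (by exact_mod_cast (by omega : 0 < r)) (by exact_mod_cast hr)
    refine e2.trans ?_
    push_cast
    rw [Real.log_pow]
    exact mul_le_mul_of_nonneg_left (log_VV_lin A hl) (Nat.cast_nonneg _)
  have h2 : Real.log (ε * Real.log r) ≤ ε * Real.log r - 1 :=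
    Real.log_le_sub_one_of_pos (by positivity)
  rw [Real.log_mul hε0.ne' h0.ne'] at h2
  have h3 := neg_le_abs (Real.log ε)
  have h4 : ε * Real.log r ≤ ε * (M * (2 + A * Real.log l)) :=
    mul_le_mul_of_nonneg_left h1 hε0.le
  have h5 : ε * (M * A) ≤ γ := by
    rw [hε, div_mul_eq_mul_div, div_le_iff₀ (by positivity)]
    nlinarith
  have h6 := mul_le_mul_of_nonneg_right h5 hL
  have h7 : ε * (M * (2 + A * Real.log l)) = ε * (M * 2) + ε * (M * A) * Real.log l := by ring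
  linarith

/-- the conditions for a set with a main term -/
def JtD (e : ι → ℝ) (g : ι → ℕ → ℝ) (L : ι → ι → Bool) (S : Finset ι) (z : ℕ)
    (K γ Gb Go : ℝ) : Prop :=
  ∃ (m gp : ℕ → ℝ) (K' ep Cm : ℝ) (TS : Finset ι), (∀ i ∈ TS, 0 < e i) ∧ TS ⊆ S ∧
    K' - ep + γ ≤ K ∧ (∀ p, 0 ≤ m p) ∧
    (∀ p, p.Prime → z < p → 0 ≤ gp p ∧ gp p ≤ Gb / (p : ℝ)) ∧
    (∀ y : ℕ, z < y → ∑ p ∈ PS z y, m p ≤ K' * Real.log (Real.log y) + Cm) ∧
    (∀ y : ℕ, z < y → ep * Real.log (Real.log y) - Cm ≤ ∑ p ∈ PS z y, gp p) ∧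
    (∀ (y r : ℕ) (t : Bool), z < y → 1 < r → Squarefree r →
      (∀ p : ℕ, p.Prime → p ∣ r → z < p) →
      ∑ p ∈ PS z y, gp p * ps r t p ≤ Go * Real.log (Real.log r) + Cm) ∧
    (∀ y : ℕ, z < y → ∀ e : ι → ℕ, (∀ b, e b ∈ (PP z y).divisors) → (∀ b ∈ S, e b = 1) →
      ∀ p ∈ PS z y, ¬ p ∣ ∏ b, e b → ∀ i0 ∈ TS,
        ∑ i ∈ S, g i p * XX L i e p ≤ m p - gp p * (1 - XX L i0 e p)) ∧
    ∀ j, j ∉ S → ∃ i ∈ TS, L i j ≠ L j i

end Pool.Agent.L0h5.TE
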