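import Pool.Agent.L0h5.TE.D9
import Pool.Agent.L0h5.TH.AvA
import Pool.Agent.L0h5.TQ.Hom

/-!
# The average of the fractional power for a family
-/

set_option autoImplicit false
set_option linter.unusedSectionVars false

namespace Pool.Agent.L0h5.TE

open Finset Polynomial Pool.Agent.W262.RK Pool.Agent.L0h5.TH Pool.Agent.L0h5.MR
  Pool.Agent.L0h5.TQ
open Pool.Agent.L0h5.TF hiding oo

lemma eval_lin {P : ℤ[X]} (hd : P.natDegree = 1) (t : ℤ) :
    P.eval t = P.leadingCoeff * t + P.coeff 0 := by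
  rw [eval_eq_sum_range, hd, sum_range_succ, sum_range_one, leadingCoeff, hd]
  ring

lemma card_lin {P : ℤ[X]} (hd : P.natDegree = 1) {p : ℕ} (hp : p.Prime)
    (hlc : ¬ (p : ℤ) ∣ P.leadingCoeff) : (rts P p).card = 1 := by
  have h1 : (rts P p).card ≤ 1 := by
    rw [card_rts, ← hd]
    exact rho_le P hp hlc
  have h2 : (rts P p).Nonempty := by
    obtain ⟨u, v, huv⟩ := (Prime.coprime_iff_not_dvd (Nat.prime_iff_prime_int.1 hp)).2 hlc
    refine ⟨rs (-(P.coeff 0) * v) p, ?_⟩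
    unfold rts
    rw [mem_filter, mem_range]
    refine ⟨rs_lt _ hp.ne_zero, ?_⟩
    have h3 := rs_dvd (-(P.coeff 0) * v) hp.ne_zero
    rw [eval_lin hd]
    have e : P.leadingCoeff * (rs (-(P.coeff 0) * v) p : ℤ) + P.coeff 0 =
        -(P.leadingCoeff * (-(P.coeff 0) * v - (rs (-(P.coeff 0) * v) p : ℤ))) +
          (P.coeff 0) * (1 - v * P.leadingCoeff) := by ring
    rw [e]
    refine dvd_add (h3.mul_left _).neg_right (Dvd.dvd.mul_left ?_ _)
    exact ⟨u, by linarith⟩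
  have h3 := h2.card_pos
  omega

/-- the class of the value at the root of a linear polynomial -/
noncomputable def kl (P h : ℤ[X]) : ℤ :=
  P.leadingCoeff ^ h.natDegree * hv h (-(P.coeff 0), P.leadingCoeff)

lemma sg0_kl {P h : ℤ[X]} (hd : P.natDegree = 1) {p : ℕ} (hp : p.Prime)
    (hlc : ¬ (p : ℤ) ∣ P.leadingCoeff) {r : ℕ} (hr : r ∈ rts P p)
    (hu : ¬ (p : ℤ) ∣ h.eval (r : ℤ)) :
    sg0 p (h.eval (r : ℤ)) = sg0 p (kl P h) ∧ ¬ (p : ℤ) ∣ kl P h := by
  unfold rts at hr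
  rw [mem_filter] at hr
  have h1 : (p : ℤ) ∣ P.leadingCoeff * (r : ℤ) - (-(P.coeff 0)) := by
    rw [sub_neg_eq_add, ← eval_lin hd]
    exact hr.2
  have h2 := hv_mod h h1
  have h3 : (p : ℤ) ∣ kl P h - (P.leadingCoeff ^ h.natDegree) ^ 2 * h.eval (r : ℤ) := by
    have e : kl P h - (P.leadingCoeff ^ h.natDegree) ^ 2 * h.eval (r : ℤ) =
        P.leadingCoeff ^ h.natDegree * (hv h (-(P.coeff 0), P.leadingCoeff) -
          P.leadingCoeff ^ h.natDegree * h.eval (r : ℤ)) := by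
      unfold kl
      ring
    rw [e]
    exact h2.mul_left _
  have hu1 := unit_pow hp hlc h.natDegree
  constructor
  · rw [sg0_congrp h3, sg0_mulp hp (unit_pow hp hu1 2) hu, sg0_powp hp hu1]
    have : decide (Odd 2) = false := by decide
    rw [this, Bool.false_and, Bool.false_xor]
  · intro hd'
    have h4 := dvd_sub hd' h3
    rw [sub_sub_cancel] at h4
    exact unit_mul hp (unit_pow hp hu1 2) hu h4

/-- the exponent of the power of the values -/
noncomputable def ke (ε : ℝ) (q c : Fin 4) (ev sp : Bool) : ℝ :=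
  (mj q c ev true) ^ ε + ((mj q c ev false) ^ ε - (mj q c ev true) ^ ε) * th sp

section

variable {J : Type} [Fintype J] [DecidableEq J] {P : J → ℤ[X]} {a : Fin 3 → ℤ} {δ : J → Bool}
  {q : J → Fin 3} {m : J → ℕ}

lemma ec_inj : ∀ q q' : Fin 4, q ≠ 3 → q' ≠ 3 → ec q = ec q' → q = q' := by
  decide

lemma ec_ne0 : ∀ q : Fin 4, q ≠ 3 → ec q ≠ (false, false) := by
  decide

lemma sum_SpA (F : (Σ _ : J, ℕ × Bool) → ℝ) (p : ℕ) :
    ∑ σ ∈ SpA P (fun _ => true) p, F σ = ∑ j, ∑ r ∈ rts (P j) p, ∑ neg : Bool, F ⟨j, r, neg⟩ := by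
  unfold SpA
  rw [sum_sigma]
  have h1 : univ.filter (fun _ : J => true = true) = univ := by
    apply filter_true_of_mem
    intro _ _
    rfl
  rw [h1]
  refine sum_congr rfl fun j _ => ?_
  rw [sum_product]

lemma lamA_all {k : ℕ} (p : ℕ) (v h : Vk k) : lamA k P a δ q m (fun _ => true) p v h =
    lamE (clsG δ q) (evG m) (kapG P a δ q m) (fun j p => rts (P j) p) p v h := by
  unfold lamA lamE
  have h1 : univ.filter (fun _ : J => true = true) = univ := by
    apply filter_true_of_mem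
    intro _ _
    rfl
  rw [h1]

lemma LSA_mk (j : J) (r : ℕ) (neg : Bool) (p : ℕ) : LSA P a δ q m ⟨j, r, neg⟩ p =
    LE (clsG δ q j) (evG m j) (kapG P a δ q m j r) neg p := rfl

lemma sum_tqA {q' : Fin 4} (hq' : q' ≠ 3) (p : ℕ) :
    ∑ σ ∈ SpA P (fun _ => true) p, (1 / 2) * tq (ec q') (LSA P a δ q m σ p) =
      ∑ j, ∑ r ∈ rts (P j) p, Qj q' (clsG δ q j) (evG m j) (kapG P a δ q m j r) p 1 1 := by
  rw [sum_SpA]
  refine sum_congr rfl fun j _ => sum_congr rfl fun r _ => ?_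
  simp only [LSA_mk]
  exact tq_Qj hq' _ _ _ _

/-- **The average of the fractional power for a family** -/
theorem avE [Nonempty J] (hlow : LOWNL) (h : Fm P a) (c : ℕ) {ε : ℝ} (h0 : 0 < ε) (h1 : ε ≤ 1)
    (sp lin : J → Bool) (Bd : Finset (Fin 4)) (hBd : ∀ q' ∈ Bd, q' ≠ 3 ∧ ∃ j, clsG δ q j = q')
    (hBd2 : Bd.card ≤ 2)
    (hcrit : ∀ q' : Fin 4, q' ≠ 3 → q' ∉ Bd → ∑ j, kc q' (clsG δ q j) (evG m j) (sp j) ≤
      Fintype.card J)
    (hcritB : ∀ q' ∈ Bd, ∑ j, kc q' (clsG δ q j) (evG m j) (sp j) -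
      ∑ j, sv q' (clsG δ q j) (sp j) (lin j) < Fintype.card J)
    (hcritE : ∀ q' ∈ Bd, ∑ j, ke ε q' (clsG δ q j) (evG m j) (sp j) ≤ Fintype.card J)
    (hsp : ∀ j, clsG δ q j ≠ 3 → (sp j = true ↔
      IsSquare (AdjoinRoot.mk ((P j).map (Int.castRingHom ℚ))
      ((kapQ P a δ q m j 0).map (Int.castRingHom ℚ)))))
    (hlin : ∀ j, lin j = true → (P j).natDegree = 1) :
    ∃ z0 : ℕ, ∀ z, z0 ≤ z → ∃ C' : ℝ, ∀ y, z < y →
      ∑ s ∈ (PP z y).divisors, GE (SpA P (fun _ => true)) (LSA P a δ q m) ε s * gw 1 c s ≤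
        C' * (Real.log y) ^ (Fintype.card J) := by
  classical
  obtain ⟨z1, hz1⟩ := h.good
  obtain ⟨z2, hz2⟩ := avg2m (clsG δ q) (evG m) sp lin c (∑ j, (P j).natDegree) Bd hBd hcrit hcritB
  have h4 : ∀ j, ∃ z0 : ℕ, clsG δ q j ≠ 3 → ∀ z, z0 ≤ z → ∃ C : ℝ,
      ∀ y : ℕ, z < y → |∑ p ∈ PS z y, (((rts (P j) p).filter
      (fun r => sg0 p (kapG P a δ q m j r 0) = false)).card : ℝ) / ((p : ℝ) - c) -
      th (sp j) * Real.log (Real.log y)| ≤ C := by
    intro j
    by_cases h5 : clsG δ q j ≠ 3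
    · obtain ⟨z0, hz0⟩ := sum_Rz h c j (sp j) (hsp j h5)
      exact ⟨z0, fun _ => hz0⟩
    · exact ⟨0, fun h7 => absurd h7 h5⟩
  choose z3 hz3 using h4
  set κ0 : J → ℤ := fun j => kl (P j) (kapQ P a δ q m j 0) with hκ0
  refine ⟨z1 + z2 + ∑ j, z3 j + 2 * c + 2 + ∑ j, (κ0 j).natAbs, fun z hz => ?_⟩
  have g : Gz P a z := hz1 z (by omega)
  have hcz : 2 * c + 2 ≤ z := by omega
  have hz3' : ∀ j, z3 j ≤ z := fun j => by
    have := single_le_sum (f := fun j => z3 j) (fun _ _ => Nat.zero_le _) (mem_univ j)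
    omega
  have hκz : ∀ j, (κ0 j).natAbs ≤ z := fun j => by
    have := single_le_sum (f := fun j => (κ0 j).natAbs) (fun _ _ => Nat.zero_le _) (mem_univ j)
    omega
  have hlin' : ∀ j, lin j = true → κ0 j ≠ 0 ∧ (κ0 j).natAbs ≤ z ∧
      ∀ p : ℕ, p.Prime → z < p → (rts (P j) p).card = 1 ∧
        ∀ r ∈ rts (P j) p, sg0 p (kapG P a δ q m j r 0) = sg0 p (κ0 j) := by
    intro j hj
    have hd := hlin j hj
    have hp : ∀ p : ℕ, p.Prime → z < p → ∀ r ∈ rts (P j) p,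
        sg0 p (kapG P a δ q m j r 0) = sg0 p (κ0 j) ∧ ¬ (p : ℤ) ∣ κ0 j := by
      intro p hp hzp r hr
      refine sg0_kl hd hp (g.lc p hp hzp j) hr ?_
      have hr' := hr
      unfold rts at hr'
      exact kapG_unit g hp hzp (mem_filter.1 hr').2 0
    refine ⟨?_, hκz j, fun p hpp hzp => ⟨card_lin hd hpp (g.lc p hpp hzp j),
      fun r hr => (hp p hpp hzp r hr).1⟩⟩
    obtain ⟨p, hzp, hpp⟩ := Nat.exists_infinite_primes (z + 1)
    have hzp' : z < p := by omega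
    obtain ⟨r, hr⟩ := card_eq_one.1 (card_lin hd hpp (g.lc p hpp hzp' j))
    have h5 := (hp p hpp hzp' r (by rw [hr]; exact mem_singleton_self _)).2
    intro h6
    rw [h6] at h5
    exact h5 (dvd_zero _)
  have h5 : ∀ j, ∃ C : ℝ, ∀ y : ℕ, z < y →
      |∑ p ∈ PS z y, (rho (P j) p : ℝ) / ((p : ℝ) - c) - Real.log (Real.log y)| ≤ C := by
    intro j
    obtain ⟨C, hC⟩ := mertens_rho (P j) (h.irr j)
    obtain ⟨C', hC'⟩ := two_sided (fun p => (rho (P j) p : ℝ)) (fun _ => Nat.cast_nonneg _)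
      ((P j).natDegree : ℝ) c z (by omega)
      (fun p hp hzp => by exact_mod_cast rho_le (P j) hp (g.lc p hp hzp j)) 1 C
      (fun y hy => by rw [one_mul]; exact hC y hy)
    exact ⟨C', fun y hy => by
      have := hC' y hy
      rwa [one_mul] at this⟩
  choose C5 hC5 using h5
  have h6 : ∀ j, ∃ C : ℝ, clsG δ q j ≠ 3 →
      ∀ y : ℕ, z < y → |∑ p ∈ PS z y, (((rts (P j) p).filter
      (fun r => sg0 p (kapG P a δ q m j r 0) = false)).card : ℝ) / ((p : ℝ) - c) -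
      th (sp j) * Real.log (Real.log y)| ≤ C := by
    intro j
    by_cases h7 : clsG δ q j ≠ 3
    · obtain ⟨C, hC⟩ := hz3 j h7 z (hz3' j)
      exact ⟨C, fun _ => hC⟩
    · exact ⟨0, fun h9 => absurd h9 h7⟩
  choose C6 hC6 using h6
  set Cm : ℝ := ∑ j, (|C5 j| + |C6 j|) with hCm
  have hl : ∀ j, |C5 j| + |C6 j| ≤ Cm := fun j =>
    single_le_sum (f := fun j => |C5 j| + |C6 j|) (fun _ _ => by positivity) (mem_univ j)
  have H1 : ∀ (j : J) (y : ℕ), z < y → |∑ p ∈ PS z y, ((rts (P j) p).card : ℝ) / ((p : ℝ) - c) -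
      Real.log (Real.log y)| ≤ Cm := fun j y hy => (hC5 j y hy).trans (by
        have h7 := hl j
        have h8 := le_abs_self (C5 j)
        have h9 := abs_nonneg (C6 j)
        linarith)
  have H2 : ∀ j : J, clsG δ q j ≠ 3 → ∀ y : ℕ, z < y →
      |∑ p ∈ PS z y, ((Rz (kapG P a δ q m) (fun j p => rts (P j) p) j p).card : ℝ) /
        ((p : ℝ) - c) - th (sp j) * Real.log (Real.log y)| ≤ Cm :=
    fun j hj y hy => (hC6 j hj y hy).trans (by
        have h7 := hl j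
        have h8 := le_abs_self (C6 j)
        have h9 := abs_nonneg (C5 j)
        linarith)
  have hR0 : ∀ p : ℕ, p.Prime → z < p → ∑ j, (rts (P j) p).card ≤ ∑ j, (P j).natDegree :=
    fun p hp hzp => sum_le_sum fun j _ => rho_le (P j) hp (g.lc p hp hzp j)
  obtain ⟨C1, hC1⟩ := hz2 z (by omega) (kapG P a δ q m) (fun j p => rts (P j) p) Cm κ0 hlin'
    hR0 H1 H2
  have hCm0 : 0 ≤ Cm := (abs_nonneg _).trans (H1 (Classical.arbitrary J) (z + 1) (by omega))
  -- the exponents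
  have hmjn := fun (q' : Fin 4) (j : J) (s : Bool) => mj_nonneg q' (clsG δ q j) (evG m j) s
  have hmjp : ∀ (q' : Fin 4) (j : J) (s : Bool), 0 ≤ (mj q' (clsG δ q j) (evG m j) s) ^ ε ∧
      (mj q' (clsG δ q j) (evG m j) s) ^ ε ≤ 3 := by
    intro q' j s
    have h7 := hmjn q' j s
    refine ⟨Real.rpow_nonneg h7.1 _, ?_⟩
    have := rpow_le_one_add h7.1 h0.le h1
    linarith [h7.2]
  have hl0 : ∀ y : ℕ, z < y → 0 ≤ Real.log (Real.log y) := by
    intro y hy
    have h1 : (3 : ℝ) ≤ y := by exact_mod_cast (by omega : 3 ≤ y)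
    apply Real.log_nonneg
    rw [Real.le_log_iff_exp_le (by linarith)]
    have := Real.exp_one_lt_d9
    linarith
  have hpc : ∀ p : ℕ, z < p → (0 : ℝ) < (p : ℝ) - c := by
    intro p hp
    have : (2 * c + 3 : ℝ) ≤ p := by exact_mod_cast (by omega : 2 * c + 3 ≤ p)
    have hc0 : (0 : ℝ) ≤ c := Nat.cast_nonneg c
    linarith
  refine avGE hlow (SpA P (fun _ => true)) (LSA P a δ q m)
    (lamE (k := 1) (clsG δ q) (evG m) (kapG P a δ q m) (fun j p => rts (P j) p)) hcz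
    (fun p _ _ v h => by rw [← lamA_all, lamA_eq]) (fun p hp hz σ hσ => xc_A g hp hz hσ)
    (Bd.image ec) (fun e he => ?_) (card_image_le.trans hBd2) h0 h1 C1 (fun y hy => ?_)
    (Fintype.card J * (2 * 3 * Cm)) (fun e he y hy => ?_) (fun y hy => ?_)
  · obtain ⟨q', hq', rfl⟩ := mem_image.1 he
    exact ec_ne0 q' (hBd q' hq').1
  · have h7 := hC1 y hy
    rw [sum_image fun q1 hq1 q2 hq2 he => ec_inj q1 q2 (hBd q1 hq1).1 (hBd q2 hq2).1 he]
    refine le_trans (le_of_eq ?_) h7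
    congr 1
    congr 1
    refine sum_congr rfl fun q' hq' => prod_congr rfl fun p _ => ?_
    rw [sum_tqA (hBd q' hq').1]
  · obtain ⟨q', hq', rfl⟩ := mem_image.1 he
    have h7 := asym_sum H1 H2 (fun j s => (mj q' (clsG δ q j) (evG m j) s) ^ ε)
      (fun j hj => by
        show (mj q' (clsG δ q j) (evG m j) false) ^ ε = (mj q' (clsG δ q j) (evG m j) true) ^ ε
        unfold mj
        rw [if_pos hj, if_pos hj])
      (M := 3) (fun j => by
        show |(mj q' (clsG δ q j) (evG m j) true) ^ ε| ≤ 3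
        rw [abs_of_nonneg (hmjp _ _ _).1]
        exact (hmjp _ _ _).2)
      (fun j => by
        show |(mj q' (clsG δ q j) (evG m j) false) ^ ε -
          (mj q' (clsG δ q j) (evG m j) true) ^ ε| ≤ 3
        have h1 := hmjp q' j false
        have h2 := hmjp q' j true
        rw [abs_le]
        constructor <;> linarith [h1.1, h1.2, h2.1, h2.2]) hy
    have h8 : ∑ p ∈ PS z y, (∑ σ ∈ SpA P (fun _ => true) p, (1 / 2) *
        (tq (ec q') (LSA P a δ q m σ p)) ^ ε) / ((p : ℝ) - c) ≤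
        ∑ p ∈ PS z y, (∑ j, ∑ r ∈ rts (P j) p,
          (mj q' (clsG δ q j) (evG m j) (sg0 p (kapG P a δ q m j r 0))) ^ ε) / ((p : ℝ) - c) := by
      refine sum_le_sum fun p hp => ?_
      refine div_le_div_of_nonneg_right ?_ (hpc p (mem_PS.1 hp).1.1).le
      rw [sum_SpA]
      refine sum_le_sum fun j _ => sum_le_sum fun r _ => ?_
      rw [Fintype.sum_bool]
      have h9 : ∀ neg : Bool, (tq (ec q') (LSA P a δ q m ⟨j, r, neg⟩ p)) ^ ε ≤
          (mj q' (clsG δ q j) (evG m j) (sg0 p (kapG P a δ q m j r 0))) ^ ε := fun neg =>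
        Real.rpow_le_rpow (tq_nonneg _ _) (tq_le_mj (hBd q' hq').1 _ _ _ _ _) h0.le
      have h10 := h9 true
      have h11 := h9 false
      linarith
    have h9 := (abs_le.1 h7).2
    have h10 : (∑ j, ((mj q' (clsG δ q j) (evG m j) true) ^ ε +
        ((mj q' (clsG δ q j) (evG m j) false) ^ ε - (mj q' (clsG δ q j) (evG m j) true) ^ ε) *
          th (sp j))) * Real.log (Real.log y) ≤ Fintype.card J * Real.log (Real.log y) :=
      mul_le_mul_of_nonneg_right (hcritE q' hq') (hl0 y hy)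
    linarith
  · have h7 := asym_sum H1 H2 (fun _ _ => (1 : ℝ)) (fun j hj => rfl)
      (M := 3) (fun j => by norm_num) (fun j => by norm_num) hy
    have h8 : ∑ p ∈ PS z y, (∑ _σ ∈ SpA P (fun _ => true) p, (1 / 2 : ℝ)) / ((p : ℝ) - c) =
        ∑ p ∈ PS z y, (∑ j, ∑ r ∈ rts (P j) p, (1 : ℝ)) / ((p : ℝ) - c) := by
      refine sum_congr rfl fun p _ => ?_
      congr 1
      rw [sum_SpA]
      refine sum_congr rfl fun j _ => sum_congr rfl fun r _ => ?_
      rw [Fintype.sum_bool]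
      norm_num
    have h9 := (abs_le.1 h7).2
    simp only [sub_self, zero_mul, add_zero, sum_const, card_univ, nsmul_eq_mul, mul_one] at h9 h8
    simp only [sum_const, nsmul_eq_mul] at h9 h8 ⊢
    linarith

end

end Pool.Agent.L0h5.TE
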