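import Pool.Agent.L0h5.TE.D10
import Pool.Agent.L0h5.TH.M2
import Pool.Agent.L0h5.TQ.Q3

/-!
# The main estimates with a fractional power
-/

set_option autoImplicit false
set_option linter.unusedSectionVars false

namespace Pool.Agent.L0h5.TE

open Finset Polynomial Pool.Agent.W262.RK Pool.Agent.L0h5.TH Pool.Agent.L0h5.MR
  Pool.Agent.L0h5.TQ
open Pool.Agent.L0h5.TF hiding oo QF

section

variable {J : Type} [Fintype J] [DecidableEq J] {P : J → ℤ[X]} {a : Fin 3 → ℤ} {δ : J → Bool}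
  {q : J → Fin 3} {m : J → ℕ} {z : ℕ}

/-- **The main estimate for integer parameters** -/
theorem main1E [Nonempty J] (h : Fm P a) (g : Gz P a z)
    (hrel : Fk P a δ q m 0 - Fk P a δ q m 1 = Fk P a δ q m 2)
    (hac : ∀ j, δ j = true ∨ 1 ≤ m j) {c : ℕ} (hc : c = ∑ j, (P j).natDegree)
    (hcz : 2 * c + 2 ≤ z) {ε : ℝ} (h0 : 0 ≤ ε) (h1 : ε ≤ 1) (M : ℕ)
    (C' : ℝ) (havg : ∀ y, z < y → ∑ s ∈ (PP z y).divisors,
      GE (SpA P (fun _ => true)) (LSA P a δ q m) ε s * gw 1 c s ≤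
      C' * (Real.log y) ^ (Fintype.card J)) :
    ∃ C2 : ℝ, ∀ X : ℕ, 1 ≤ X → ∀ TX, Ad1 P (fun _ => true) z M X TX →
      ∑ t ∈ TX, (2 : ℝ) ^ (ε * (Module.finrank ℤ (EAB ((Fk P a δ q m 0).eval t)
        ((Fk P a δ q m 1).eval t)).toAffine.Point : ℝ)) ≤ C2 * X := by
  classical
  obtain ⟨C0, hC0⟩ := lower h g
  obtain ⟨C, K, y0, hC, hK, hsv⟩ := svU c (Fintype.card J) z hcz C0
  set E : ℕ := (M + 2) * (FF P).natDegree + 1 with hE
  set M0 : ℕ := ∑ i ∈ range ((FF P).natDegree + 1), ((FF P).coeff i).natAbs with hM0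
  have hE1 : (1 : ℝ) ≤ 4 ^ E := one_le_pow₀ (by norm_num)
  refine coreE (Ω := ℤ) (N := Fintype.card J) (SpA P (fun _ => true)) (LSA P a δ q m) hcz h0 h1
    ?_ (fun p hp hz σ hσ => xc_A g hp hz hσ) C' havg
    (fun X => (Icc (-((X : ℤ) ^ M + X)) ((X : ℤ) ^ M + X)).filter (fun t => (FF P).eval t ≠ 0))
    (Ad1 P (fun _ => true) z M) ?_ ?_ (fun X => (X : ℝ)) (fun X hX => by exact_mod_cast hX)
    (fa P (fun _ => true)) ?_ (stt P (fun _ => true))
    (fun X t _ p hp _ hd _ => stt_mem hp hd)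
    (fun t => Module.finrank ℤ (EAB ((Fk P a δ q m 0).eval t)
        ((Fk P a δ q m 1).eval t)).toAffine.Point) (4 ^ (z + 2)) (4 ^ E)
    (one_le_pow₀ (by norm_num)) hE1 C K (y0 + M0 + 3) hC hK ?_ ?_
  · intro p hp hz
    refine (card_SpA p).trans (Nat.mul_le_mul_left _ ?_)
    rw [hc]
    exact sum_le_sum fun j _ => rho_le (P j) hp (g.lc p hp hz j)
  · rintro X TX ⟨x, hx, hTX⟩ t ht
    obtain ⟨h1, h2, h3, -⟩ := hTX t ht
    rw [mem_filter, mem_Icc]
    have hx' : |x| ≤ (X : ℤ) ^ M := by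
      rw [Int.abs_eq_natAbs]
      exact_mod_cast hx
    have := abs_le.1 hx'
    exact ⟨⟨by omega, by omega⟩, h3⟩
  · intro X Y hXY t ht
    rw [mem_filter, mem_Icc] at ht ⊢
    have h1 : (X : ℤ) ≤ Y := by exact_mod_cast hXY
    have h2 : (X : ℤ) ^ M ≤ (Y : ℤ) ^ M := pow_le_pow_left₀ (by positivity) h1 M
    exact ⟨⟨by omega, by omega⟩, ht.2⟩
  · intro X t ht
    exact fa_ne_zero (mem_filter.1 ht).2
  · rintro X y k' hy hzy hyX hXk TX ⟨x, hx, hTX⟩ t ht
    obtain ⟨h1, h2, h3, h4⟩ := hTX t ht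
    have hX2 : 2 ≤ X := by omega
    have hb : t.natAbs ≤ X ^ (M + 2) := by
      have h5 : t.natAbs ≤ X ^ M + X := by omega
      have h6 : X ^ M + X ≤ X ^ (M + 2) := by
        have h7 : X ^ M ≤ X ^ (M + 1) := Nat.pow_le_pow_right (by omega) (by omega)
        have h8 : X ≤ X ^ (M + 1) := Nat.le_self_pow (by omega) X
        calc X ^ M + X ≤ X ^ (M + 1) + X ^ (M + 1) := add_le_add h7 h8
          _ = X ^ (M + 1) * 2 := by ring
          _ ≤ X ^ (M + 1) * X := Nat.mul_le_mul_left _ hX2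
          _ = _ := by ring
      exact h5.trans h6
    have hb2 : ((FF P).eval t).natAbs ≤ X ^ E := by
      refine (natAbs_evalZ (FF P) hb (Nat.one_le_pow _ _ (by omega))).trans ?_
      rw [← hM0, hE, ← pow_mul, mul_comm, pow_succ (n := (M + 2) * (FF P).natDegree)]
      exact Nat.mul_le_mul_left _ (by omega)
    exact rank1 (a := a) (q := q) h.ane g hrel (fun j _ => hac j) h3 hyX hb2 (by omega) hXk h4
  · rintro X y Y k' hy hzy hyX hXk TX ⟨x, hx, hTX⟩ s v u hs hv hu hsvu hcop T' hT' hT hst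
    have hyX1 : y ≤ X := le_trans (Nat.le_self_pow (by omega) y) hyX
    have hsq : SvQ (QF P) z y X c (Fintype.card J) x C := by
      intro r mm hm1 hm4 T'' hT''
      refine hsv X y (by omega) hzy hyX x r mm hm1 hm4 (QF P) (fun p => rho (FF P) p) ?_ ?_ ?_
        (hC0 y (by omega) hzy) T'' hT''
      · intro p _ n n' hnn
        unfold QF
        exact dvd_eval_congr (FF P) hnn
      · intro p _ _
        exact card_QF p
      · intro p hp
        obtain ⟨⟨hz, -⟩, hpp⟩ := mem_PS.1 hp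
        rw [hc]
        exact g.rho_le_deg hpp hz
    have h1 := cntA (a := a) g hc hcz hC hzy hyX1 hsq hs hv hu hsvu hcop T' (fun t ht => by
      obtain ⟨h2, h3, h4⟩ := hT t ht
      obtain ⟨h5, h6, -, h8⟩ := hTX t (hT' ht)
      exact ⟨h5, h6, h8, h2, h3, h4⟩) hst
    have hgs := gw_nonneg (c := c) (by omega) hs
    have hgv := gw_nonneg (c := c) (by omega) hv
    have hl : 0 < Real.log y := Real.log_pos (by exact_mod_cast (by omega : 1 < y))
    set R : ℝ := ((1 / 2) ^ s.primeFactors.card * gw 1 c s) *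
      ((c : ℝ) ^ v.primeFactors.card * (gw 1 c v / v)) *
      ((c : ℝ) ^ u.primeFactors.card / u) / (Real.log y) ^ (Fintype.card J) with hR
    have hR0 : 0 ≤ R := by
      rw [hR]
      positivity
    have h2 : (T'.card : ℝ) ≤ C * (X : ℝ) * R := by
      refine h1.trans (le_of_eq ?_)
      rw [hR]
      ring
    have h3 : (X : ℝ) ≤ (4 ^ E) ^ k' * (X : ℝ) :=
      le_mul_of_one_le_left (Nat.cast_nonneg _) (one_le_pow₀ hE1)
    refine h2.trans ((mul_le_mul_of_nonneg_right (mul_le_mul_of_nonneg_left h3 hC) hR0).trans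
      (le_of_eq ?_))
    rw [hR]
    ring

/-- **The main estimate for pairs** -/
theorem mainQE [Nonempty J] (h : Fm P a) (hne : ∀ k, Fk P a δ q m k ≠ 0)
    (hrel : Fk P a δ q m 0 - Fk P a δ q m 1 = Fk P a δ q m 2) {n : ℕ}
    (hdeg : ∀ k, (Fk P a δ q m k).natDegree = 2 * n)
    (hac : ∀ j, δ j = true ∨ 1 ≤ m j) {c : ℕ} (hc : c = ∑ j, (P j).natDegree)
    {ε : ℝ} (h0 : 0 ≤ ε) (h1 : ε ≤ 1) :
    ∃ z0 : ℕ, ∀ z, z0 ≤ z → Gz P a z → 2 * c + 2 ≤ z → ∀ C' : ℝ, (∀ y, z < y →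
      ∑ s ∈ (PP z y).divisors, GE (SpA P (fun _ => true)) (LSA P a δ q m) ε s * gw 1 c s ≤
      C' * (Real.log y) ^ (Fintype.card J)) →
    ∃ C2 : ℝ, ∀ X : ℕ, 1 ≤ X →
      ∑ t ∈ TH P X, (2 : ℝ) ^ (ε * (Module.finrank ℤ (EAB (hv (Fk P a δ q m 0) t)
        (hv (Fk P a δ q m 1) t)).toAffine.Point : ℝ)) ≤ C2 * (X : ℝ) ^ 2 := by
  classical
  obtain ⟨zs, hzs⟩ := sv2 c (Fintype.card J)
  refine ⟨zs, fun z hz g hcz C' havg => ?_⟩
  have hc1 : 1 ≤ c := by
    obtain ⟨j⟩ := ‹Nonempty J›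
    rw [hc]
    have h1 : 1 ≤ (P j).natDegree := by
      have h2 := (h.irr j).natDegree_pos
      rwa [natDegree_map_eq_of_injective (RingHom.injective_int _)] at h2
    exact h1.trans (single_le_sum (f := fun j => (P j).natDegree) (fun _ _ => Nat.zero_le _)
      (mem_univ j))
  obtain ⟨C0, hC0⟩ := lowerQ h g hc (by omega)
  obtain ⟨C, K, y0, hC, hK, hsv⟩ := hzs z hz hcz C0
  set E : ℕ := (FF P).natDegree + 1 with hE
  set M0 : ℕ := ∑ i ∈ range ((FF P).natDegree + 1), ((FF P).coeff i).natAbs with hM0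
  have hE1 : (1 : ℝ) ≤ 4 ^ E := one_le_pow₀ (by norm_num)
  have hmain := coreE (Ω := ℤ × ℤ) (N := Fintype.card J) (SpA P (fun _ => true))
    (LSA P a δ q m) hcz h0 h1
    (fun p hp hz => by
      refine (card_SpA p).trans (Nat.mul_le_mul_left _ ?_)
      rw [hc]
      exact sum_le_sum fun j _ => rho_le (P j) hp (g.lc p hp hz j))
    (fun p hp hz σ hσ => xc_A g hp hz hσ) C' havg
    (fun X => TH P X) (fun X TX => TX = TH P X) (fun X TX hTX => by rw [hTX])
    (fun X Y hXY t ht => by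
      rw [mem_TH] at ht ⊢
      have h1 : (X : ℤ) ≤ Y := by exact_mod_cast hXY
      exact ⟨⟨⟨by omega, by omega⟩, by omega, by omega⟩, ht.2⟩)
    (fun X => (X : ℝ) ^ 2) (fun X hX => one_le_pow₀ (by exact_mod_cast hX)) (hv (FF P))
    (fun X t ht => (mem_TH.1 ht).2.2) (fun t p => stt P (fun _ => true) (tp t p : ℤ) p)
    (fun X t ht p hp hz hd _ => by
      apply stt_mem hp
      rw [FF_eq_fa]
      exact (hv_iff1 _ hp (not_dvd_b g hp hz (mem_TH.1 ht).2.1 hd)).1 hd)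
    (fun t => Module.finrank ℤ (EAB (hv (Fk P a δ q m 0) t)
        (hv (Fk P a δ q m 1) t)).toAffine.Point) (4 ^ (z + 2)) (4 ^ E)
    (one_le_pow₀ (by norm_num))
    hE1 (9 * C) K (y0 + M0 + 3) (by positivity) hK ?_ ?_
  · obtain ⟨C2, hC2⟩ := hmain
    exact ⟨C2, fun X hX => hC2 X hX (TH P X) rfl⟩
  · rintro X y k' hy hzy hyX hXk TX rfl t ht
    obtain ⟨⟨h1, h2⟩, h3, h4⟩ := mem_TH.1 ht
    have hb2 : (hv (FF P) t).natAbs ≤ X ^ E := by
      refine (natAbs_hv (FF P) (B := X) (by omega) (by omega)).trans ?_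
      rw [← hM0, hE, pow_succ, mul_comm]
      exact Nat.mul_le_mul_left _ (by omega)
    exact rankQ h.ane g hne hrel hdeg hac h3 h4 hb2 (by omega) hXk
  · rintro X y Y k' hy hzy hyX hXk TX rfl s v u hs hv' hu hsvu hcop T' hT' hT hst
    have hyX1 : y ≤ X := le_trans (Nat.le_self_pow (by omega) y) hyX
    set X' : ℕ := 2 * X + 1 with hX'
    have hsq : SvQ2 (QH P) z y X' c (Fintype.card J) (-(X : ℤ) - 1) (-(X : ℤ) - 1) C := by
      intro r1 r2 mm hm1 hm4 T'' hT''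
      refine hsv X' y (by omega) hzy (hyX.trans (by omega)) _ _ r1 r2 mm hm1 hm4 (QH P)
        (fun p => nuH P p) ?_ ?_ ?_ (hC0 y (by omega) hzy) T'' hT''
      · intro p _ a a' b b' h1 h2
        unfold QH
        have h3 := hv_congr (FF P) (t := (a, b)) (t' := (a', b')) h1 h2
        constructor
        · intro h4
          have := dvd_sub h4 h3
          rwa [sub_sub_cancel] at this
        · intro h4
          have := dvd_add h3 h4
          rwa [sub_add_cancel] at this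
      · intro p _ _
        rfl
      · intro p hp
        obtain ⟨⟨hz, -⟩, hpp⟩ := mem_PS.1 hp
        exact nuH_le g hpp hz hc hc1
    have h1 := cntQ (a := a) g hc hcz hC hzy hsq hs hv' hu (hsvu.trans (by omega)) hcop T'
      (fun t ht => by
        obtain ⟨h2, h3, h4⟩ := hT t ht
        obtain ⟨⟨h5, h6⟩, h7, -⟩ := mem_TH.1 (hT' ht)
        have hXc : (X' : ℤ) = 2 * X + 1 := by
          rw [hX']
          push_cast
          ring
        exact ⟨by omega, by omega, by omega, by omega, h7, h2, h3, h4⟩) hst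
    have hgs := gw_nonneg (c := c) (by omega) hs
    have hgv := gw_nonneg (c := c) (by omega) hv'
    have hl : 0 < Real.log y := Real.log_pos (by exact_mod_cast (by omega : 1 < y))
    set R : ℝ := ((1 / 2) ^ s.primeFactors.card * gw 1 c s) *
      ((c : ℝ) ^ v.primeFactors.card * (gw 1 c v / v)) *
      ((c : ℝ) ^ u.primeFactors.card / u) / (Real.log y) ^ (Fintype.card J) with hR
    have hR0 : 0 ≤ R := by
      rw [hR]
      positivity
    have h2 : (T'.card : ℝ) ≤ C * (X' : ℝ) ^ 2 * R := by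
      refine h1.trans (le_of_eq ?_)
      rw [hR]
      ring
    have hXr : (1 : ℝ) ≤ X := by exact_mod_cast (by omega : 1 ≤ X)
    have h3 : (X' : ℝ) ^ 2 ≤ 9 * (X : ℝ) ^ 2 := by
      have h4 : (X' : ℝ) ≤ 3 * X := by
        rw [hX']
        push_cast
        linarith
      calc (X' : ℝ) ^ 2 ≤ (3 * (X : ℝ)) ^ 2 := pow_le_pow_left₀ (Nat.cast_nonneg _) h4 2
        _ = _ := by ring
    have h4 : (1 : ℝ) ≤ (4 ^ E) ^ k' := one_le_pow₀ hE1
    have h5 : C * (X' : ℝ) ^ 2 ≤ 9 * C * (4 ^ E) ^ k' * (X : ℝ) ^ 2 := by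
      calc C * (X' : ℝ) ^ 2 ≤ C * (9 * (X : ℝ) ^ 2) := mul_le_mul_of_nonneg_left h3 hC
        _ = 9 * C * 1 * (X : ℝ) ^ 2 := by ring
        _ ≤ 9 * C * (4 ^ E) ^ k' * (X : ℝ) ^ 2 := by gcongr
    refine h2.trans ((mul_le_mul_of_nonneg_right h5 hR0).trans (le_of_eq ?_))
    rw [hR]
    ring

end

end Pool.Agent.L0h5.TE
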