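import Pool.Agent.L0h5.TE.D11
import Pool.Agent.L0h5.TH.FinZ2

/-!
# The criterion with a fractional power
-/

set_option autoImplicit false
set_option linter.unusedSectionVars false

namespace Pool.Agent.L0h5.TE

open Finset Polynomial Pool.Agent.W262.RK Pool.Agent.L0h5.TH Pool.Agent.L0h5.MR
  UniqueFactorizationMonoid
open Pool.Agent.L0h5.TF hiding oo QF

open Classical in
/-- the sum over the places of the class `k`, the split ones counted twice -/
noncomputable def Aow (D : ℚ[X]) (G : Fin 3 → ℚ[X]) (k : Fin 3) : ℝ :=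
  ∑ f ∈ mfT ∅ D (G k), (if SplitQ f (kp D G k) then (2 : ℝ) else 1)

open Classical in
/-- the sum over the places of degree at least two of the class `k` -/
noncomputable def Anl (D : ℚ[X]) (G : Fin 3 → ℚ[X]) (k : Fin 3) : ℝ :=
  ∑ f ∈ mfT ∅ D (G k), (if 2 ≤ f.natDegree then (if SplitQ f (kp D G k) then (2 : ℝ) else 1)
    else 0)

open Classical in
/-- the sum over the places of the other classes -/
noncomputable def Bot (D : ℚ[X]) (G : Fin 3 → ℚ[X]) (k : Fin 3) : ℝ :=
  ∑ l ∈ univ.erase k, ∑ f ∈ mfT ∅ D (G l),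
    (if SplitQ f (kp D G l) ∨ Odd ((normalizedFactors (G l)).count f) then (1 : ℝ) else 1 / 2)

/-- the criterion -/
def CritE (ε : ℝ) (D : ℚ[X]) (G : Fin 3 → ℚ[X]) : Prop :=
  ∀ k : Fin 3, (2 : ℝ) ^ ε * Aow D G k ≤ 2 * Bot D G k ∧
    (Aow D G k ≤ Bot D G k ∨ Anl D G k < Bot D G k)

section

variable {D : ℚ[X]} {G : Fin 3 → ℚ[X]}

open Classical in
/-- the sum over the factors -/
lemma sum_bridge (hG : ∀ k, G k ≠ 0)
    (hcop : ∀ k l, k ≠ l → IsCoprime (G k) (G l)) {S : Finset ℚ[X]}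
    (hS : ∀ f ∈ S, Irreducible f ∧ normalize f = f)
    (hGS : ∀ k f, Irreducible f → normalize f = f → f ∣ G k → f ∈ S)
    (hcov : ∀ f ∈ S, f ∣ D ∨ ∃ k, f ∣ G k) (sp lin : ℚ[X] → Bool)
    (Ψ : Fin 4 → Bool → Bool → Bool → ℝ) (hΨ : ∀ a b c, Ψ 3 a b c = 0) :
    ∑ j : {f // f ∈ S}, Ψ (clsG (fun f : {f // f ∈ S} => dl D f.1) (fun f => ql G f.1) j)
        (evG (fun f : {f // f ∈ S} => ml G f.1) j) (sp j.1) (lin j.1) =
      ∑ l : Fin 3, ∑ f ∈ mfT ∅ D (G l), Ψ l.castSucc (decide (Even (ml G f))) (sp f) (lin f) := by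
  set Φ : ℚ[X] → ℝ := fun f => Ψ (if dl D f = true then 3 else (ql G f).castSucc)
    (decide (Even (ml G f))) (sp f) (lin f) with hΦ
  have h2 : ∑ j : {f // f ∈ S}, Ψ (clsG (fun f : {f // f ∈ S} => dl D f.1)
      (fun f => ql G f.1) j) (evG (fun f : {f // f ∈ S} => ml G f.1) j) (sp j.1) (lin j.1) =
      ∑ f ∈ S, Φ f := by
    rw [← sum_coe_sort S]
    rfl
  have h3 : ∑ f ∈ S, Φ f = ∑ f ∈ S.filter (fun f => ¬ f ∣ D), Φ f := by
    symm
    apply sum_subset (filter_subset _ _)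
    intro f hf hf'
    rw [mem_filter] at hf'
    have h4 : f ∣ D := by
      by_contra hcon
      exact hf' ⟨hf, hcon⟩
    have h5 : dl D f = true := by
      unfold dl
      exact decide_eq_true h4
    rw [hΦ]
    simp only [h5, if_true]
    exact hΨ _ _ _
  have h4 : ∀ l, (S.filter (fun f => ¬ f ∣ D)).filter (fun f => ql G f = l) =
      mfT ∅ D (G l) := by
    intro l
    ext f
    unfold mfT
    rw [mem_filter, mem_filter, mem_filter, Multiset.mem_toFinset]
    constructor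
    · rintro ⟨⟨h5, h6⟩, h8⟩
      refine ⟨?_, h6, notMem_empty _⟩
      obtain ⟨h9, h10⟩ := hS f h5
      obtain ⟨l', hl'⟩ := (hcov f h5).resolve_left h6
      have h11 := ql_of_dvd hcop h9 hl'
      have h12 : l' = l := h11.symm.trans h8
      subst h12
      obtain ⟨g, hg, hfg⟩ := exists_mem_normalizedFactors_of_dvd (hG l') h9 hl'
      have h13 : f = g := by
        rw [← h10, ← normalize_normalized_factor g hg]
        exact normalize_eq_normalize_iff_associated.2 hfg
      rwa [h13]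
    · rintro ⟨h5, h6, -⟩
      have h8 := irreducible_of_normalized_factor f h5
      have h9 := normalize_normalized_factor f h5
      have h10 := dvd_of_mem_normalizedFactors h5
      exact ⟨⟨hGS l f h8 h9 h10, h6⟩, ql_of_dvd hcop h8 h10⟩
  have hdl : ∀ l, ∀ f ∈ mfT ∅ D (G l), dl D f = false ∧ ql G f = l := by
    intro l f hf
    rw [← h4 l, mem_filter, mem_filter] at hf
    refine ⟨?_, hf.2⟩
    unfold dl
    exact decide_eq_false hf.1.2
  rw [h2, h3, ← sum_fiberwise (S.filter (fun f => ¬ f ∣ D)) (ql G) Φ]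
  refine sum_congr rfl fun l _ => ?_
  rw [h4 l]
  refine sum_congr rfl fun f hf => ?_
  obtain ⟨e1, e2⟩ := hdl l f hf
  rw [hΦ]
  simp only [e1, e2, Bool.false_eq_true, if_false]

open Classical in
/-- the splitting bit -/
noncomputable def spb (D : ℚ[X]) (G : Fin 3 → ℚ[X]) (f : ℚ[X]) : Bool :=
  decide (SplitQ f (kp D G (ql G f)))

/-- the linear bit -/
def lnb (f : ℚ[X]) : Bool := decide (f.natDegree < 2)

lemma cs_ne' (l : Fin 3) : l.castSucc ≠ (3 : Fin 4) := by
  revert l
  decide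

open Classical in
lemma ql_mfT (hcop : ∀ k l, k ≠ l → IsCoprime (G k) (G l)) {l : Fin 3} {f : ℚ[X]}
    (hf : f ∈ mfT ∅ D (G l)) : ql G f = l := by
  unfold mfT at hf
  rw [mem_filter, Multiset.mem_toFinset] at hf
  exact ql_of_dvd hcop (irreducible_of_normalized_factor f hf.1)
    (dvd_of_mem_normalizedFactors hf.1)

open Classical in
lemma spb_iff (hcop : ∀ k l, k ≠ l → IsCoprime (G k) (G l)) {l : Fin 3} {f : ℚ[X]}
    (hf : f ∈ mfT ∅ D (G l)) : spb D G f = true ↔ SplitQ f (kp D G l) := by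
  unfold spb
  rw [decide_eq_true_iff, ql_mfT hcop hf]

open Classical in
lemma sum_three (hcop : ∀ k l, k ≠ l → IsCoprime (G k) (G l)) (k : Fin 3)
    (Ψ : Fin 4 → Bool → Bool → Bool → ℝ) (x : ℝ) (hx : ∀ ev sp lin,
      Ψ k.castSucc ev sp lin = if sp = true then 2 * x else x) (y : ℝ)
    (hy : ∀ l : Fin 3, l ≠ k → ∀ ev sp lin, Ψ l.castSucc ev sp lin =
      y * (if sp = true ∨ ¬ ev = true then 1 else 1 / 2)) :
    ∑ l : Fin 3, ∑ f ∈ mfT ∅ D (G l), Ψ l.castSucc (decide (Even (ml G f))) (spb D G f) (lnb f) =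
      x * Aow D G k + y * Bot D G k := by
  rw [← add_sum_erase univ _ (mem_univ k)]
  congr 1
  · unfold Aow
    rw [mul_sum]
    refine sum_congr rfl fun f hf => ?_
    rw [hx]
    by_cases h : SplitQ f (kp D G k)
    · rw [if_pos h, if_pos ((spb_iff hcop hf).2 h)]
      ring
    · rw [if_neg h, if_neg (fun h' => h ((spb_iff hcop hf).1 h'))]
      ring
  · unfold Bot
    rw [mul_sum]
    refine sum_congr rfl fun l hl => ?_
    rw [mul_sum]
    refine sum_congr rfl fun f hf => ?_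
    rw [hy l (mem_erase.1 hl).1]
    congr 1
    have h1 : (spb D G f = true ∨ ¬ decide (Even (ml G f)) = true) ↔
        (SplitQ f (kp D G l) ∨ Odd ((normalizedFactors (G l)).count f)) := by
      rw [spb_iff hcop hf, decide_eq_true_iff, Nat.not_even_iff_odd]
      unfold ml
      rw [ql_mfT hcop hf]
    by_cases h : SplitQ f (kp D G l) ∨ Odd ((normalizedFactors (G l)).count f)
    · rw [if_pos h, if_pos (h1.2 h)]
    · rw [if_neg h, if_neg (fun h' => h (h1.1 h'))]

lemma kc_sum (hcop : ∀ k l, k ≠ l → IsCoprime (G k) (G l)) (k : Fin 3) :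
    ∑ l : Fin 3, ∑ f ∈ mfT ∅ D (G l), (kc k.castSucc l.castSucc (decide (Even (ml G f)))
      (spb D G f) - 1) = (1 / 2) * Aow D G k + (-(1 / 2)) * Bot D G k := by
  refine sum_three hcop k (fun c ev sp _ => kc k.castSucc c ev sp - 1) (1 / 2) ?_ _ ?_
  · intro ev sp lin
    unfold kc th
    rw [if_neg (cs_ne' k), if_pos rfl]
    split_ifs <;> norm_num
  · intro l hl ev sp lin
    unfold kc th
    rw [if_neg (cs_ne' l), if_neg (fun h => hl (Fin.castSucc_injective 3 h))]
    cases ev <;> cases sp <;> norm_num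

open Classical in
lemma sv_sum (hcop : ∀ k l, k ≠ l → IsCoprime (G k) (G l)) (k : Fin 3) :
    ∑ l : Fin 3, ∑ f ∈ mfT ∅ D (G l), sv k.castSucc l.castSucc (spb D G f) (lnb f) =
      (1 / 2) * (Aow D G k - Anl D G k) := by
  rw [← add_sum_erase univ _ (mem_univ k)]
  have h1 : ∑ l ∈ univ.erase k, ∑ f ∈ mfT ∅ D (G l),
      sv k.castSucc l.castSucc (spb D G f) (lnb f) = 0 := by
    refine sum_eq_zero fun l hl => sum_eq_zero fun f _ => ?_
    unfold sv
    rw [if_neg]
    rintro ⟨h, -⟩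
    exact (mem_erase.1 hl).1 (Fin.castSucc_injective 3 h)
  rw [h1, add_zero]
  unfold Aow Anl
  rw [← sum_sub_distrib, mul_sum]
  refine sum_congr rfl fun f hf => ?_
  unfold sv th lnb
  by_cases h : SplitQ f (kp D G k)
  · rw [if_pos h, if_pos ((spb_iff hcop hf).2 h)]
    by_cases h2 : 2 ≤ f.natDegree
    · rw [if_pos h2, if_neg (by
        rintro ⟨-, h3⟩
        rw [decide_eq_true_iff] at h3
        omega)]
      norm_num
    · rw [if_neg h2, if_pos ⟨rfl, decide_eq_true (by omega)⟩]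
      norm_num
  · rw [if_neg h, if_neg (fun h' => h ((spb_iff hcop hf).1 h'))]
    by_cases h2 : 2 ≤ f.natDegree
    · rw [if_pos h2, if_neg (by
        rintro ⟨-, h3⟩
        rw [decide_eq_true_iff] at h3
        omega)]
      norm_num
    · rw [if_neg h2, if_pos ⟨rfl, decide_eq_true (by omega)⟩]
      norm_num

lemma ke_sum (hcop : ∀ k l, k ≠ l → IsCoprime (G k) (G l)) (ε : ℝ) (k : Fin 3) :
    ∑ l : Fin 3, ∑ f ∈ mfT ∅ D (G l), (ke ε k.castSucc l.castSucc (decide (Even (ml G f)))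
      (spb D G f) - 1) = (((2 : ℝ) ^ ε - 1) / 2) * Aow D G k +
        (-(1 - (1 / 2 : ℝ) ^ ε)) * Bot D G k := by
  refine sum_three hcop k (fun c ev sp _ => ke ε k.castSucc c ev sp - 1)
    (((2 : ℝ) ^ ε - 1) / 2) ?_ _ ?_
  · intro ev sp lin
    unfold ke mj th
    rw [if_neg (cs_ne' k), if_pos rfl, if_neg (cs_ne' k), if_pos rfl]
    simp only [if_true, Bool.false_eq_true, if_false, Real.one_rpow]
    split_ifs <;> ring
  · intro l hl ev sp lin
    unfold ke mj th
    have hl' : l.castSucc ≠ k.castSucc := fun h => hl (Fin.castSucc_injective 3 h)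
    rw [if_neg (cs_ne' l), if_neg hl', if_neg (cs_ne' l), if_neg hl']
    cases ev <;> cases sp <;> simp [Real.one_rpow]

/-- the two classes with main terms -/
lemma Aow_le_Bot_sum (h : ∀ k : Fin 3, Bot D G k < Aow D G k) : False := by
  classical
  have h0 := h 0
  have h1 := h 1
  have h2 := h 2
  have e0 : (univ : Finset (Fin 3)).erase 0 = {1, 2} := by decide
  have e1 : (univ : Finset (Fin 3)).erase 1 = {0, 2} := by decide
  have e2 : (univ : Finset (Fin 3)).erase 2 = {0, 1} := by decide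
  unfold Bot at h0 h1 h2
  rw [e0, sum_pair (by decide)] at h0
  rw [e1, sum_pair (by decide)] at h1
  rw [e2, sum_pair (by decide)] at h2
  have h3 : ∀ k : Fin 3, Aow D G k ≤ 2 * ∑ f ∈ mfT ∅ D (G k),
      (if SplitQ f (kp D G k) ∨ Odd ((normalizedFactors (G k)).count f) then (1 : ℝ)
        else 1 / 2) := by
    intro k
    unfold Aow
    rw [mul_sum]
    refine sum_le_sum fun f _ => ?_
    by_cases h : SplitQ f (kp D G k)
    · rw [if_pos h, if_pos (Or.inl h)]
      norm_num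
    · rw [if_neg h]
      split_ifs <;> norm_num
  have g0 := h3 0
  have g1 := h3 1
  have g2 := h3 2
  linarith

end

end Pool.Agent.L0h5.TE
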