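import Pool.Agent.L0h5.TE.D11
import Pool.Agent.W307.RT.Box
import Pool.Agent.L0h5.T8.Stm

/-!
# The box estimate and the final step for families by height
-/

set_option autoImplicit false
set_option linter.unusedSectionVars false

namespace Pool.Agent.L0h5.TE

open Finset Polynomial Pool.Agent.W262.RK Pool.Agent.L0h5.TH Pool.Agent.L0h5.MR
  Pool.Agent.L0h5.TQ Pool.Agent.W307.RT
open Pool.Agent.L0h5.TF hiding oo QF

/-- the exponent of the power of the values, in terms of `x = 2 ^ ε` -/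
noncomputable def kx (x : ℝ) (q c : Fin 4) (ev sp : Bool) : ℝ :=
  if c = 3 then 1 else if c = q then 1 + (x - 1) * th sp else
    (if ev = true then 1 - (1 - 1 / x) * th sp else 1 / x)

lemma ke_kx {x ε : ℝ} (hε : (2 : ℝ) ^ ε = x) (q c : Fin 4) (ev sp : Bool) :
    ke ε q c ev sp = kx x q c ev sp := by
  have h2 : (1 / 2 : ℝ) ^ ε = 1 / x := by
    rw [one_div, Real.inv_rpow (by norm_num), hε, one_div]
  unfold ke kx mj
  by_cases h3 : c = 3
  · simp only [h3, if_true, Real.one_rpow]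
    ring
  · by_cases hq : c = q
    · subst hq
      simp only [h3, if_true, if_false, Bool.false_eq_true, Real.one_rpow, hε]
    · simp only [h3, hq, if_false]
      cases ev
      · simp only [Bool.false_and, Bool.false_eq_true, if_false, h2]
        ring
      · simp only [Bool.true_and, Bool.false_eq_true, if_true, if_false, h2, Real.one_rpow]
        ring

section

variable {J : Type} [Fintype J] [DecidableEq J] {P : J → ℤ[X]} {a : Fin 3 → ℤ}
  {q : J → Fin 3} {m : J → ℕ}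

/-- the box estimate for the forms `M`, `N` -/
theorem boxMN [Nonempty J] (hlow : LOWNL) (h : Fm P a)
    (hrel : Fk P a (fun _ => false) q m 0 - Fk P a (fun _ => false) q m 1 =
      Fk P a (fun _ => false) q m 2) {n : ℕ}
    (hdeg : ∀ k, (Fk P a (fun _ => false) q m k).natDegree = 2 * n) (hm : ∀ j, 1 ≤ m j)
    {x : ℝ} (hx : 1 < x) (hx2 : x ≤ 2) (sp lin : J → Bool) (Bd : Finset (Fin 4))
    (hBd : ∀ q' ∈ Bd, q' ≠ 3 ∧ ∃ j, (q j).castSucc = q') (hBd2 : Bd.card ≤ 2)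
    (hcrit : ∀ q' : Fin 4, q' ≠ 3 → q' ∉ Bd → ∑ j, kc q' (q j).castSucc (evG m j) (sp j) ≤
      Fintype.card J)
    (hcritB : ∀ q' ∈ Bd, ∑ j, kc q' (q j).castSucc (evG m j) (sp j) -
      ∑ j, sv q' (q j).castSucc (sp j) (lin j) < Fintype.card J)
    (hcritE : ∀ q' ∈ Bd, ∑ j, kx x q' (q j).castSucc (evG m j) (sp j) ≤ Fintype.card J)
    (hsp : ∀ j, (sp j = true ↔ IsSquare (AdjoinRoot.mk ((P j).map (Int.castRingHom ℚ))
      ((kapQ P a (fun _ => false) q m j 0).map (Int.castRingHom ℚ)))))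
    (hlin : ∀ j, lin j = true → (P j).natDegree = 1) (M N : ℤ → ℤ → ℤ)
    (hM : ∀ u v : ℤ, hv (Fk P a (fun _ => false) q m 0) (u, v - 2 * u) = -(M u v))
    (hN : ∀ u v : ℤ, hv (Fk P a (fun _ => false) q m 1) (u, v - 2 * u) = -(N u v)) :
    ∃ C : ℝ, 0 ≤ C ∧ ∀ T : ℕ, 1 ≤ T → ∑ t ∈ (Box T).filter (fun t : ℤ × ℤ =>
      IsCoprime t.1 t.2 ∧ M t.1 t.2 ≠ 0 ∧ N t.1 t.2 ≠ 0 ∧ M t.1 t.2 ≠ N t.1 t.2),
      x ^ Module.finrank ℤ (EAB (-(M t.1 t.2)) (-(N t.1 t.2))).toAffine.Point ≤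
        C * (T : ℝ) ^ 2 := by
  classical
  set ε : ℝ := Real.logb 2 x with hεd
  have hε : (2 : ℝ) ^ ε = x := Real.rpow_logb (by norm_num) (by norm_num) (by linarith)
  have h0 : 0 < ε := Real.logb_pos (by norm_num) hx
  have h1 : ε ≤ 1 := by
    rw [hεd, Real.logb_le_iff_le_rpow (by norm_num) (by linarith), Real.rpow_one]
    exact hx2
  have hcls : ∀ j, clsG (fun _ : J => false) q j = (q j).castSucc := by
    intro j
    unfold clsG
    simp
  obtain ⟨z1, hz1⟩ := h.good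
  set c : ℕ := ∑ j, (P j).natDegree with hc
  obtain ⟨z2, hz2⟩ := avE hlow h (δ := fun _ => false) (q := q) (m := m) c h0 h1 sp lin Bd
    (fun q' hq' => by
      obtain ⟨h2, j, hj⟩ := hBd q' hq'
      exact ⟨h2, j, by rw [hcls j, hj]⟩) hBd2
    (by simp only [hcls]; exact hcrit) (by simp only [hcls]; exact hcritB)
    (by
      intro q' hq'
      simp only [hcls, ke_kx hε]
      exact hcritE q' hq') (fun j _ => hsp j) hlin
  have hF0 : ∀ k, Fk P a (fun _ => false) q m k ≠ 0 := by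
    intro k h2
    unfold Fk at h2
    rcases mul_eq_zero.1 h2 with h3 | h3
    · exact h.ane k (by simpa using h3)
    · rw [prod_eq_zero_iff] at h3
      obtain ⟨l, -, hl⟩ := h3
      have h5 : P l = 0 := by
        by_contra hcon
        exact pow_ne_zero _ hcon hl
      have h6 := (h.irr l).ne_zero
      rw [h5, Polynomial.map_zero] at h6
      exact h6 rfl
  obtain ⟨z3, hz3⟩ := mainQE (q := q) (m := m) (δ := fun _ => false) h hF0 hrel hdeg
    (fun j => Or.inr (hm j)) hc h0.le h1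
  set z : ℕ := z1 + z2 + z3 + 2 * c + 2 with hz
  obtain ⟨C', hC'⟩ := hz2 z (by omega)
  obtain ⟨C2, hC2⟩ := hz3 z (by omega) (hz1 z (by omega)) (by omega) C' hC'
  refine ⟨|C2| * 9, by positivity, fun T hT => ?_⟩
  have h3 := hC2 (3 * T) (by omega)
  set g : ℤ × ℤ → ℤ × ℤ := fun t => (t.1, t.2 - 2 * t.1) with hg
  have hginj : Function.Injective g := by
    intro s t hst
    simp only [hg, Prod.mk.injEq] at hst
    refine Prod.ext hst.1 ?_
    have h4 := hst.2
    rw [hst.1] at h4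
    linarith
  set S := (Box T).filter (fun t : ℤ × ℤ =>
      IsCoprime t.1 t.2 ∧ M t.1 t.2 ≠ 0 ∧ N t.1 t.2 ≠ 0 ∧ M t.1 t.2 ≠ N t.1 t.2) with hS
  have h4 : ∑ t ∈ S, x ^ Module.finrank ℤ (EAB (-(M t.1 t.2)) (-(N t.1 t.2))).toAffine.Point =
      ∑ t ∈ S.image g, (2 : ℝ) ^ (ε * (Module.finrank ℤ
        (EAB (hv (Fk P a (fun _ => false) q m 0) t)
        (hv (Fk P a (fun _ => false) q m 1) t)).toAffine.Point : ℝ)) := by
    rw [sum_image fun s _ t _ hst => hginj hst]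
    refine sum_congr rfl fun t _ => ?_
    rw [hg]
    simp only
    rw [hM, hN, Real.rpow_mul (by norm_num), hε, Real.rpow_natCast]
  rw [h4]
  have h5 : S.image g ⊆ TH P (3 * T) := by
    intro s hs
    obtain ⟨t, ht, rfl⟩ := mem_image.1 hs
    rw [hS, mem_filter, mem_Box] at ht
    obtain ⟨⟨h6, h7⟩, h8, h9, h10, h11⟩ := ht
    rw [mem_TH]
    simp only [hg]
    push_cast
    refine ⟨⟨⟨by omega, by omega⟩, by omega, by omega⟩, ?_, ?_⟩
    · have h12 := IsCoprime.add_mul_left_right h8 (-2)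
      have e : t.2 + t.1 * -2 = t.2 - 2 * t.1 := by ring
      rwa [e] at h12
    · rw [hv_FF, prod_ne_zero_iff]
      intro j _ hj
      have h12 : hv (Fk P a (fun _ => false) q m (q j)) (t.1, t.2 - 2 * t.1) = 0 := by
        rw [hv_Fk]
        apply mul_eq_zero_of_right
        apply prod_eq_zero (mem_univ j)
        rw [hj]
        apply zero_pow
        unfold mu
        have := hm j
        simp
        omega
      have h13 : ∀ k : Fin 3, k = 0 ∨ k = 1 ∨ k = 2 := by decide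
      rcases h13 (q j) with h14 | h14 | h14
      · rw [h14, hM] at h12
        exact h9 (by linarith)
      · rw [h14, hN] at h12
        exact h10 (by linarith)
      · have h15 := hv_sub hrel (hdeg 0) (hdeg 1) (hdeg 2) (t.1, t.2 - 2 * t.1)
        rw [h14] at h12
        rw [hM, hN, h12] at h15
        exact h11 (by linarith)
  refine (sum_le_sum_of_subset_of_nonneg h5 fun t _ _ => by positivity).trans (h3.trans ?_)
  push_cast
  have h6 := le_abs_self C2
  have h7 : (0 : ℝ) ≤ (3 * (T : ℝ)) ^ 2 := by positivity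
  refine (mul_le_mul_of_nonneg_right h6 h7).trans (le_of_eq ?_)
  ring

end

/-- from the box to the curves, abstract -/
theorem final_gen (S : ℕ → Finset (ℤ × ℤ)) (r : ℤ × ℤ → ℝ) {k d : ℕ} (hk : 1 ≤ k) (C0' : ℕ) (C : ℝ)
    (hC : 0 ≤ C) (hsum : ∀ H T : ℕ, 1 ≤ T → C0' * H < (T + 1) ^ k →
      ∑ x ∈ S H, r x ≤ C * (T : ℝ) ^ d)
    (hL : ∃ (c : ℝ) (C1 T0 : ℕ), 0 < c ∧ ∀ T H : ℕ, T0 ≤ T → C1 * T ^ k ≤ H →
      c * (T : ℝ) ^ d ≤ ((S H).card : ℝ)) :
    ∃ C : ℝ, ∀ H : ℕ, ∑ x ∈ S H, r x ≤ C * (S H).card := by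
  classical
  obtain ⟨c, C1, T0, hc, hlow⟩ := hL
  set C0 := C0' + 1 with hC0
  set D := C0 * C1 + 1 with hD
  have hD1 : 1 ≤ D := by omega
  have hsum' : ∀ H T : ℕ, 1 ≤ T → C0 * H < (T + 1) ^ k →
      ∑ x ∈ S H, r x ≤ C * (T : ℝ) ^ d := by
    intro H T hT h1
    refine hsum H T hT (lt_of_le_of_lt ?_ h1)
    exact Nat.mul_le_mul_right _ (by omega)
  refine ⟨C * ((D * (T0 + 1) : ℕ) : ℝ) ^ d + C * (2 * (D : ℝ)) ^ d / c, fun H => ?_⟩
  set K := (S H).card with hK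
  by_cases hK0 : K = 0
  · have : S H = ∅ := card_eq_zero.1 hK0
    rw [this, sum_empty, hK0]
    simp
  have hK1 : (1 : ℝ) ≤ K := by exact_mod_cast Nat.one_le_iff_ne_zero.2 hK0
  have hq0 : 0 ≤ C * (2 * (D : ℝ)) ^ d / c := by positivity
  have hr0 : 0 ≤ C * ((D * (T0 + 1) : ℕ) : ℝ) ^ d := by positivity
  set T := Nat.findGreatest (fun t => t ^ k ≤ C0 * H) (C0 * H) with hT
  have hle : ∀ x : ℕ, x ^ k ≤ C0 * H → x ≤ T := by
    intro x hx
    apply Nat.le_findGreatest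
    · exact (Nat.le_self_pow (by omega) x).trans hx
    · exact hx
  have hTk : T ^ k ≤ C0 * H := by
    have : (fun t => t ^ k ≤ C0 * H) T :=
      Nat.findGreatest_spec (P := fun t => t ^ k ≤ C0 * H) (Nat.zero_le _)
        (by rw [zero_pow (by omega)]; exact Nat.zero_le _)
    exact this
  have hxT : C0 * H < (T + 1) ^ k := by
    by_contra hcon
    push Not at hcon
    have := hle _ hcon
    omega
  rcases Nat.lt_or_ge T (D * (T0 + 1)) with hlt | hge
  · have h1 := hsum' H (D * (T0 + 1)) (Nat.mul_pos hD1 (Nat.succ_pos _))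
      (hxT.trans_le (Nat.pow_le_pow_left (by omega) k))
    calc _ ≤ C * ((D * (T0 + 1) : ℕ) : ℝ) ^ d := h1
      _ ≤ C * ((D * (T0 + 1) : ℕ) : ℝ) ^ d * K := le_mul_of_one_le_right hr0 hK1
      _ ≤ _ := by
        apply mul_le_mul_of_nonneg_right _ (by linarith)
        linarith
  · have hT1 : 1 ≤ T := (Nat.mul_pos hD1 (Nat.succ_pos _)).trans_le hge
    have h1 := hsum' H T hT1 hxT
    set T' := T / D with hT'
    have hT'0 : T0 + 1 ≤ T' := by
      rw [hT', Nat.le_div_iff_mul_le hD1, mul_comm]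
      exact hge
    have h2 : T' * D ≤ T := Nat.div_mul_le_self T D
    have h3 : C1 * T' ^ k ≤ H := by
      have a1 : (T' * D) ^ k ≤ C0 * H := (Nat.pow_le_pow_left h2 k).trans hTk
      rw [mul_pow] at a1
      have a2 : D ≤ D ^ k := Nat.le_self_pow (by omega) D
      have a3 : T' ^ k * (C0 * C1) ≤ C0 * H :=
        (Nat.mul_le_mul_left _ (by omega : C0 * C1 ≤ D ^ k)).trans a1
      have a4 : C0 * (C1 * T' ^ k) ≤ C0 * H := by
        calc C0 * (C1 * T' ^ k) = T' ^ k * (C0 * C1) := by ring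
          _ ≤ _ := a3
      exact Nat.le_of_mul_le_mul_left a4 (by omega)
    have h4 := hlow T' H (by omega) h3
    have h5 : T ≤ 2 * D * T' := by
      have a1 : T < D * (T' + 1) := by
        rw [mul_comm]
        exact Nat.lt_mul_of_div_lt (by rw [← hT']; omega) hD1
      have a2 : D * (T' + 1) ≤ 2 * D * T' := by nlinarith
      omega
    have h6 : (T : ℝ) ≤ 2 * D * T' := by exact_mod_cast h5
    calc _ ≤ C * (T : ℝ) ^ d := h1
      _ ≤ C * (2 * D * T') ^ d := by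
        apply mul_le_mul_of_nonneg_left _ hC
        exact pow_le_pow_left₀ (Nat.cast_nonneg T) h6 d
      _ = C * (2 * (D : ℝ)) ^ d / c * (c * (T' : ℝ) ^ d) := by
        rw [mul_pow (2 * (D : ℝ))]
        field_simp
      _ ≤ C * (2 * (D : ℝ)) ^ d / c * K := mul_le_mul_of_nonneg_left h4 hq0
      _ ≤ _ := by
        apply mul_le_mul_of_nonneg_right _ (by linarith)
        linarith

open Pool.Agent.L0h5.T8 in
/-- from the box to the curves with a point of order `m` -/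
theorem final_c {m k : ℕ} {M N : ℤ → ℤ → ℤ} (hk : 1 ≤ k) (hP : PARc m k M N) (hL : LOWc m k)
    {x : ℝ} (hx : 1 ≤ x)
    (hbox : ∃ C : ℝ, 0 ≤ C ∧ ∀ T : ℕ, 1 ≤ T → ∑ t ∈ (Box T).filter (fun t : ℤ × ℤ =>
      IsCoprime t.1 t.2 ∧ M t.1 t.2 ≠ 0 ∧ N t.1 t.2 ≠ 0 ∧ M t.1 t.2 ≠ N t.1 t.2),
      x ^ Module.finrank ℤ (EAB (-(M t.1 t.2)) (-(N t.1 t.2))).toAffine.Point ≤
        C * (T : ℝ) ^ 2) :
    ∃ C : ℝ, ∀ H : ℕ, ∑ c ∈ Cc m H,
      x ^ Module.finrank ℤ (Sh c.1 c.2).toAffine.Point ≤ C * (Cc m H).card := by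
  classical
  obtain ⟨C0', F, hF⟩ := hP
  obtain ⟨C, hC, hb⟩ := hbox
  refine final_gen (Cc m) (fun c => x ^ Module.finrank ℤ (Sh c.1 c.2).toAffine.Point) hk C0' C hC
    ?_ hL
  intro H T hT hTk
  refine le_trans ?_ (hb T hT)
  obtain ⟨hinj, h2⟩ := hF H
  have h3 : ∑ x' ∈ Cc m H, x ^ Module.finrank ℤ (Sh x'.1 x'.2).toAffine.Point ≤
      ∑ t ∈ (Cc m H).image F, x ^ Module.finrank ℤ
        (EAB (-(M t.1 t.2)) (-(N t.1 t.2))).toAffine.Point := by
    rw [sum_image hinj]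
    apply sum_le_sum
    intro c hc
    obtain ⟨_, _, _, _, _, _, h4⟩ := h2 c hc
    exact pow_le_pow_right₀ hx h4
  refine h3.trans ?_
  apply sum_le_sum_of_subset_of_nonneg
  · intro t ht
    obtain ⟨c, hc, rfl⟩ := mem_image.1 ht
    obtain ⟨a1, a2, a3, a4, a5, a6, _⟩ := h2 c hc
    rw [mem_filter, mem_Box]
    refine ⟨⟨?_, ?_⟩, a1, a2, a3, a4⟩
    · have := (Nat.pow_lt_pow_iff_left (by omega : k ≠ 0)).1 (lt_of_le_of_lt a5 hTk)
      omega
    · have := (Nat.pow_lt_pow_iff_left (by omega : k ≠ 0)).1 (lt_of_le_of_lt a6 hTk)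
      omega
  · intro t _ _
    have : (0 : ℝ) ≤ x := by linarith
    positivity

end Pool.Agent.L0h5.TE
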