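import Pool.Agent.L0h5.TE.D14

/-!
# Tools for explicit families
-/

set_option autoImplicit false
set_option linter.unusedSectionVars false

namespace Pool.Agent.L0h5.TE

open Finset Polynomial Pool.Agent.W262.RK Pool.Agent.L0h5.TH Pool.Agent.L0h5.MR
  Pool.Agent.L0h5.TQ
open Pool.Agent.L0h5.TF hiding oo QF

/-- a linear polynomial -/
noncomputable def lin (α β : ℤ) : ℤ[X] := C α * X + C β

/-- a quadratic polynomial -/
noncomputable def quad (α β γ : ℤ) : ℤ[X] := C α * X ^ 2 + C β * X + C γ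

lemma natDegree_lin {α β : ℤ} (h : α ≠ 0) : (lin α β).natDegree = 1 := natDegree_linear h

lemma natDegree_quad {α β γ : ℤ} (h : α ≠ 0) : (quad α β γ).natDegree = 2 := natDegree_quadratic h

lemma hv_lin {α β : ℤ} (h : α ≠ 0) (u v : ℤ) : hv (lin α β) (u, v) = α * u + β * v := by
  rw [hv_sum, natDegree_lin h]
  unfold lin
  simp only [Finset.sum_range_succ, Finset.sum_range_zero, coeff_add, coeff_C_mul, coeff_X,
    coeff_C]
  norm_num
  ring

lemma hv_quad {α β γ : ℤ} (h : α ≠ 0) (u v : ℤ) :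
    hv (quad α β γ) (u, v) = α * u ^ 2 + β * u * v + γ * v ^ 2 := by
  rw [hv_sum, natDegree_quad h]
  unfold quad
  simp only [Finset.sum_range_succ, Finset.sum_range_zero, coeff_add, coeff_C_mul, coeff_X,
    coeff_X_pow, coeff_C]
  norm_num
  ring

lemma map_lin (α β : ℤ) : (lin α β).map (Int.castRingHom ℚ) = C (α : ℚ) * X + C (β : ℚ) := by
  unfold lin
  simp

lemma map_quad (α β γ : ℤ) : (quad α β γ).map (Int.castRingHom ℚ) =
    C (α : ℚ) * X ^ 2 + C (β : ℚ) * X + C (γ : ℚ) := by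
  unfold quad
  simp

lemma irr_lin {α β : ℤ} (h : α ≠ 0) :
    Irreducible ((lin α β).map (Int.castRingHom ℚ)) := by
  rw [map_lin]
  apply irreducible_of_degree_eq_one
  exact degree_linear (by exact_mod_cast h)

lemma irr_quad {α β γ : ℤ} (h : α ≠ 0) (hd : ¬ IsSquare ((β ^ 2 - 4 * α * γ : ℤ) : ℚ)) :
    Irreducible ((quad α β γ).map (Int.castRingHom ℚ)) := by
  rw [map_quad]
  have hα : (α : ℚ) ≠ 0 := by exact_mod_cast h
  apply irreducible_of_degree_le_three_of_not_isRoot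
  · rw [natDegree_quadratic hα]
    decide
  · intro x hx
    rw [IsRoot.def] at hx
    simp only [eval_add, eval_mul, eval_C, eval_pow, eval_X] at hx
    apply hd
    refine ⟨2 * α * x + β, ?_⟩
    push_cast
    linear_combination (-4 * (α : ℚ)) * hx

lemma cop_ll {α β α' β' : ℤ} (h : α' * β - α * β' ≠ 0) :
    IsCoprime ((lin α β).map (Int.castRingHom ℚ)) ((lin α' β').map (Int.castRingHom ℚ)) := by
  rw [map_lin, map_lin]
  have hd : ((α' : ℚ) * β - α * β') ≠ 0 := by exact_mod_cast h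
  refine ⟨C ((α' : ℚ) * β - α * β')⁻¹ * C (α' : ℚ), -(C ((α' : ℚ) * β - α * β')⁻¹ * C (α : ℚ)), ?_⟩
  have e : C ((α' : ℚ) * β - α * β')⁻¹ * C (α' : ℚ) * (C (α : ℚ) * X + C (β : ℚ)) +
      -(C ((α' : ℚ) * β - α * β')⁻¹ * C (α : ℚ)) * (C (α' : ℚ) * X + C (β' : ℚ)) =
      C ((α' : ℚ) * β - α * β')⁻¹ * C ((α' : ℚ) * β - α * β') := by
    simp only [map_sub, map_mul]
    ring
  rw [e, ← C_mul, inv_mul_cancel₀ hd, C_1]

lemma cop_ql {α β γ α' β' : ℤ} (h : α ≠ 0)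
    (hirr : Irreducible ((quad α β γ).map (Int.castRingHom ℚ))) (h' : α' ≠ 0) :
    IsCoprime ((quad α β γ).map (Int.castRingHom ℚ)) ((lin α' β').map (Int.castRingHom ℚ)) := by
  refine (EuclideanDomain.dvd_or_coprime _ _ hirr).resolve_left fun hd => ?_
  have h1 : ((lin α' β').map (Int.castRingHom ℚ)) ≠ 0 := (irr_lin h').ne_zero
  have h2 := natDegree_le_of_dvd hd h1
  rw [map_quad, map_lin, natDegree_quadratic (by exact_mod_cast h),
    natDegree_linear (by exact_mod_cast h')] at h2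
  omega

lemma cop_qq {α β γ α' β' γ' : ℤ} (h : α ≠ 0)
    (hirr : Irreducible ((quad α β γ).map (Int.castRingHom ℚ))) (h' : α' ≠ 0)
    (hne : α * β' - α' * β ≠ 0 ∨ α * γ' - α' * γ ≠ 0) :
    IsCoprime ((quad α β γ).map (Int.castRingHom ℚ)) ((quad α' β' γ').map (Int.castRingHom ℚ)) := by
  have hα : (α : ℚ) ≠ 0 := by exact_mod_cast h
  have hα' : (α' : ℚ) ≠ 0 := by exact_mod_cast h'
  refine (EuclideanDomain.dvd_or_coprime _ _ hirr).resolve_left fun hd => ?_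
  obtain ⟨W, hW⟩ := hd
  rw [map_quad, map_quad] at hW
  have h0 : (C (α' : ℚ) * X ^ 2 + C (β' : ℚ) * X + C (γ' : ℚ)) ≠ 0 := by
    intro h1
    have h2 := natDegree_quadratic (b := (β' : ℚ)) (c := (γ' : ℚ)) hα'
    rw [h1, natDegree_zero] at h2
    omega
  have hW0 : W ≠ 0 := by
    rintro rfl
    rw [mul_zero] at hW
    exact h0 hW
  have hq0 : (C (α : ℚ) * X ^ 2 + C (β : ℚ) * X + C (γ : ℚ)) ≠ 0 := by
    intro h1
    rw [h1, zero_mul] at hW
    exact h0 hW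
  have h3 := congrArg natDegree hW
  rw [natDegree_mul hq0 hW0, natDegree_quadratic hα, natDegree_quadratic hα'] at h3
  have h4 : W.natDegree = 0 := by omega
  rw [eq_C_of_natDegree_eq_zero h4] at hW
  set w := W.coeff 0
  have e2 := congrArg (fun f => coeff f 2) hW
  have e1 := congrArg (fun f => coeff f 1) hW
  have e0 := congrArg (fun f => coeff f 0) hW
  simp only [coeff_add, coeff_C_mul, coeff_mul_C, coeff_X, coeff_X_pow, coeff_C] at e2 e1 e0
  norm_num at e2 e1 e0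
  rcases hne with h5 | h5
  · apply h5
    have : (α : ℚ) * β' - α' * β = 0 := by
      rw [e2, e1]
      ring
    exact_mod_cast this
  · apply h5
    have : (α : ℚ) * γ' - α' * γ = 0 := by
      rw [e2, e0]
      ring
    exact_mod_cast this

/-- a square modulo `P` -/
lemma sq_of {P κ : ℤ[X]} (R W : ℤ[X]) (h : κ - R ^ 2 = P * W) :
    IsSquare (AdjoinRoot.mk (P.map (Int.castRingHom ℚ)) (κ.map (Int.castRingHom ℚ))) := by
  refine ⟨AdjoinRoot.mk _ (R.map (Int.castRingHom ℚ)), ?_⟩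
  rw [← map_mul, AdjoinRoot.mk_eq_mk]
  refine ⟨W.map (Int.castRingHom ℚ), ?_⟩
  rw [← Polynomial.map_mul, ← Polynomial.map_mul, ← Polynomial.map_sub, ← h]
  congr 1
  ring

/-- not a square modulo `P`: the value at a real zero of `P` is negative -/
lemma nsq_of {P κ : ℤ[X]} (θ : ℝ) (h1 : aeval θ P = 0) (h2 : aeval θ κ < 0) :
    ¬ IsSquare (AdjoinRoot.mk (P.map (Int.castRingHom ℚ)) (κ.map (Int.castRingHom ℚ))) := by
  rintro ⟨w, hw⟩
  obtain ⟨g, rfl⟩ := AdjoinRoot.mk_surjective w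
  rw [← map_mul, AdjoinRoot.mk_eq_mk] at hw
  obtain ⟨W, hW⟩ := hw
  have h3 := congrArg (fun f : ℚ[X] => aeval θ f) hW
  have h4 : ∀ Q : ℤ[X], aeval θ (Q.map (Int.castRingHom ℚ)) = aeval θ Q := by
    intro Q
    have : (Int.castRingHom ℚ) = algebraMap ℤ ℚ := rfl
    rw [this, aeval_map_algebraMap]
  simp only [map_sub, map_mul, h4, h1, zero_mul] at h3
  have h5 : aeval θ κ = (aeval θ g) * (aeval θ g) := by linarith
  rw [h5] at h2
  exact absurd h2 (not_lt.2 (mul_self_nonneg _))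

lemma aeval_lin (α β : ℤ) (θ : ℝ) : aeval θ (lin α β) = α * θ + β := by
  unfold lin
  simp

lemma aeval_quad (α β γ : ℤ) (θ : ℝ) : aeval θ (quad α β γ) = α * θ ^ 2 + β * θ + γ := by
  unfold quad
  simp

/-- a polynomial of degree at most two -/
noncomputable def pol (d : ℤ × ℤ × ℤ) : ℤ[X] :=
  if d.1 = 0 then lin d.2.1 d.2.2 else quad d.1 d.2.1 d.2.2

/-- the condition for irreducibility -/
def okp (d : ℤ × ℤ × ℤ) : Prop :=
  (d.1 = 0 ∧ d.2.1 ≠ 0) ∨ (d.1 ≠ 0 ∧ ¬ IsSquare (d.2.1 ^ 2 - 4 * d.1 * d.2.2))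

/-- the condition for coprimality -/
def chp (d d' : ℤ × ℤ × ℤ) : Prop :=
  (d.1 = 0 ∧ d'.1 = 0 → d'.2.1 * d.2.2 - d.2.1 * d'.2.2 ≠ 0) ∧
  (d.1 ≠ 0 ∧ d'.1 ≠ 0 → d.1 * d'.2.1 - d'.1 * d.2.1 ≠ 0 ∨ d.1 * d'.2.2 - d'.1 * d.2.2 ≠ 0)

instance (d d' : ℤ × ℤ × ℤ) : Decidable (chp d d') := by
  unfold chp
  infer_instance

/-- the degree -/
def dgp (d : ℤ × ℤ × ℤ) : ℕ := if d.1 = 0 then 1 else 2

lemma natDegree_pol {d : ℤ × ℤ × ℤ} (h : okp d) : (pol d).natDegree = dgp d := by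
  unfold pol dgp
  rcases h with ⟨h1, h2⟩ | ⟨h1, -⟩
  · rw [if_pos h1, if_pos h1, natDegree_lin h2]
  · rw [if_neg h1, if_neg h1, natDegree_quad h1]

lemma irr_pol {d : ℤ × ℤ × ℤ} (h : okp d) :
    Irreducible ((pol d).map (Int.castRingHom ℚ)) := by
  unfold pol
  rcases h with ⟨h1, h2⟩ | ⟨h1, h2⟩
  · rw [if_pos h1]
    exact irr_lin h2
  · rw [if_neg h1]
    exact irr_quad h1 (by rwa [Rat.isSquare_intCast_iff])

lemma cop_pol {d d' : ℤ × ℤ × ℤ} (h : okp d) (h' : okp d') (hc : chp d d') :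
    IsCoprime ((pol d).map (Int.castRingHom ℚ)) ((pol d').map (Int.castRingHom ℚ)) := by
  have hi := irr_pol h
  have hi' := irr_pol h'
  unfold pol at hi hi' ⊢
  rcases h with ⟨h1, h2⟩ | ⟨h1, h2⟩
  · rcases h' with ⟨h1', h2'⟩ | ⟨h1', h2'⟩
    · rw [if_pos h1, if_pos h1']
      exact cop_ll (hc.1 ⟨h1, h1'⟩)
    · rw [if_neg h1'] at hi'
      rw [if_pos h1, if_neg h1']
      exact (cop_ql h1' hi' h2).symm
  · rcases h' with ⟨h1', h2'⟩ | ⟨h1', h2'⟩
    · rw [if_neg h1] at hi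
      rw [if_neg h1, if_pos h1']
      exact cop_ql h1 hi h2'
    · rw [if_neg h1] at hi
      rw [if_neg h1, if_neg h1']
      exact cop_qq h1 hi h1' (hc.2 ⟨h1, h1'⟩)

lemma hv_pol {d : ℤ × ℤ × ℤ} (h : okp d) (u v : ℤ) : hv (pol d) (u, v) =
    if d.1 = 0 then d.2.1 * u + d.2.2 * v else d.1 * u ^ 2 + d.2.1 * u * v + d.2.2 * v ^ 2 := by
  unfold pol
  rcases h with ⟨h1, h2⟩ | ⟨h1, -⟩
  · rw [if_pos h1, if_pos h1, hv_lin h2]
  · rw [if_neg h1, if_neg h1, hv_quad h1]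

lemma pol_eq (d : ℤ × ℤ × ℤ) : pol d = C d.1 * X ^ 2 + C d.2.1 * X + C d.2.2 := by
  unfold pol lin quad
  by_cases h : d.1 = 0
  · rw [if_pos h, h, C_0]
    ring
  · rw [if_neg h]

lemma aeval_pol (d : ℤ × ℤ × ℤ) (θ : ℝ) :
    aeval θ (pol d) = d.1 * θ ^ 2 + d.2.1 * θ + d.2.2 := by
  rw [pol_eq]
  simp

section

variable {J : Type} [Fintype J] [DecidableEq J]

lemma fm_of (d : J → ℤ × ℤ × ℤ) (a : Fin 3 → ℤ) (h1 : ∀ j, okp (d j))
    (h2 : ∀ i j, i ≠ j → chp (d i) (d j)) (ha : ∀ k, a k ≠ 0) : Fm (fun j => pol (d j)) a :=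
  ⟨fun j => irr_pol (h1 j), fun i j hij => cop_pol (h1 i) (h1 j) (h2 i j hij), ha⟩

end

attribute [irreducible] pol

section

variable {J : Type} [Fintype J] [DecidableEq J] {P : J → ℤ[X]} {a : Fin 3 → ℤ}
  {q : J → Fin 3} {m : J → ℕ}

/-- the degree of the forms -/
lemma natDegree_Fk (h : Fm P a) (k : Fin 3) (d : J → ℕ) (hd : ∀ j, (P j).natDegree = d j) :
    (Fk P a (fun _ => false) q m k).natDegree = ∑ j, if q j = k then m j * d j else 0 := by
  unfold Fk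
  have hP : ∀ j, P j ≠ 0 := by
    intro j h0
    have h1 := (h.irr j).ne_zero
    rw [h0, Polynomial.map_zero] at h1
    exact h1 rfl
  rw [natDegree_C_mul (h.ane k), natDegree_prod _ _ (fun j _ => pow_ne_zero _ (hP j))]
  refine sum_congr rfl fun j _ => ?_
  rw [natDegree_pow, hd]
  unfold mu
  by_cases hq : q j = k
  · simp [hq]
  · simp [hq]

end

end Pool.Agent.L0h5.TE
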