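import Pool.Agent.L0h5.TE.D1

/-!
# The sum over all values of the variables of a set without symbols: the remainder
-/

set_option autoImplicit false

namespace Pool.Agent.L0h5.TE

open Finset Pool.Agent.W262.RK Pool.Agent.W262.RK.AT Pool.Agent.L0h5.AG Pool.Agent.L0h5.AH
open Pool.Agent.W307.RT (tE tF mem_tE mem_tF sum_split)

variable {ι : Type} [Fintype ι] [DecidableEq ι]
variable {g : ι → ℕ → ℝ} {e : ι → ℝ} {L : ι → ι → Bool} {c z : ℕ} {C : ℝ}

lemma caseD (hB : Bw g e c z C) (hz : c + Fintype.card ι ≤ z)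
    (S : Finset ι) (hS : ∀ i ∈ S, ∀ j ∈ S, L i j = false) (A : ℕ) {K γ Gb Go : ℝ}
    (hγ : 0 < γ) (hGb : 0 ≤ Gb) (hGo : 0 ≤ Go)
    (hzA : 16 * (Gb * (Fintype.card ι * A)) ≤ z * γ) (hJ : JtD e g L S z K γ Gb Go) :
    ∃ C' : ℝ, ∀ y, z < y →
      |∑ d ∈ Fintype.piFinset (tS S z y (VV A (Real.log y))), HG g L d - MT g S z y| ≤
        C' * (Real.log y) ^ K := by
  classical
  obtain ⟨m, gp, K', ep, Cm, TS, -, hTS, hKe, hm0, hgp, hm1, hg1, hos, hm2, hlk⟩ := hJ
  have hC0 : 0 ≤ C := zero_le_one.trans hB.C1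
  have hz0 : 0 < z := by have := hB.z2; omega
  obtain ⟨C1, hC1, h1⟩ := log_VV_pow_le A (Fintype.card ι) (show 0 < γ / 4 by linarith)
  obtain ⟨C2, hC2, h2⟩ := loglog_le (Fintype.card ι) A (γ := γ / (8 * (Go + 1))) (by positivity)
  set Cx : ℝ := 3 * Cm + Go * C2 + 8 * (Fintype.card ι * Gb) with hCx
  refine ⟨C ^ Fintype.card ι * C1 * Real.exp Cx, fun y hy => ?_⟩
  have hly := one_le_log hB.z2 hy
  have hly0 : 0 < Real.log y := by linarith
  set l := Real.log y with hl
  set V := VV A l with hV
  have hV3 : 3 ≤ V := three_le_VV A l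
  have hll : 0 ≤ Real.log l := Real.log_nonneg hly
  rw [sum_split S]
  set sm := Fintype.piFinset (tE S (tS S z y V)) with hsm
  set F : (ι → ℕ) → ℝ := fun d => ∑ f ∈ Fintype.piFinset (tF S (tS S z y V)),
    HG g L (fun b => d b * f b) with hF
  set W : (ι → ℕ) → ℝ := fun d => ∏ b ∈ univ \ S, |gg g b (d b)| with hW
  have hW0 : ∀ d, 0 ≤ W d := fun d => prod_nonneg fun b _ => abs_nonneg _
  have h1m : (fun _ => 1 : ι → ℕ) ∈ sm := by
    rw [hsm, mem_tE]
    refine ⟨fun _ _ => rfl, fun b hb => ?_⟩
    rw [tS_not b hb]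
    unfold sml
    rw [mem_filter]
    exact ⟨one_mem_dv z y, by omega⟩
  have hone : F (fun _ => 1) = MT g S z y := by
    rw [hF]
    simp only [one_mul]
    exact main_eq g L S hS z y (tS_mem)
  have hsum : ∑ d ∈ sm, F d = ∑ d ∈ sm.erase (fun _ => 1), F d + MT g S z y := by
    rw [← sum_erase_add sm F h1m, hone]
  have hsumW : ∑ d ∈ sm, W d ≤ C ^ Fintype.card ι * (Real.log V) ^ Fintype.card ι :=
    sum_small hB S (V := V) hy hV3
  change |∑ d ∈ sm, F d - MT g S z y| ≤ _
  rw [hsum, add_sub_cancel_right]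
  have hgood : ∀ d ∈ sm.erase (fun _ => 1),
      |F d| ≤ W d * Real.exp ((K' - ep + γ / 2) * Real.log l + Cx) := by
    intro d hd
    rw [mem_erase] at hd
    obtain ⟨hdne, hd0⟩ := hd
    obtain ⟨hd1, hd2, hd3⟩ := mem_tES hd0
    by_cases hcop : ∀ i j, i ≠ j → (d i).Coprime (d j)
    swap
    · have : F d = 0 := by
        rw [hF]
        refine sum_eq_zero fun f _ => ?_
        unfold HG
        rw [if_neg]
        intro h
        apply hcop
        intro a b hab
        exact Nat.Coprime.coprime_mul_right (Nat.Coprime.coprime_mul_right_right (h a b hab))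
      rw [this, abs_zero]
      exact mul_nonneg (hW0 d) (Real.exp_pos _).le
    have hex : ∃ b, d b ≠ 1 := by
      by_contra hcon
      push Not at hcon
      exact hdne (funext hcon)
    obtain ⟨b0, hb0⟩ := hex
    have hbS : b0 ∉ S := fun h => hb0 (hd1 b0 h)
    obtain ⟨i0, hi0, hib⟩ := hlk b0 hbS
    have hbi : b0 ≠ i0 := by
      rintro rfl
      exact hbS (hTS hi0)
    obtain ⟨t, ht⟩ := XX_char L i0 d (fun b => dv_odd hB.z2 (hd2 b))
    have hR0 : ∏ b, d b ≠ 0 := prod_ne_zero_iff.2 fun b _ => dv_ne_zero (hd2 b)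
    have hch : ∀ p ∈ PS z y, ¬ p ∣ ∏ b, d b → XX L i0 d p = ps (lk L i0 d) t p := by
      intro p hp hpd
      have hpp := (mem_PS.1 hp).2
      have hpz := (mem_PS.1 hp).1.1
      refine ht p (hpp.odd_of_ne_two (by have := hB.z2; omega)) fun b _ => ?_
      rw [hpp.coprime_iff_not_dvd]
      exact fun h => hpd (h.trans (dvd_prod_of_mem _ (mem_univ b)))
    have hle : ∀ b, 0 < d b ∧ d b ≤ V := by
      intro b
      refine ⟨dv_pos (hd2 b), ?_⟩
      by_cases hb : b ∈ S
      · rw [hd1 b hb]
        omega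
      · exact hd3 b hb
    have hlkle : 1 ≤ lk L i0 d ∧ lk L i0 d ≤ V ^ Fintype.card ι := by
      unfold lk
      constructor
      · exact prod_pos fun b _ => (hle b).1
      · calc ∏ b ∈ (univ.erase i0).filter (fun b => L i0 b ≠ L b i0), d b
            ≤ ∏ b ∈ (univ.erase i0).filter (fun b => L i0 b ≠ L b i0), V :=
              prod_le_prod' fun b _ => (hle b).2
          _ = V ^ ((univ.erase i0).filter (fun b => L i0 b ≠ L b i0)).card := by rw [prod_const]
          _ ≤ V ^ Fintype.card ι := Nat.pow_le_pow_right (by omega)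
              ((card_le_card (subset_univ _)).trans (le_of_eq card_univ))
    have hlksq : Squarefree (lk L i0 d) := by
      unfold lk
      exact squarefree_prod _ _ (fun b _ => dv_squarefree (hd2 b))
        fun a _ b _ hab => hcop a b hab
    have hr1 : 1 < lk L i0 d := by
      have h3 : d b0 ∣ lk L i0 d := by
        unfold lk
        apply dvd_prod_of_mem
        rw [mem_filter, mem_erase]
        exact ⟨⟨hbi, mem_univ _⟩, hib⟩
      have h4 := Nat.le_of_dvd hlkle.1 h3
      have h5 := (hle b0).1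
      omega
    set r := lk L i0 d with hr
    set R := ∏ b, d b with hRd
    refine inner_le hB hz S hS (tS_mem) hd1 hd2 (a := fun p => m p - gp p * (1 - ps r t p))
      (fun p hp hpd => ?_) ?_
    · have h3 := hm2 y hy d hd2 hd1 p hp hpd i0 hi0
      rwa [hch p hp hpd] at h3
    · have h3 := hg1 y hy
      have h4 := hm1 y hy
      have h5 := hos y r t hy hr1 hlksq fun p hp hpd => lk_primes hd2 hp hpd
      have h5' : Go * Real.log (Real.log r) ≤ Go * C2 + γ / 8 * Real.log l := by
        have e1 := mul_le_mul_of_nonneg_left (h2 l hly r hr1 hlkle.2) hGo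
        have e2 : Go * (γ / (8 * (Go + 1))) ≤ γ / 8 := by
          rw [← mul_div_assoc, div_le_div_iff₀ (by positivity) (by norm_num)]
          nlinarith
        have e3 := mul_le_mul_of_nonneg_right e2 hll
        calc _ ≤ _ := e1
          _ = Go * C2 + Go * (γ / (8 * (Go + 1))) * Real.log l := by ring
          _ ≤ _ := by linarith
      have h6 : ∑ p ∈ (PS z y).filter (fun p => ¬ p ∣ R), (m p - gp p * (1 - ps r t p)) ≤
          ∑ p ∈ PS z y, m p - ∑ p ∈ PS z y, gp p + ∑ p ∈ PS z y, gp p * ps r t p +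
            2 * ∑ p ∈ (PS z y).filter (fun p => p ∣ R), gp p := by
        have e1 : ∑ p ∈ (PS z y).filter (fun p => ¬ p ∣ R), (m p - gp p * (1 - ps r t p)) =
            ∑ p ∈ PS z y, (m p - gp p * (1 - ps r t p)) -
              ∑ p ∈ (PS z y).filter (fun p => p ∣ R), (m p - gp p * (1 - ps r t p)) := by
          rw [← sum_filter_add_sum_filter_not (PS z y) (fun p => p ∣ R)]
          ring
        have e2 : ∑ p ∈ PS z y, (m p - gp p * (1 - ps r t p)) = ∑ p ∈ PS z y, m p -
            ∑ p ∈ PS z y, gp p + ∑ p ∈ PS z y, gp p * ps r t p := by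
          rw [← sum_sub_distrib, ← sum_add_distrib]
          refine sum_congr rfl fun p _ => ?_
          ring
        have e3 : -(2 * ∑ p ∈ (PS z y).filter (fun p => p ∣ R), gp p) ≤
            ∑ p ∈ (PS z y).filter (fun p => p ∣ R), (m p - gp p * (1 - ps r t p)) := by
          rw [mul_sum, ← sum_neg_distrib]
          refine sum_le_sum fun p hp => ?_
          have hp' := mem_PS.1 (mem_filter.1 hp).1
          have a1 := (hgp p hp'.2 hp'.1.1).1
          have a2 := abs_le.1 (abs_ps r t p)
          have a3 := hm0 p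
          nlinarith [mul_le_mul_of_nonneg_left a2.1 a1, mul_le_mul_of_nonneg_left a2.2 a1]
        rw [e1, e2]
        linarith
      have h7 := sum_dvd_le (y := y) hGb hz0 hR0 hgp
      have hlogR : Real.log R ≤ Fintype.card ι * (2 + A * Real.log l) := by
        have e1 : R ≤ V ^ Fintype.card ι := by
          calc R = ∏ b, d b := rfl
            _ ≤ ∏ _b : ι, V := prod_le_prod' fun b _ => (hle b).2
            _ = _ := by rw [prod_const, card_univ]
        have e2 : Real.log R ≤ Real.log ((V ^ Fintype.card ι : ℕ) : ℝ) :=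
          Real.log_le_log (by exact_mod_cast Nat.pos_of_ne_zero hR0) (by exact_mod_cast e1)
        refine e2.trans ?_
        push_cast
        rw [Real.log_pow]
        exact mul_le_mul_of_nonneg_left (log_VV_lin A hly) (Nat.cast_nonneg _)
      have hzr : (1 : ℝ) ≤ z := by exact_mod_cast hz0
      have h8 : 2 * (2 * Real.log R * (Gb / z)) ≤ 8 * (Fintype.card ι * Gb) +
          γ / 4 * Real.log l := by
        have e1 : 2 * (2 * Real.log R * (Gb / z)) ≤
            2 * (2 * (Fintype.card ι * (2 + A * Real.log l)) * (Gb / z)) := by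
          have : 0 ≤ Gb / (z : ℝ) := by positivity
          nlinarith
        refine e1.trans ?_
        have e2 : 2 * (2 * (Fintype.card ι * (2 + A * Real.log l)) * (Gb / z)) =
            (8 * (Fintype.card ι * Gb)) / z +
              (4 * (Gb * (Fintype.card ι * A)) / z) * Real.log l := by
          field_simp
          ring
        rw [e2]
        refine add_le_add ?_ (mul_le_mul_of_nonneg_right ?_ hll)
        · exact div_le_self (by positivity) hzr
        · rw [div_le_div_iff₀ (by linarith) (by norm_num)]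
          linarith
      rw [hCx]
      have h10 : (K' - ep + γ / 2) * Real.log l = K' * Real.log l - ep * Real.log l +
          γ / 8 * Real.log l + γ / 4 * Real.log l + γ / 8 * Real.log l := by ring
      have h11 : 0 ≤ γ / 8 * Real.log l := by positivity
      linarith
  refine (abs_sum_le_sum_abs _ _).trans ((sum_le_sum hgood).trans ?_)
  rw [← sum_mul]
  have e2 : ∑ d ∈ sm.erase (fun _ => 1), W d ≤
      C ^ Fintype.card ι * (Real.log V) ^ Fintype.card ι :=
    (sum_le_sum_of_subset_of_nonneg (erase_subset _ _) fun d _ _ => hW0 d).trans hsumW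
  have e3 := h1 l hly
  have e4 : Real.exp ((K' - ep + γ / 2) * Real.log l + Cx) =
      l ^ (K' - ep + γ / 2) * Real.exp Cx := by
    rw [Real.exp_add, Real.rpow_def_of_pos hly0, mul_comm (K' - ep + γ / 2)]
  have e5 : l ^ (K' - ep + γ / 2) * l ^ (γ / 4) ≤ l ^ K := by
    rw [← Real.rpow_add hly0]
    apply Real.rpow_le_rpow_of_exponent_le hly
    linarith
  rw [e4]
  have hCc : 0 ≤ C ^ Fintype.card ι := by positivity
  calc _ ≤ (C ^ Fintype.card ι * (Real.log V) ^ Fintype.card ι) *
        (l ^ (K' - ep + γ / 2) * Real.exp Cx) := mul_le_mul_of_nonneg_right e2 (by positivity)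
    _ ≤ (C ^ Fintype.card ι * (C1 * l ^ (γ / 4))) * (l ^ (K' - ep + γ / 2) * Real.exp Cx) := by
        refine mul_le_mul_of_nonneg_right (mul_le_mul_of_nonneg_left e3 hCc)
          (by positivity)
    _ = (C ^ Fintype.card ι * C1 * Real.exp Cx) * (l ^ (K' - ep + γ / 2) * l ^ (γ / 4)) := by ring
    _ ≤ _ := mul_le_mul_of_nonneg_left e5 (by positivity)

end Pool.Agent.L0h5.TE
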