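import Pool.Agent.L0h5.TE.D2

/-!
# The refined abstract bound with main terms
-/

set_option autoImplicit false

namespace Pool.Agent.L0h5.TE

open Finset Pool.Agent.W262.RK Pool.Agent.W262.RK.AT Pool.Agent.L0h5.AG Pool.Agent.L0h5.AH

variable {ι : Type} [Fintype ι] [DecidableEq ι]
variable {g : ι → ℕ → ℝ} {e : ι → ℝ} {L : ι → ι → Bool} {c z : ℕ} {C : ℝ}

/-- the special patterns together, with a main term -/
lemma specM (hB : Bw g e c z C) {A : ℕ} {K : ℝ} (hK0 : 0 ≤ K) (S : Finset ι)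
    (M : ℕ → ℝ) (hT : ∃ C' : ℝ, ∀ y, z < y →
      |∑ d ∈ Fintype.piFinset (tS S z y (VV A (Real.log y))), HG g L d - M y| ≤
        C' * (Real.log y) ^ K) :
    ∃ C' : ℝ, ∀ y : ℕ, z < y →
      |∑ π ∈ Spc e K S, Tp g L z A y π - M y| ≤ C' * (Real.log y) ^ K := by
  classical
  obtain ⟨C0, hC0⟩ := hT
  set As : Finset (ι → Fin 4) :=
    univ.filter (fun π : ι → Fin 4 => ∀ b, b ∉ S → π b = 0 ∨ π b = 1) with hAs
  have hsub : Spc e K S ⊆ As := by
    intro π hπ
    unfold Spc at hπ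
    rw [mem_filter] at hπ
    obtain ⟨-, h3, h4, -⟩ := hπ
    rw [hAs, mem_filter]
    refine ⟨mem_univ _, fun b hb => ?_⟩
    have h5 : π b ≠ 2 := fun h => hb (h4 (mem_filter.2 ⟨mem_univ _, h⟩))
    have h6 := h3 b
    revert h5 h6
    generalize π b = r
    revert r
    decide
  have hrest : ∀ π ∈ As \ Spc e K S, Bp g L z A K π := by
    intro π hπ
    rw [mem_sdiff, hAs, mem_filter] at hπ
    obtain ⟨⟨-, h1⟩, h2⟩ := hπ
    unfold Bp Tp
    by_cases h3 : ∃ k, π k = 3
    · obtain ⟨k, hk⟩ := h3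
      exact tail_case hB _ hK0 π hk
    push Not at h3
    have h4 : Ul π ⊆ S := by
      intro b hb
      by_contra hbS
      have h5 := (mem_filter.1 hb).2
      rcases h1 b hbS with h | h
      · rw [h] at h5
        exact absurd h5 (by decide)
      · rw [h] at h5
        exact absurd h5 (by decide)
    refine triv_case hB _ π h3 ?_
    by_contra hcon
    apply h2
    unfold Spc
    rw [mem_filter]
    exact ⟨mem_univ _, h3, h4, not_lt.1 hcon⟩
  choose! Cπ hCπ using hrest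
  refine ⟨C0 + ∑ π ∈ As \ Spc e K S, Cπ π, fun y hy => ?_⟩
  have h1 := patternsS S z y (V := VV A (Real.log y)) (Y := YY A (Real.log y))
    (by have := three_le_VV A (Real.log y); omega) (HG g L)
  have h2 : ∑ π ∈ Spc e K S, Tp g L z A y π =
      ∑ d ∈ Fintype.piFinset (tS S z y (VV A (Real.log y))), HG g L d -
        ∑ π ∈ As \ Spc e K S, Tp g L z A y π := by
    rw [h1, ← hAs]
    have h3 := sum_sdiff (f := fun π => Tp g L z A y π) hsub
    have h4 : ∑ π ∈ As, ∑ d ∈ Fintype.piFinset (fun k => cell z y (VV A (Real.log y))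
        (YY A (Real.log y)) (π k)), HG g L d = ∑ π ∈ As, Tp g L z A y π := rfl
    rw [h4]
    linarith
  have h5 : ∑ d ∈ Fintype.piFinset (tS S z y (VV A (Real.log y))), HG g L d -
        ∑ π ∈ As \ Spc e K S, Tp g L z A y π - M y =
      (∑ d ∈ Fintype.piFinset (tS S z y (VV A (Real.log y))), HG g L d - M y) -
        ∑ π ∈ As \ Spc e K S, Tp g L z A y π := by ring
  rw [h2, h5, add_mul, sum_mul]
  refine (abs_sub _ _).trans (add_le_add (hC0 y hy) ?_)
  exact (abs_sum_le_sum_abs _ _).trans (sum_le_sum fun π hπ => hCπ π hπ y hy)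

/-- **The refined abstract bound with general weights and main terms.** -/
theorem ag2m (ι : Type) [Fintype ι] [DecidableEq ι] (e : ι → ℝ) (L : ι → ι → Bool) (c : ℕ) (K : ℝ)
    (ep Gb γ Go : ℝ) (hep : 0 < ep) (hGb : 1 ≤ Gb) (hγ : 0 < γ) (hGo : 0 ≤ Go) (hK0 : 0 ≤ K)
    (Sg Bad : Finset (Finset ι)) (hBad : Bad ⊆ Sg)
    (he : ∀ i, 0 < e i) (hL : ∀ i, L i i = false)
    (hK : ∀ U : Finset ι, (∀ i ∈ U, ∀ j ∈ U, L i j = L j i) →
      ∑ i ∈ U, e i ≤ K ∨ ∃ S ∈ Sg, U ⊆ S)
    (hS0 : ∀ S ∈ Sg, ∀ i ∈ S, ∀ j ∈ S, L i j = false)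
    (hSS : ∀ S ∈ Sg, ∀ S' ∈ Sg, S ≠ S' → ∑ i ∈ S ∩ S', e i < K) :
    ∃ z0 : ℕ, ∀ z, z0 ≤ z → ∀ (g : ι → ℕ → ℝ) (Cg : ℝ),
      (∀ i p, p.Prime → z < p → |g i p| ≤ (1 / 2) / ((p : ℝ) - c)) →
      (∀ i (y : ℕ), z < y → ∑ p ∈ PS z y, |g i p| ≤ e i * Real.log (Real.log y) + Cg) →
      (∀ S ∈ Sg, (S ∉ Bad ∧ (JtA g L S z K ∨ JtB g L S z K ep Gb)) ∨
        (S ∈ Bad ∧ JtD e g L S z K γ Gb Go)) →
      ∃ C : ℝ, ∀ y, z < y →
        |∑ d ∈ Tup ι z y, (∏ i, gg g i (d i)) * Pool.Agent.W262.RK.Sym L (fun _ => 1) d -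
          ∑ S ∈ Bad, MT g S z y| ≤ C * (Real.log y) ^ K := by
  classical
  obtain ⟨C2, E2, h2⟩ := Pool.Agent.W655.RK.blw_of (_root_.W37.RK.bl_of Pool.Agent.W505.RK.ls)
  obtain ⟨zF, hF⟩ := Pool.Agent.W655.RK.full (1 / 2) c (by norm_num) le_rfl
  set A := 6 * (Fintype.card ι + 2 * E2) with hA
  obtain ⟨zE, hzE⟩ : ∃ zE : ℕ, ∀ i, 128 * (Fintype.card ι * (A : ℝ)) ≤ zE * e i := by
    choose zi hzi using fun i => exists_nat_ge (128 * (Fintype.card ι * (A : ℝ)) / e i)
    refine ⟨univ.sup zi, fun i => ?_⟩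
    have h1 : (zi i : ℝ) ≤ (univ.sup zi : ℕ) := by exact_mod_cast le_sup (f := zi) (mem_univ i)
    have h3 := (hzi i).trans h1
    rwa [div_le_iff₀ (he i)] at h3
  obtain ⟨zG, hzG⟩ := exists_nat_ge (128 * (Gb * (Fintype.card ι * (A : ℝ))) / ep)
  rw [div_le_iff₀ hep] at hzG
  obtain ⟨zH, hzH⟩ := exists_nat_ge (16 * (Gb * (Fintype.card ι * (A : ℝ))) / γ)
  rw [div_le_iff₀ hγ] at hzH
  refine ⟨zF + zE + zG + zH + 2 * c + 2 + 2 ^ Fintype.card ι + Fintype.card ι,
    fun z hz g Cg hg1 hg2 hJ => ?_⟩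
  have hpow : 0 < 2 ^ Fintype.card ι := by positivity
  obtain ⟨CF, hF1, hF2, hF3⟩ := hF z (by omega)
  have hz2 : 2 ≤ z := by omega
  have hzc : 2 * c + 2 ≤ z := by omega
  set C : ℝ := 1 + 2 * |CF| + Real.exp (Cg + 2) with hC
  have hCF : CF ≤ C := by
    have := le_abs_self CF
    have := abs_nonneg CF
    have := Real.exp_pos (Cg + 2)
    linarith
  have hle : ∀ i (y m : ℕ), m ∈ (PP z y).divisors → ah g i m ≤ gw (1 / 2) c m * hh m :=
    fun i y m hm => mul_le_mul_of_nonneg_right (abs_gg_le_gw hg1 i hm) (hh_nonneg _)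
  have hB : Bw g e c z C :=
    { z2 := hz2
      zc := hzc
      C1 := by
        have := abs_nonneg CF
        have := Real.exp_pos (Cg + 2)
        linarith
      g1 := hg1
      e0 := he
      F0 := fun i y hy => by
        have hly := one_le_log hz2 hy
        refine (sum_le_sum fun m hm => hle i y m hm).trans ((hF1 y hy).trans ?_)
        have h3 : (Real.log y) ^ (1 / 2 : ℝ) ≤ Real.log y := by
          calc (Real.log y) ^ (1 / 2 : ℝ) ≤ (Real.log y) ^ (1 : ℝ) :=
                Real.rpow_le_rpow_of_exponent_le hly (by norm_num)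
            _ = Real.log y := Real.rpow_one _
        have h4 : 0 ≤ (Real.log y) ^ (1 / 2 : ℝ) := by positivity
        have hC0 : 0 ≤ C := by
          have := abs_nonneg CF
          have := Real.exp_pos (Cg + 2)
          linarith
        exact (mul_le_mul_of_nonneg_right hCF h4).trans (mul_le_mul_of_nonneg_left h3 hC0)
      F1 := fun i y hy => by
        refine (f1_of hz2 hzc (hg1 i) (hg2 i) y hy).trans ?_
        refine mul_le_mul_of_nonneg_right ?_ (Real.rpow_nonneg (Real.log_natCast_nonneg y) _)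
        have := abs_nonneg CF
        linarith
      F2 := fun i y V hy hV => by
        refine (sum_le_sum fun m hm => hle i y m (mem_filter.1 hm).1).trans
          ((hF2 y V hy hV).trans ?_)
        have hC0 : 0 ≤ C := by
          have := abs_nonneg CF
          have := Real.exp_pos (Cg + 2)
          linarith
        have hlV : 1 / 4 ≤ Real.log V := by
          have h1 : Real.log 2 ≤ Real.log V :=
            Real.log_le_log (by norm_num) (by exact_mod_cast hV)
          have h2 := Real.log_two_gt_d9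
          linarith
        have h3 : (Real.log V) ^ (1 / 2 : ℝ) ≤ 2 * Real.log V := by
          rw [← Real.sqrt_eq_rpow, Real.sqrt_le_left (by linarith)]
          nlinarith
        have h4 : 0 ≤ (Real.log V) ^ (1 / 2 : ℝ) := by positivity
        have h5 : 0 ≤ Real.log V := by linarith
        have h6 := Real.exp_pos (Cg + 2)
        calc CF * (Real.log V) ^ (1 / 2 : ℝ) ≤ |CF| * (Real.log V) ^ (1 / 2 : ℝ) :=
              mul_le_mul_of_nonneg_right (le_abs_self _) h4
          _ ≤ |CF| * (2 * Real.log V) := mul_le_mul_of_nonneg_left h3 (abs_nonneg _)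
          _ = 2 * |CF| * Real.log V := by ring
          _ ≤ C * Real.log V := mul_le_mul_of_nonneg_right (by linarith) h5
      F3 := fun i y Y hy hY => by
        refine (sum_le_sum fun m hm => hle i y m (mem_filter.1 hm).1).trans
          ((hF3 y Y hy hY).trans ?_)
        apply mul_le_mul_of_nonneg_right _ (by positivity)
        exact mul_le_mul_of_nonneg_right hCF (Real.exp_pos _).le }
  have h2' : AT.BW |C2| E2 := fun V Y hV hVY a b ha hb ha' hb' =>
    (h2 V Y hV hVY a b ha hb ha' hb').trans (by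
      apply mul_le_mul_of_nonneg_right _ (by positivity)
      exact mul_le_mul_of_nonneg_right (le_abs_self C2)
        (pow_nonneg (Real.log_natCast_nonneg Y) _))
  -- the exceptional sets
  have hex : ∀ i, ∃ n y0 : ℕ, ∀ y, y0 ≤ y → z < y → ∀ t : Bool, ∀ S : Finset ℕ,
      (∀ r ∈ S, 1 ≤ r ∧ r ≤ VV A (Real.log y) ^ Fintype.card ι ∧ Squarefree r ∧
        (∀ p : ℕ, p.Prime → p ∣ r → z < p) ∧
        e i / 2 * Real.log (Real.log y) < ∑ p ∈ PS z y, g i p * ps r t p) → S.card ≤ n := by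
    intro i
    refine exc (g i) (e i) Cg (he i) z hz2 (fun p hp hpz => (hg1 i p hp hpz).trans ?_) (hg2 i)
      A (Fintype.card ι) ?_
    · have h3 : (2 * c + 3 : ℝ) ≤ p := by exact_mod_cast (by omega : 2 * c + 3 ≤ p)
      have hc0 : (0 : ℝ) ≤ c := Nat.cast_nonneg c
      rw [div_le_div_iff₀ (by linarith) (by linarith)]
      linarith
    · refine (hzE i).trans (mul_le_mul_of_nonneg_right ?_ (he i).le)
      exact_mod_cast (by omega : zE ≤ z)
  choose ni yi hni using hex
  have hX : XB g e z A (univ.sup ni) (univ.sup yi) := by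
    intro y hy hzy i t
    have h3 : yi i ≤ y := (le_sup (f := yi) (mem_univ i)).trans hy
    refine (hni i y h3 hzy t _ fun r hr => ?_).trans (le_sup (f := ni) (mem_univ i))
    obtain ⟨⟨h4, h5⟩, h6, h7, h8⟩ := mem_Ex.1 hr
    exact ⟨h4, h5, h6, h7, h8⟩
  -- the special sets
  have hGb0 : 0 < Gb := by linarith
  have hzG' : 128 * (Gb * (Fintype.card ι * (A : ℝ))) ≤ z * ep :=
    hzG.trans (mul_le_mul_of_nonneg_right (by exact_mod_cast (by omega : zG ≤ z)) hep.le)
  have hzH' : 16 * (Gb * (Fintype.card ι * (A : ℝ))) ≤ z * γ :=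
    hzH.trans (mul_le_mul_of_nonneg_right (by exact_mod_cast (by omega : zH ≤ z)) hγ.le)
  have hTS : ∀ S ∈ Sg, ∃ C' : ℝ, ∀ y : ℕ, z < y →
      |∑ π ∈ Spc e K S, Tp g L z A y π - (if S ∈ Bad then MT g S z y else 0)| ≤
        C' * (Real.log y) ^ K := by
    intro S hS
    refine specM (L := L) hB hK0 S (fun y => if S ∈ Bad then MT g S z y else 0) ?_
    rcases hJ S hS with ⟨hSb, h | h⟩ | ⟨hSb, h⟩
    · simp only [if_neg hSb, sub_zero]
      exact caseA hB (by omega) S (hS0 S hS) A h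
    rotate_left
    · simp only [if_pos hSb]
      exact caseD hB (by omega) S (hS0 S hS) A hγ hGb0.le hGo hzH' h
    · simp only [if_neg hSb, sub_zero]
      obtain ⟨m, gp, Cm, TS, hTS, hm0, hgp, hm1, hgs, hm2, hlk⟩ := h
      have hexg : ∃ n y0 : ℕ, ∀ y, y0 ≤ y → z < y → ∀ t : Bool, ∀ S : Finset ℕ,
          (∀ r ∈ S, 1 ≤ r ∧ r ≤ VV A (Real.log y) ^ Fintype.card ι ∧ Squarefree r ∧
            (∀ p : ℕ, p.Prime → p ∣ r → z < p) ∧
            (ep / Gb) / 2 * Real.log (Real.log y) < ∑ p ∈ PS z y, (gp p / Gb) * ps r t p) →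
            S.card ≤ n := by
        refine exc (fun p => gp p / Gb) (ep / Gb) (|Cm| / Gb) (by positivity) z hz2
          (fun p hp hpz => ?_) (fun y hy => ?_) A (Fintype.card ι) ?_
        · obtain ⟨a1, a2⟩ := hgp p hp hpz
          rw [abs_of_nonneg (div_nonneg a1 hGb0.le), div_le_iff₀ hGb0]
          refine a2.trans (le_of_eq ?_)
          ring
        · have e1 : ∑ p ∈ PS z y, |gp p / Gb| = (∑ p ∈ PS z y, gp p) / Gb := by
            rw [sum_div]
            refine sum_congr rfl fun p hp => ?_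
            obtain ⟨a1, -⟩ := hgp p (mem_PS.1 hp).2 (mem_PS.1 hp).1.1
            exact abs_of_nonneg (div_nonneg a1 hGb0.le)
          rw [e1, div_mul_eq_mul_div, ← add_div]
          refine div_le_div_of_nonneg_right ?_ hGb0.le
          have h3 := (abs_le.1 (hgs y hy)).2
          have := le_abs_self Cm
          linarith
        · rw [← mul_div_assoc, le_div_iff₀ hGb0]
          refine le_trans (le_of_eq ?_) hzG'
          ring
      obtain ⟨n', y0', hn'⟩ := hexg
      refine caseB hB (by omega) (by omega) S (hS0 S hS) A hK0 hep hGb0.le (by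
          have : (0 : ℝ) ≤ Gb * (Fintype.card ι * (A : ℝ)) := by positivity
          linarith) hTS hm0 hgp hm1 hgs hm2 hlk
        (n := n') (y0 := y0') (fun y hy hzy t => ?_)
      refine hn' y hy hzy t _ fun r hr => ?_
      obtain ⟨⟨h4, h5⟩, h6, h7, h8⟩ := mem_Ex.1 hr
      refine ⟨h4, h5, h6, h7, ?_⟩
      have e1 : ∑ p ∈ PS z y, (gp p / Gb) * ps r t p = (∑ p ∈ PS z y, gp p * ps r t p) / Gb := by
        rw [sum_div]
        refine sum_congr rfl fun p _ => ?_
        ring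
      have e2 : (ep / Gb) / 2 * Real.log (Real.log y) = (ep / 2 * Real.log (Real.log y)) / Gb := by
        ring
      rw [e1, e2]
      exact div_lt_div_of_pos_right h8 hGb0
  choose! CS hCS using hTS
  -- the good patterns
  have hgood : ∀ π ∈ univ.filter (fun π : ι → Fin 4 => ∀ S ∈ Sg, π ∉ Spc e K S),
      Bp g L z A K π := fun π hπ =>
    pat2 hB (abs_nonneg C2) h2' hL hK0 Sg hK (by omega) hX π (mem_filter.1 hπ).2
  choose! CP hCP using hgood
  refine ⟨∑ π ∈ univ.filter (fun π : ι → Fin 4 => ∀ S ∈ Sg, π ∉ Spc e K S), CP π +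
    ∑ S ∈ Sg, CS S, fun y hy => ?_⟩
  rw [AG.total_eq, AT.patterns z y (AT.VV A (Real.log y)) (AT.YY A (Real.log y))]
  have h3 : ∑ π : ι → Fin 4, ∑ d ∈ Fintype.piFinset (fun k => cell z y (VV A (Real.log y))
      (YY A (Real.log y)) (π k)), HG g L d =
      ∑ π ∈ univ.filter (fun π : ι → Fin 4 => ∀ S ∈ Sg, π ∉ Spc e K S), Tp g L z A y π +
        ∑ S ∈ Sg, ∑ π ∈ Spc e K S, Tp g L z A y π := by
    have hdj : (Sg : Set (Finset ι)).PairwiseDisjoint (Spc e K) := by
      intro S hS S' hS' hne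
      rw [Function.onFun, disjoint_left]
      intro π hπ hπ'
      unfold Spc at hπ hπ'
      rw [mem_filter] at hπ hπ'
      have h4 : ∑ k ∈ Ul π, e k ≤ ∑ k ∈ S ∩ S', e k :=
        sum_le_sum_of_subset_of_nonneg (subset_inter hπ.2.2.1 hπ'.2.2.1) fun i _ _ => (he i).le
      have h5 := hSS S hS S' hS' hne
      have h6 := hπ.2.2.2
      linarith
    have hbi : ∑ S ∈ Sg, ∑ π ∈ Spc e K S, Tp g L z A y π =
        ∑ π ∈ Sg.biUnion (Spc e K), Tp g L z A y π := (sum_biUnion hdj).symm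
    rw [hbi]
    rw [← sum_filter_add_sum_filter_not (univ : Finset (ι → Fin 4))
        (fun π : ι → Fin 4 => ∀ S ∈ Sg, π ∉ Spc e K S)]
    congr 1
    have h4 : univ.filter (fun π : ι → Fin 4 => ¬ ∀ S ∈ Sg, π ∉ Spc e K S) =
        Sg.biUnion (Spc e K) := by
      ext π
      rw [mem_filter, mem_biUnion]
      push Not
      simp
    rw [h4]
    rfl
  have h5 : ∑ S ∈ Bad, MT g S z y = ∑ S ∈ Sg, (if S ∈ Bad then MT g S z y else 0) := by
    rw [← sum_filter]
    refine sum_congr ?_ fun _ _ => rfl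
    ext S
    rw [mem_filter]
    exact ⟨fun h => ⟨hBad h, h⟩, fun h => h.2⟩
  rw [h3, add_mul, sum_mul, sum_mul, h5, add_sub_assoc, ← sum_sub_distrib]
  refine (abs_add_le _ _).trans (add_le_add ?_ ?_)
  · exact (abs_sum_le_sum_abs _ _).trans (sum_le_sum fun π hπ => hCP π hπ y hy)
  · exact (abs_sum_le_sum_abs _ _).trans (sum_le_sum fun S hS => hCS S hS y hy)

end Pool.Agent.L0h5.TE
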