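import Pool.Agent.L0h5.TE.D3

/-!
# The refined abstract bound with main terms, weights zero allowed
-/

set_option autoImplicit false

namespace Pool.Agent.L0h5.TE

open Finset Pool.Agent.W262.RK Pool.Agent.W262.RK.AT Pool.Agent.L0h5.AG Pool.Agent.L0h5.AH

/-- **The refined abstract bound with main terms, weights zero allowed.** -/
theorem ag2zm (ι : Type) [Fintype ι] [DecidableEq ι] (e : ι → ℝ) (L : ι → ι → Bool) (c : ℕ) (K : ℝ)
    (ep Gb γ Go : ℝ) (hep : 0 < ep) (hGb : 1 ≤ Gb) (hγ : 0 < γ) (hGo : 0 ≤ Go) (hK0 : 0 ≤ K)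
    (Sg Bad : Finset (Finset ι)) (hBad : Bad ⊆ Sg)
    (hBne : ∀ S ∈ Bad, ∀ S' ∈ Sg, (∀ i, 0 < e i → (i ∈ S ↔ i ∈ S')) → S = S')
    (he : ∀ i, 0 ≤ e i) (hL : ∀ i, L i i = false)
    (hK : ∀ U : Finset ι, (∀ i ∈ U, ∀ j ∈ U, L i j = L j i) →
      ∑ i ∈ U, e i ≤ K ∨ ∃ S ∈ Sg, U ⊆ S)
    (hS0 : ∀ S ∈ Sg, ∀ i ∈ S, ∀ j ∈ S, L i j = false)
    (hSS : ∀ S ∈ Sg, ∀ S' ∈ Sg, S ≠ S' → ∑ i ∈ S ∩ S', e i < K) :
    ∃ z0 : ℕ, ∀ z, z0 ≤ z → ∀ (g : ι → ℕ → ℝ) (Cg : ℝ),
      (∀ i, e i = 0 → ∀ p : ℕ, p.Prime → z < p → g i p = 0) →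
      (∀ i p, p.Prime → z < p → |g i p| ≤ (1 / 2) / ((p : ℝ) - c)) →
      (∀ i (y : ℕ), z < y → ∑ p ∈ PS z y, |g i p| ≤ e i * Real.log (Real.log y) + Cg) →
      (∀ S ∈ Sg, (S ∉ Bad ∧ (JtA g L S z K ∨ JtC e g L S z K ep Gb)) ∨
        (S ∈ Bad ∧ JtD e g L S z K γ Gb Go)) →
      ∃ C : ℝ, ∀ y, z < y →
        |∑ d ∈ Tup ι z y, (∏ i, gg g i (d i)) * Pool.Agent.W262.RK.Sym L (fun _ => 1) d -
          ∑ S ∈ Bad, MT g S z y| ≤ C * (Real.log y) ^ K := by
  classical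
  set Q : ι → Prop := fun i => 0 < e i with hQ
  set re : Finset ι → Finset {i // Q i} := fun S => univ.filter fun i => i.1 ∈ S with hre
  have mem_re : ∀ (S : Finset ι) (i : {i // Q i}), i ∈ re S ↔ i.1 ∈ S := by
    intro S i
    rw [hre]
    simp only [mem_filter, mem_univ, true_and]
  have hne : ∀ i, ¬ Q i → e i = 0 := fun i hi => le_antisymm (not_lt.1 hi) (he i)
  set up : Finset {i // Q i} → Finset ι := fun U => U.map ⟨Subtype.val, Subtype.val_injective⟩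
    with hup
  obtain ⟨z0, hz0⟩ := ag2m {i // Q i} (fun i => e i.1) (fun i j => L i.1 j.1) c K ep Gb γ Go hep hGb
    hγ hGo hK0 (Sg.image re) (Bad.image re) (image_subset_image hBad) (fun i => i.2) (fun i => hL i.1)
    (fun U hU => by
      have h1 : ∀ i ∈ up U, ∀ j ∈ up U, L i j = L j i := by
        intro i hi j hj
        obtain ⟨i', hi', rfl⟩ := mem_map.1 hi
        obtain ⟨j', hj', rfl⟩ := mem_map.1 hj
        exact hU i' hi' j' hj'
      rcases hK (up U) h1 with h2 | ⟨S, hS, h2⟩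
      · left
        rw [hup, sum_map] at h2
        exact h2
      · right
        refine ⟨re S, mem_image_of_mem _ hS, fun i hi => ?_⟩
        rw [mem_re]
        exact h2 (mem_map.2 ⟨i, hi, rfl⟩))
    (fun S hS i hi j hj => by
      obtain ⟨S', hS', rfl⟩ := mem_image.1 hS
      rw [mem_re] at hi hj
      exact hS0 S' hS' _ hi _ hj)
    (fun S hS S' hS' hne' => by
      obtain ⟨S1, hS1, rfl⟩ := mem_image.1 hS
      obtain ⟨S2, hS2, rfl⟩ := mem_image.1 hS'
      have h1 : S1 ≠ S2 := fun h => hne' (by rw [h])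
      have h2 := hSS S1 hS1 S2 hS2 h1
      rw [sum_sub0 Q (S1 ∩ S2) e hne] at h2
      have h3 : re S1 ∩ re S2 = univ.filter fun i : {i // Q i} => i.1 ∈ S1 ∩ S2 := by
        ext i
        rw [mem_inter, mem_re, mem_re, mem_filter, mem_inter]
        simp
      rw [h3]
      exact h2)
  refine ⟨z0, fun z hz g Cg hg0 hg1 hg2 hJ => ?_⟩
  have hgQ : ∀ i, ¬ Q i → ∀ p : ℕ, p.Prime → z < p → g i p = 0 := fun i hi => hg0 i (hne i hi)
  obtain ⟨C, hC⟩ := hz0 z hz (fun i => g i.1) Cg (fun i p hp hzp => hg1 i.1 p hp hzp)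
    (fun i y hy => hg2 i.1 y hy) (fun S hS => by
      obtain ⟨S1, hS1, rfl⟩ := mem_image.1 hS
      have key : ∀ (d : {i // Q i} → ℕ) (p : ℕ), p.Prime → z < p →
          ∑ i ∈ re S1, g i.1 p * XX (fun i j : {i // Q i} => L i.1 j.1) i d p =
            ∑ i ∈ S1, g i p * XX L i (ex1 Q d) p := by
        intro d p hp hzp
        rw [sum_sub0 Q S1 (fun i => g i p * XX L i (ex1 Q d) p)
          (fun i hi => by rw [hgQ i hi p hp hzp, zero_mul])]
        exact sum_congr rfl fun i _ => by rw [XX_sub]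
      have hmem : ∀ (y : ℕ) (d : {i // Q i} → ℕ), (∀ b, d b ∈ (PP z y).divisors) →
          ∀ b, ex1 Q d b ∈ (PP z y).divisors := by
        intro y d hd b
        by_cases hb : Q b
        · rw [ex1_mem d ⟨b, hb⟩]
          exact hd _
        · rw [ex1_not d hb, Nat.mem_divisors]
          exact ⟨one_dvd _, PP_ne_zero z y⟩
      have hone : ∀ (d : {i // Q i} → ℕ), (∀ b ∈ re S1, d b = 1) → ∀ b ∈ S1, ex1 Q d b = 1 := by
        intro d hd b hb
        by_cases hb' : Q b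
        · rw [ex1_mem d ⟨b, hb'⟩]
          exact hd _ ((mem_re _ _).2 hb)
        · exact ex1_not d hb'
      have hreS : ∀ S2 ∈ Bad, re S2 = re S1 → S2 = S1 := by
        intro S2 hS2 h
        refine hBne S2 hS2 S1 hS1 fun i hi => ?_
        rw [← mem_re S2 ⟨i, hi⟩, ← mem_re S1 ⟨i, hi⟩, h]
      rcases hJ S1 hS1 with ⟨hSb, h | h⟩ | ⟨hSb, h⟩
      · refine Or.inl ⟨?_, Or.inl ?_⟩
        · intro h'
          obtain ⟨S2, hS2, h'⟩ := mem_image.1 h'
          rw [hreS S2 hS2 h'] at hS2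
          exact hSb hS2
        obtain ⟨m, K', Cm, h1, h2, h3, h4⟩ := h
        refine ⟨m, K', Cm, h1, h2, h3, fun y hy d hd hd1 p hp hpd => ?_⟩
        rw [key d p (mem_PS.1 hp).2 (mem_PS.1 hp).1.1]
        refine h4 y hy (ex1 Q d) (hmem y d hd) (hone d hd1) p hp ?_
        rwa [prod_ex1]
      · refine Or.inl ⟨?_, Or.inr ?_⟩
        · intro h'
          obtain ⟨S2, hS2, h'⟩ := mem_image.1 h'
          rw [hreS S2 hS2 h'] at hS2
          exact hSb hS2
        obtain ⟨m, gp, Cm, TS, h0, h1, h2, h3, h4, h5, h6, h7⟩ := h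
        refine ⟨m, gp, Cm, re TS, ?_, h2, h3, h4, h5, fun y hy d hd hd1 p hp hpd => ?_, ?_⟩
        · intro i hi
          rw [mem_re] at hi ⊢
          exact h1 hi
        · have h8 := h6 y hy (ex1 Q d) (hmem y d hd) (hone d hd1) p hp (by rwa [prod_ex1])
          rw [key d p (mem_PS.1 hp).2 (mem_PS.1 hp).1.1]
          refine ⟨h8.1, fun i0 hi0 => ?_⟩
          rw [mem_re] at hi0
          have h9 := h8.2 i0.1 hi0
          rwa [XX_sub] at h9
        · intro j hj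
          rw [mem_re] at hj
          obtain ⟨i, hi, hij⟩ := h7 j.1 hj
          exact ⟨⟨i, h0 i hi⟩, (mem_re _ _).2 hi, hij⟩
      · refine Or.inr ⟨mem_image_of_mem _ hSb, ?_⟩
        obtain ⟨m, gp, K', ep', Cm, TS, h0, h1, hKe, h2, h3, h4, h5, hos, h6, h7⟩ := h
        refine ⟨m, gp, K', ep', Cm, re TS, ?_, ?_, hKe, h2, h3, h4, h5, hos,
          fun y hy d hd hd1 p hp hpd => ?_, ?_⟩
        · intro i _
          exact i.2
        · intro i hi
          rw [mem_re] at hi ⊢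
          exact h1 hi
        · have h8 := h6 y hy (ex1 Q d) (hmem y d hd) (hone d hd1) p hp (by rwa [prod_ex1])
          rw [key d p (mem_PS.1 hp).2 (mem_PS.1 hp).1.1]
          intro i0 hi0
          rw [mem_re] at hi0
          have h9 := h8 i0.1 hi0
          rwa [XX_sub] at h9
        · intro j hj
          rw [mem_re] at hj
          obtain ⟨i, hi, hij⟩ := h7 j.1 hj
          exact ⟨⟨i, h0 i hi⟩, (mem_re _ _).2 hi, hij⟩)
  refine ⟨C, fun y hy => ?_⟩
  have hMT : ∑ S ∈ Bad, MT g S z y = ∑ S ∈ Bad.image re, MT (fun i : {i // Q i} => g i.1) S z y := by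
    rw [sum_image]
    · refine sum_congr rfl fun S _ => ?_
      unfold MT
      refine prod_congr rfl fun p hp => ?_
      rw [sum_sub0 Q S (fun i => g i p) (fun i hi => hgQ i hi p (mem_PS.1 hp).2 (mem_PS.1 hp).1.1)]
    · intro S hS S' hS' h
      refine hBne S hS S' (hBad hS') fun i hi => ?_
      rw [← mem_re S ⟨i, hi⟩, ← mem_re S' ⟨i, hi⟩, h]
  rw [hMT]
  rw [sum_subT Q g L z y fun i hi p hp => hgQ i hi p (mem_PS.1 hp).2 (mem_PS.1 hp).1.1]
  exact hC y hy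

end Pool.Agent.L0h5.TE
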