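import Pool.Agent.L0h5.TH.Avg3
import Pool.Agent.L0h5.TE.D4
import Pool.Agent.L0h5.TF.Fam

/-!
# The conditions for a class with a main term
-/

set_option autoImplicit false
set_option linter.unusedSectionVars false

namespace Pool.Agent.L0h5.TE

open Finset Pool.Agent.W262.RK Pool.Agent.L0h5.TF Pool.Agent.L0h5.AG Pool.Agent.L0h5.AH
  Pool.Agent.L0h5.TH

/-- the exponent of the saving at the linear factors of the class -/
noncomputable def sv (q c : Fin 4) (sp lin : Bool) : ℝ :=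
  if c = q ∧ lin = true then th sp else 0

section

variable {J : Type} [Fintype J]

lemma sum_inv_sq (z y : ℕ) (hz : 1 ≤ z) : ∑ p ∈ PS z y, ((p : ℝ) ^ 2)⁻¹ ≤ 1 := by
  rcases Nat.lt_or_ge z y with hzy | hzy
  · have h4 : ∑ p ∈ PS z y, ((p : ℝ) ^ 2)⁻¹ ≤ ∑ p ∈ Ioc z y, ((p : ℝ) ^ 2)⁻¹ := by
      apply sum_le_sum_of_subset_of_nonneg (filter_subset _ _)
      intro p _ _
      positivity
    have h5 := sum_Ioc_inv_sq_le_sub (α := ℝ) (k := z) (n := y) (by omega) hzy.le
    have h6 : ((z : ℝ))⁻¹ ≤ 1 := by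
      apply inv_le_one_of_one_le₀
      exact_mod_cast (by omega : 1 ≤ z)
    have h7 : (0 : ℝ) ≤ ((y : ℝ))⁻¹ := by positivity
    linarith
  · have : PS z y = ∅ := by
      unfold PS
      rw [Ioc_eq_empty (by omega), filter_empty]
    rw [this, sum_empty]
    exact zero_le_one

/-- the weights of the linear factors of the class -/
noncomputable def gl (q : Fin 4) (cls : J → Fin 4) (lin : J → Bool) (kap : J → ℕ → Fin 3 → ℤ)
    (R : J → ℕ → Finset ℕ) (p : ℕ) : ℝ :=
  (∑ j, if cls j = q ∧ lin j = true then ((Rz kap R j p).card : ℝ) else 0) / p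

variable {cls : J → Fin 4} {ev sp lin : J → Bool} {c z : ℕ} {kap : J → ℕ → Fin 3 → ℤ}
    {R : J → ℕ → Finset ℕ} {Cj : ℝ} {B0 : ℕ} {q : Fin 4}

lemma gl_nn (p : ℕ) : 0 ≤ gl q cls lin kap R p := by
  unfold gl
  refine div_nonneg (sum_nonneg fun j _ => ?_) (Nat.cast_nonneg _)
  split_ifs
  · exact Nat.cast_nonneg _
  · exact le_rfl

lemma gl_le (hR0 : ∀ p : ℕ, p.Prime → z < p → ∑ j, (R j p).card ≤ B0) {p : ℕ} (hp : p.Prime)
    (hz : z < p) : gl q cls lin kap R p ≤ (2 * B0 + 1) / (p : ℝ) := by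
  unfold gl
  apply div_le_div_of_nonneg_right _ (Nat.cast_nonneg _)
  have h1 : ∑ j, (if cls j = q ∧ lin j = true then ((Rz kap R j p).card : ℝ) else 0) ≤
      ∑ j, ((R j p).card : ℝ) := by
    refine sum_le_sum fun j _ => ?_
    split_ifs
    · exact_mod_cast card_filter_le _ _
    · exact Nat.cast_nonneg _
  have h2 : ∑ j, ((R j p).card : ℝ) ≤ B0 := by exact_mod_cast hR0 p hp hz
  have h3 : (0 : ℝ) ≤ B0 := Nat.cast_nonneg _
  linarith

lemma gl_sum (hz : 2 * c + 3 ≤ z) (hR0 : ∀ p : ℕ, p.Prime → z < p → ∑ j, (R j p).card ≤ B0)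
    (H2 : ∀ j : J, cls j ≠ 3 → ∀ y : ℕ, z < y →
      |∑ p ∈ PS z y, ((Rz kap R j p).card : ℝ) / ((p : ℝ) - c) -
        th (sp j) * Real.log (Real.log y)| ≤ Cj) (hq : q ≠ 3) {y : ℕ} (hy : z < y)
    (hCj : 0 ≤ Cj) :
    (∑ j, sv q (cls j) (sp j) (lin j)) * Real.log (Real.log y) -
      Fintype.card J * (Cj + 2 * c * B0) ≤ ∑ p ∈ PS z y, gl q cls lin kap R p := by
  have h0 : ∑ p ∈ PS z y, gl q cls lin kap R p =
      ∑ j, ∑ p ∈ PS z y, (if cls j = q ∧ lin j = true then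
        ((Rz kap R j p).card : ℝ) / p else 0) := by
    unfold gl
    rw [sum_comm]
    refine sum_congr rfl fun p _ => ?_
    rw [sum_div]
    refine sum_congr rfl fun j _ => ?_
    split_ifs <;> simp
  rw [h0, sum_mul, ← nsmul_eq_mul, ← card_univ, ← sum_const, ← sum_sub_distrib]
  refine sum_le_sum fun j _ => ?_
  unfold sv
  by_cases hj : cls j = q ∧ lin j = true
  · rw [if_pos hj]
    simp only [hj, and_self, if_true]
    have h1 := (abs_le.1 (H2 j (by rw [hj.1]; exact hq) y hy)).1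
    have h2 : ∑ p ∈ PS z y, ((Rz kap R j p).card : ℝ) / ((p : ℝ) - c) ≤
        ∑ p ∈ PS z y, ((Rz kap R j p).card : ℝ) / p + ∑ p ∈ PS z y,
          (2 * c * B0) * ((p : ℝ) ^ 2)⁻¹ := by
      rw [← sum_add_distrib]
      refine sum_le_sum fun p hp => ?_
      obtain ⟨⟨h3, h4⟩, h5⟩ := mem_PS.1 hp
      have h6 : (2 * c + 3 : ℝ) ≤ p := by exact_mod_cast (by omega : 2 * c + 3 ≤ p)
      have hc0 : (0 : ℝ) ≤ c := Nat.cast_nonneg c
      have hp0 : (0 : ℝ) < p := by linarith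
      have h8 : (0 : ℝ) < (p : ℝ) - c := by linarith
      have h9 : ((Rz kap R j p).card : ℝ) ≤ B0 := by
        have h10 : (Rz kap R j p).card ≤ ∑ j, (R j p).card :=
          (card_filter_le _ _).trans (single_le_sum (f := fun j => (R j p).card)
            (fun _ _ => Nat.zero_le _) (mem_univ j))
        exact_mod_cast h10.trans (hR0 p h5 h3)
      have h10 : (0 : ℝ) ≤ (Rz kap R j p).card := Nat.cast_nonneg _
      have h11 : ((Rz kap R j p).card : ℝ) / ((p : ℝ) - c) = ((Rz kap R j p).card : ℝ) / p +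
          ((Rz kap R j p).card : ℝ) * (c / (p * (p - c))) := by
        field_simp
        ring
      have h12 : (c : ℝ) / (p * (p - c)) ≤ 2 * c * ((p : ℝ) ^ 2)⁻¹ := by
        rw [← div_eq_mul_inv, div_le_div_iff₀ (by positivity) (by positivity)]
        nlinarith [mul_nonneg (mul_nonneg hc0 hp0.le) (by linarith : (0 : ℝ) ≤ p - 2 * c)]
      have h13 : (0 : ℝ) ≤ c / (p * (p - c)) := by positivity
      rw [h11]
      have h14 := mul_le_mul h9 h12 h13 (Nat.cast_nonneg B0)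
      linarith [h14]
    have h3 : ∑ p ∈ PS z y, (2 * c * B0 : ℝ) * ((p : ℝ) ^ 2)⁻¹ ≤ 2 * c * B0 := by
      rw [← mul_sum]
      exact mul_le_of_le_one_right (by positivity) (sum_inv_sq z y (by omega))
    linarith
  · rw [if_neg hj]
    simp only [hj, if_false, sum_const_zero, zero_mul]
    have : (0 : ℝ) ≤ 2 * c * B0 := by positivity
    linarith

lemma gl_one_sided (hz : 2 ≤ z) (κ0 : J → ℤ) (hlin : ∀ j, lin j = true → κ0 j ≠ 0 ∧
      (κ0 j).natAbs ≤ z ∧ ∀ p : ℕ, p.Prime → z < p → (R j p).card = 1 ∧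
          ∀ r ∈ R j p, sg0 p (kap j r 0) = sg0 p (κ0 j)) :
    ∃ C : ℝ, 0 ≤ C ∧ ∀ (y r : ℕ) (t : Bool), z < y → 1 < r → Squarefree r →
      (∀ p : ℕ, p.Prime → p ∣ r → z < p) →
      ∑ p ∈ PS z y, gl q cls lin kap R p * ps r t p ≤
        Fintype.card J * Real.log (Real.log r) + C := by
  obtain ⟨C1, hC1⟩ := Pool.Agent.W586.RK.UB.ub 1 z one_ne_zero hz (by simpa using by omega)
  have h1 : ∀ j, ∃ C : ℝ, lin j = true → ∀ (y r : ℕ) (e : Bool), z < y → 1 < r → Squarefree r →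
      (∀ p : ℕ, p.Prime → p ∣ r → z < p) →
      ∑ p ∈ PS z y, Jr p r * Jr (κ0 j) p * x4 e p / (p : ℝ) ≤ Real.log (Real.log r) + C := by
    intro j
    by_cases hj : lin j = true
    · obtain ⟨C, hC⟩ := Pool.Agent.W586.RK.UB.ub (κ0 j) z (hlin j hj).1 hz (hlin j hj).2.1
      exact ⟨C, fun _ => hC⟩
    · exact ⟨0, fun h => absurd h hj⟩
  choose C2 hC2 using h1
  refine ⟨∑ j, (|C1| + |C2 j|), sum_nonneg fun j _ => by positivity,
    fun y r t hy hr hrs hrp => ?_⟩
  have h0 : ∑ p ∈ PS z y, gl q cls lin kap R p * ps r t p =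
      ∑ j, ∑ p ∈ PS z y, (if cls j = q ∧ lin j = true then
        ((Rz kap R j p).card : ℝ) / p * ps r t p else 0) := by
    unfold gl
    rw [sum_comm]
    refine sum_congr rfl fun p _ => ?_
    rw [sum_div, sum_mul]
    refine sum_congr rfl fun j _ => ?_
    split_ifs <;> simp
  have hr3 : 3 ≤ r := by
    obtain ⟨p, hp, hpr⟩ := Nat.exists_prime_and_dvd (by omega : r ≠ 1)
    have h1 := hrp p hp hpr
    have h2 := Nat.le_of_dvd (by omega) hpr
    omega
  have hll : 0 ≤ Real.log (Real.log r) := by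
    have h1 : (3 : ℝ) ≤ r := by exact_mod_cast hr3
    apply Real.log_nonneg
    rw [Real.le_log_iff_exp_le (by linarith)]
    have := Real.exp_one_lt_d9
    linarith
  rw [h0, ← nsmul_eq_mul, ← card_univ, ← sum_const, ← sum_add_distrib]
  refine sum_le_sum fun j _ => ?_
  by_cases hj : cls j = q ∧ lin j = true
  · simp only [hj, and_self, if_true]
    have h2 := hC1 y r t hy hr hrs hrp
    have h3 := hC2 j hj.2 y r t hy hr hrs hrp
    obtain ⟨hκ0, hκz, hκ⟩ := hlin j hj.2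
    have h4 : ∑ p ∈ PS z y, ((Rz kap R j p).card : ℝ) / p * ps r t p =
        (1 / 2) * ∑ p ∈ PS z y, Jr p r * Jr 1 p * x4 t p / (p : ℝ) +
        (1 / 2) * ∑ p ∈ PS z y, Jr p r * Jr (κ0 j) p * x4 t p / (p : ℝ) := by
      rw [mul_sum, mul_sum, ← sum_add_distrib]
      refine sum_congr rfl fun p hp => ?_
      obtain ⟨⟨h5, h6⟩, h7⟩ := mem_PS.1 hp
      obtain ⟨h8, h9⟩ := hκ p h7 h5
      obtain ⟨r0, hr0⟩ := card_eq_one.1 h8
      have h10 : ¬ (p : ℤ) ∣ κ0 j := by
        intro hd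
        have := Nat.le_of_dvd (Int.natAbs_pos.2 hκ0) (Int.natCast_dvd.1 hd)
        omega
      have h11 : ((Rz kap R j p).card : ℝ) = (1 + Jr (κ0 j) p) / 2 := by
        unfold Rz
        rw [hr0, filter_singleton, h9 r0 (by rw [hr0]; exact mem_singleton_self _)]
        unfold sg0 Jr
        rcases jac_unit h7 h10 with h | h <;> rw [h] <;> norm_num
      have h12 : Jr 1 p = 1 := by
        unfold Jr
        rw [jacobiSym.one_left]
        norm_num
      rw [h11, h12]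
      unfold ps
      ring
    rw [h4]
    have h6 := le_abs_self C1
    have h7 := le_abs_self (C2 j)
    linarith [abs_nonneg C1, abs_nonneg (C2 j)]
  · simp only [hj, if_false, sum_const_zero]
    positivity

end

end Pool.Agent.L0h5.TE
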