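import Pool.Agent.L0h5.TE.Low
import Pool.Agent.L0h5.TH.Core
import Pool.Agent.W655.RK.Full

/-!
# Averages of fractional powers of the local counts
-/

set_option autoImplicit false
set_option linter.unusedSectionVars false

namespace Pool.Agent.L0h5.TE

open Finset Pool.Agent.W262.RK Pool.Agent.L0h5.TF

section

variable {St : Type}

/-- the conditions of an assignment -/
noncomputable def LAs (LS : St → ℕ → Bool → Bool → Bool → Bool → Prop) (S : Finset ℕ)
    (σ : ∀ p ∈ S, St) : ℕ → Bool → Bool → Bool → Bool → Prop := fun p =>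
  if h : p ∈ S then LS (σ p h) p else fun _ _ _ _ => True

/-- the average of the power of the local counts -/
noncomputable def GE (Sp : ℕ → Finset St) (LS : St → ℕ → Bool → Bool → Bool → Bool → Prop)
    (ε : ℝ) (s : ℕ) : ℝ :=
  ∑ σ ∈ s.primeFactors.pi Sp, (1 / 2) ^ s.primeFactors.card *
    (NL s (LAs LS s.primeFactors σ) : ℝ) ^ ε

lemma GE_nonneg (Sp : ℕ → Finset St) (LS : St → ℕ → Bool → Bool → Bool → Bool → Prop)
    (ε : ℝ) (s : ℕ) : 0 ≤ GE Sp LS ε s := by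
  unfold GE
  exact sum_nonneg fun σ _ => mul_nonneg (by positivity) (Real.rpow_nonneg (Nat.cast_nonneg _) _)

lemma LAs_mem {LS : St → ℕ → Bool → Bool → Bool → Bool → Prop} {S : Finset ℕ}
    {σ : ∀ p ∈ S, St} {p : ℕ} (h : p ∈ S) : LAs LS S σ p = LS (σ p h) p := by
  unfold LAs
  rw [dif_pos h]

/-- the sum of a product over the assignments -/
lemma pi_prod (Sp : ℕ → Finset St) (LS : St → ℕ → Bool → Bool → Bool → Bool → Prop)
    (S : Finset ℕ) (F : (Bool → Bool → Bool → Bool → Prop) → ℕ → ℝ) :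
    ∑ σ ∈ S.pi Sp, (1 / 2) ^ S.card * ∏ p ∈ S, F (LAs LS S σ p) p =
      ∏ p ∈ S, ∑ σ ∈ Sp p, (1 / 2) * F (LS σ p) p := by
  classical
  rw [prod_sum S Sp fun p σ => (1 / 2 : ℝ) * F (LS σ p) p]
  refine sum_congr rfl fun σ _ => ?_
  rw [prod_mul_distrib, prod_const, card_attach]
  congr 1
  rw [← prod_attach S fun p => F (LAs LS S σ p) p]
  refine prod_congr rfl fun x _ => ?_
  rw [LAs_mem x.2]

/-- the first power -/
lemma GE_one (Sp : ℕ → Finset St) (LS : St → ℕ → Bool → Bool → Bool → Bool → Prop)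
    (lam : ℕ → Vk 1 → Vk 1 → ℝ) (s : ℕ)
    (hlam : ∀ p ∈ s.primeFactors, ∀ v h, lam p v h =
      ∑ σ ∈ Sp p, (1 / 2) * ∏ i, iL (LS σ p) (v i) (h i)) :
    ∑ σ ∈ s.primeFactors.pi Sp, (1 / 2) ^ s.primeFactors.card *
      (NL s (LAs LS s.primeFactors σ) : ℝ) = Gs lam s := by
  classical
  rw [Gs_def]
  have h1 : ∀ D ∈ Dv 1 s, ∏ p ∈ s.primeFactors, lam p (bv p D) (bs p D) =
      ∑ σ ∈ s.primeFactors.pi Sp, (1 / 2) ^ s.primeFactors.card *
        ∏ p ∈ s.primeFactors, ∏ i, iL (LAs LS s.primeFactors σ p) (bv p D i) (bs p D i) := by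
    intro D _
    rw [prod_congr rfl fun p hp => hlam p hp (bv p D) (bs p D)]
    exact (pi_prod Sp LS s.primeFactors fun L p => ∏ i, iL L (bv p D i) (bs p D i)).symm
  rw [sum_congr rfl h1, sum_comm]
  refine sum_congr rfl fun σ _ => ?_
  rw [← mul_sum, ← NL_pow, pow_one]

lemma rpow_le_one_add {x ε : ℝ} (hx : 0 ≤ x) (h0 : 0 ≤ ε) (h1 : ε ≤ 1) : x ^ ε ≤ 1 + x := by
  rcases le_total x 1 with h | h
  · have := Real.rpow_le_one hx h h0
    linarith
  · have := Real.rpow_le_rpow_of_exponent_le h h1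
    rw [Real.rpow_one] at this
    linarith

lemma rpow_add_le {x y ε : ℝ} (hx : 0 ≤ x) (hy : 0 ≤ y) (h0 : 0 ≤ ε) (h1 : ε ≤ 1) :
    (x + y) ^ ε ≤ x ^ ε + y ^ ε := by
  have := NNReal.rpow_add_le_add_rpow ⟨x, hx⟩ ⟨y, hy⟩ h0 h1
  exact_mod_cast this

lemma rpow_sum_le {ι : Type} (s : Finset ι) (f : ι → ℝ) (hf : ∀ i ∈ s, 0 ≤ f i) {ε : ℝ}
    (h0 : 0 < ε) (h1 : ε ≤ 1) : (∑ i ∈ s, f i) ^ ε ≤ ∑ i ∈ s, (f i) ^ ε := by
  classical
  induction s using Finset.induction_on with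
  | empty => rw [sum_empty, sum_empty, Real.zero_rpow h0.ne']
  | insert i s hi ih =>
    rw [sum_insert hi, sum_insert hi]
    refine (rpow_add_le (hf i (mem_insert_self _ _))
      (sum_nonneg fun j hj => hf j (mem_insert_of_mem hj)) h0.le h1).trans ?_
    exact add_le_add_right (ih fun j hj => hf j (mem_insert_of_mem hj)) _

lemma tq_nonneg (e : Bool × Bool) (L : Bool → Bool → Bool → Bool → Prop) : 0 ≤ tq e L := by
  unfold tq
  exact mul_nonneg (by norm_num) (sum_nonneg fun _ _ => sum_nonneg fun _ _ => iL_nonneg _ _ _)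

/-- the bound of the power of a count by the main terms -/
lemma NL_rpow_le (hlow : LOWNL) {s : ℕ} {L : ℕ → Bool → Bool → Bool → Bool → Prop}
    (hs : Squarefree s) (hXC : ∀ p, p.Prime → p ∣ s → XC (L p)) (E : Finset (Bool × Bool))
    (hE0 : ∀ e ∈ E, e ≠ (false, false)) (hE2 : E.card ≤ 2) {ε : ℝ} (h0 : 0 < ε) (h1 : ε ≤ 1) :
    (NL s L : ℝ) ^ ε ≤ ∑ e ∈ E, ∏ p ∈ s.primeFactors, (tq e (L p)) ^ ε + 2 +
      ((NL s L : ℝ) - ∑ e ∈ E, ∏ p ∈ s.primeFactors, tq e (L p)) := by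
  classical
  set T : Bool × Bool → ℝ := fun e => ∏ p ∈ s.primeFactors, tq e (L p) with hT
  have hT0 : ∀ e, 0 ≤ T e := fun e => prod_nonneg fun p _ => tq_nonneg _ _
  set n : ℝ := (NL s L : ℝ) with hn
  have hr : 0 ≤ (n - ∑ e ∈ E, T e) + 1 := by
    have hn0 : 0 ≤ n := Nat.cast_nonneg _
    rcases Nat.lt_or_ge E.card 1 with h | h
    · have : E = ∅ := card_eq_zero.1 (by omega)
      rw [this, sum_empty]
      linarith
    rcases Nat.lt_or_ge E.card 2 with h' | h'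
    · obtain ⟨e, rfl⟩ := card_eq_one.1 (by omega : E.card = 1)
      rw [sum_singleton]
      have he := hE0 e (mem_singleton_self _)
      obtain ⟨e', he', hee'⟩ : ∃ e' : Bool × Bool, e' ≠ (false, false) ∧ e ≠ e' := by
        clear hE0 hE2 h h'
        revert e
        decide
      have := (hlow s L hs hXC e e' he he' hee').1
      linarith
    · obtain ⟨e, e', hee', hEE⟩ := card_eq_two.1 (by omega : E.card = 2)
      subst hEE
      rw [sum_pair hee']
      have := (hlow s L hs hXC e e' (hE0 e (by simp)) (hE0 e' (by simp)) hee').2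
      linarith
  have h2 : n = (∑ e ∈ E, T e) + ((n - ∑ e ∈ E, T e)) := by ring
  have h3 : n ≤ (∑ e ∈ E, T e) + ((n - ∑ e ∈ E, T e) + 1) := by linarith
  have h4 : n ^ ε ≤ ((∑ e ∈ E, T e) + ((n - ∑ e ∈ E, T e) + 1)) ^ ε :=
    Real.rpow_le_rpow (Nat.cast_nonneg _) h3 h0.le
  have hS0 : 0 ≤ ∑ e ∈ E, T e := sum_nonneg fun e _ => hT0 e
  have h5 := rpow_add_le hS0 hr h0.le h1
  have h6 := rpow_sum_le E T (fun e _ => hT0 e) h0 h1
  have h7 := rpow_le_one_add hr h0.le h1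
  have h8 : ∀ e ∈ E, (T e) ^ ε = ∏ p ∈ s.primeFactors, (tq e (L p)) ^ ε := fun e _ =>
    (Real.finset_prod_rpow _ _ (fun p _ => tq_nonneg _ _) _).symm
  rw [sum_congr rfl h8] at h6
  linarith

/-- the bound of the average of the power -/
lemma GE_le (hlow : LOWNL) (Sp : ℕ → Finset St)
    (LS : St → ℕ → Bool → Bool → Bool → Bool → Prop) (lam : ℕ → Vk 1 → Vk 1 → ℝ) (s : ℕ)
    (hs : Squarefree s) (hlam : ∀ p ∈ s.primeFactors, ∀ v h, lam p v h =
      ∑ σ ∈ Sp p, (1 / 2) * ∏ i, iL (LS σ p) (v i) (h i))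
    (hXC : ∀ p ∈ s.primeFactors, ∀ σ ∈ Sp p, XC (LS σ p)) (E : Finset (Bool × Bool))
    (hE0 : ∀ e ∈ E, e ≠ (false, false)) (hE2 : E.card ≤ 2) {ε : ℝ} (h0 : 0 < ε) (h1 : ε ≤ 1) :
    GE Sp LS ε s ≤ ∑ e ∈ E, ∏ p ∈ s.primeFactors, (∑ σ ∈ Sp p, (1 / 2) * (tq e (LS σ p)) ^ ε) +
      2 * ∏ p ∈ s.primeFactors, (∑ _σ ∈ Sp p, (1 / 2 : ℝ)) +
      (Gs lam s - ∑ e ∈ E, ∏ p ∈ s.primeFactors, (∑ σ ∈ Sp p, (1 / 2) * tq e (LS σ p))) := by
  classical
  have h2 : ∀ e ∈ E, ∏ p ∈ s.primeFactors, (∑ σ ∈ Sp p, (1 / 2) * (tq e (LS σ p)) ^ ε) =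
      ∑ σ ∈ s.primeFactors.pi Sp, (1 / 2) ^ s.primeFactors.card *
        ∏ p ∈ s.primeFactors, (tq e (LAs LS s.primeFactors σ p)) ^ ε := fun e _ =>
    (pi_prod Sp LS s.primeFactors fun L _ => (tq e L) ^ ε).symm
  have h3 : ∀ e ∈ E, ∏ p ∈ s.primeFactors, (∑ σ ∈ Sp p, (1 / 2) * tq e (LS σ p)) =
      ∑ σ ∈ s.primeFactors.pi Sp, (1 / 2) ^ s.primeFactors.card *
        ∏ p ∈ s.primeFactors, tq e (LAs LS s.primeFactors σ p) := fun e _ =>
    (pi_prod Sp LS s.primeFactors fun L _ => tq e L).symm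
  have h4 : ∏ p ∈ s.primeFactors, (∑ _σ ∈ Sp p, (1 / 2 : ℝ)) =
      ∑ σ ∈ s.primeFactors.pi Sp, (1 / 2 : ℝ) ^ s.primeFactors.card := by
    have h5 := pi_prod Sp LS s.primeFactors fun _ _ => (1 : ℝ)
    simp only [prod_const_one, mul_one] at h5
    exact h5.symm
  rw [sum_congr rfl h2, sum_congr rfl h3, h4, ← GE_one Sp LS lam s hlam, sum_comm,
    sum_comm (s := E) (t := s.primeFactors.pi Sp), mul_sum, ← sum_sub_distrib, ← sum_add_distrib,
    ← sum_add_distrib]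
  unfold GE
  refine sum_le_sum fun σ hσ => ?_
  rw [mem_pi] at hσ
  have h5 := NL_rpow_le hlow (L := LAs LS s.primeFactors σ) hs (fun p hp hps => by
    have hpS : p ∈ s.primeFactors := Nat.mem_primeFactors.2 ⟨hp, hps, hs.ne_zero⟩
    rw [LAs_mem hpS]
    exact hXC p hpS _ (hσ p hpS)) E hE0 hE2 h0 h1
  have h6 : (0 : ℝ) ≤ (1 / 2) ^ s.primeFactors.card := by positivity
  refine (mul_le_mul_of_nonneg_left h5 h6).trans (le_of_eq ?_)
  rw [← mul_sum, ← mul_sum]
  ring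

/-- the growth of the average -/
lemma GE_sub (Sp : ℕ → Finset St)
    (LS : St → ℕ → Bool → Bool → Bool → Bool → Prop)
    (b1 : ℝ) (m e : ℕ) (hme : Squarefree (m * e))
    (hb : ∀ p, p.Prime → p ∣ e → (1 / 2) * ((Sp p).card : ℝ) ≤ b1)
    (hXC : ∀ p, p.Prime → p ∣ m → ∀ σ ∈ Sp p, XC (LS σ p)) {ε : ℝ} (h0 : 0 ≤ ε) (h1 : ε ≤ 1) :
    GE Sp LS ε (m * e) ≤ (4 * b1) ^ e.primeFactors.card * GE Sp LS ε m := by
  classical
  have hm0 : m ≠ 0 := left_ne_zero_of_mul hme.ne_zero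
  have he0 : e ≠ 0 := right_ne_zero_of_mul hme.ne_zero
  have hco : m.Coprime e := Nat.coprime_of_squarefree_mul hme
  have hpf : (m * e).primeFactors = m.primeFactors ∪ e.primeFactors :=
    Nat.primeFactors_mul hm0 he0
  have hdj : Disjoint m.primeFactors e.primeFactors := hco.disjoint_primeFactors
  set S := (m * e).primeFactors with hS
  have hmS : m.primeFactors ⊆ S := by rw [hpf]; exact subset_union_left
  have heS : e.primeFactors ⊆ S := by rw [hpf]; exact subset_union_right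
  have hcard : S.card = m.primeFactors.card + e.primeFactors.card := by
    rw [hpf, card_union_of_disjoint hdj]
  set res : (∀ p ∈ S, St) → (∀ p ∈ m.primeFactors, St) := fun σ p hp => σ p (hmS hp) with hres
  set g : (∀ p ∈ m.primeFactors, St) → ℝ := fun τ =>
    (NL m (LAs LS m.primeFactors τ) : ℝ) ^ ε with hg
  have hg0 : ∀ τ, 0 ≤ g τ := fun τ => Real.rpow_nonneg (Nat.cast_nonneg _) _
  have hNLm : ∀ σ : (∀ p ∈ S, St), NL m (LAs LS S σ) = NL m (LAs LS m.primeFactors (res σ)) := by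
    intro σ
    unfold NL
    congr 1
    refine filter_congr fun d _ => ?_
    refine forall₂_congr fun p hp => ?_
    rw [LAs_mem hp, LAs_mem (hmS hp)]
  have hstep : ∀ σ ∈ S.pi Sp, (1 / 2 : ℝ) ^ S.card * (NL (m * e) (LAs LS S σ) : ℝ) ^ ε ≤
      (4 : ℝ) ^ e.primeFactors.card * ((1 / 2) ^ S.card * g (res σ)) := by
    intro σ hσ
    rw [mem_pi] at hσ
    have h2 := Pool.Agent.W125.RK2.sub4 m e (LAs LS S σ) hme (fun p hp hpm => by
      have hpS : p ∈ S := Nat.mem_primeFactors.2 ⟨hp, hpm.trans (Dvd.intro _ rfl), hme.ne_zero⟩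
      rw [LAs_mem hpS]
      exact hXC p hp hpm _ (hσ p hpS))
    have h3 : (NL (m * e) (LAs LS S σ) : ℝ) ≤ 4 ^ e.primeFactors.card *
        (NL m (LAs LS S σ) : ℝ) := by
      exact_mod_cast h2
    have h4 := Real.rpow_le_rpow (Nat.cast_nonneg _) h3 h0
    rw [Real.mul_rpow (by positivity) (Nat.cast_nonneg _)] at h4
    have h5 : ((4 : ℝ) ^ e.primeFactors.card) ^ ε ≤ 4 ^ e.primeFactors.card := by
      have h6 : (1 : ℝ) ≤ 4 ^ e.primeFactors.card := one_le_pow₀ (by norm_num)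
      have h7 := Real.rpow_le_rpow_of_exponent_le h6 h1
      rwa [Real.rpow_one] at h7
    have h6 : (NL (m * e) (LAs LS S σ) : ℝ) ^ ε ≤ 4 ^ e.primeFactors.card * g (res σ) := by
      refine h4.trans ?_
      rw [hNLm σ]
      exact mul_le_mul_of_nonneg_right h5 (hg0 _)
    have h7 : (0 : ℝ) ≤ (1 / 2) ^ S.card := by positivity
    refine (mul_le_mul_of_nonneg_left h6 h7).trans (le_of_eq (by ring))
  have hfib : ∑ σ ∈ S.pi Sp, g (res σ) ≤
      (∏ p ∈ e.primeFactors, ((Sp p).card : ℝ)) * ∑ τ ∈ m.primeFactors.pi Sp, g τ := by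
    have hmaps : ∀ σ ∈ S.pi Sp, res σ ∈ m.primeFactors.pi Sp := by
      intro σ hσ
      rw [mem_pi] at hσ ⊢
      exact fun p hp => hσ p (hmS hp)
    rw [← sum_fiberwise_of_maps_to hmaps, mul_sum]
    refine sum_le_sum fun τ _ => ?_
    have h2 : ∀ σ ∈ (S.pi Sp).filter (fun σ => res σ = τ), g (res σ) = g τ := by
      intro σ hσ
      rw [(mem_filter.1 hσ).2]
    rw [sum_congr rfl h2, sum_const, nsmul_eq_mul]
    refine mul_le_mul_of_nonneg_right ?_ (hg0 τ)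
    have h3 : ((S.pi Sp).filter (fun σ => res σ = τ)).card ≤ (e.primeFactors.pi Sp).card := by
      apply card_le_card_of_injOn (fun σ p hp => σ p (heS hp))
      · intro σ hσ
        have hσ' := (mem_filter.1 (mem_coe.1 hσ)).1
        rw [mem_pi] at hσ'
        rw [mem_coe, mem_pi]
        exact fun p hp => hσ' p (heS hp)
      · intro σ hσ σ' hσ' h
        have h4 := (mem_filter.1 (mem_coe.1 hσ)).2
        have h5 := (mem_filter.1 (mem_coe.1 hσ')).2
        funext p hp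
        have hp' := hp
        rw [hpf, mem_union] at hp'
        rcases hp' with h6 | h6
        · have h7 : res σ = res σ' := h4.trans h5.symm
          exact congrFun (congrFun h7 p) h6
        · exact congrFun (congrFun h p) h6
    rw [card_pi] at h3
    exact_mod_cast h3
  unfold GE
  refine (sum_le_sum hstep).trans ?_
  rw [← mul_sum, ← mul_sum]
  have h2 : (∏ p ∈ e.primeFactors, ((Sp p).card : ℝ)) ≤
      (2 : ℝ) ^ e.primeFactors.card * b1 ^ e.primeFactors.card := by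
    rw [← mul_pow, ← prod_const]
    refine prod_le_prod (fun p _ => Nat.cast_nonneg _) fun p hp => ?_
    have := hb p (Nat.prime_of_mem_primeFactors hp) (Nat.dvd_of_mem_primeFactors hp)
    linarith
  have h3 : 0 ≤ ∑ τ ∈ m.primeFactors.pi Sp, g τ := sum_nonneg fun τ _ => hg0 τ
  have h4 := hfib.trans (mul_le_mul_of_nonneg_right h2 h3)
  have h5 : (0 : ℝ) ≤ (4 : ℝ) ^ e.primeFactors.card * (1 / 2) ^ S.card := by positivity
  have h6 := mul_le_mul_of_nonneg_left h4 h5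
  rw [← mul_sum]
  refine le_trans (le_of_eq (by ring)) (h6.trans (le_of_eq ?_))
  rw [hcard, pow_add, mul_pow]
  have h7 : ((1 : ℝ) / 2) ^ e.primeFactors.card * 2 ^ e.primeFactors.card = 1 := by
    rw [← mul_pow]
    norm_num
  calc (4 : ℝ) ^ e.primeFactors.card * ((1 / 2) ^ m.primeFactors.card *
        (1 / 2) ^ e.primeFactors.card) * (2 ^ e.primeFactors.card * b1 ^ e.primeFactors.card *
        ∑ τ ∈ m.primeFactors.pi Sp, g τ) = 4 ^ e.primeFactors.card * b1 ^ e.primeFactors.card *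
        ((1 / 2) ^ m.primeFactors.card * ∑ τ ∈ m.primeFactors.pi Sp, g τ) *
        (((1 : ℝ) / 2) ^ e.primeFactors.card * 2 ^ e.primeFactors.card) := by ring
    _ = _ := by rw [h7, mul_one]

end

end Pool.Agent.L0h5.TE
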