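import Pool.Agent.L0h5.TE.D7

/-!
# The average of the fractional power, and the abstract main estimate
-/

set_option autoImplicit false
set_option linter.unusedSectionVars false

namespace Pool.Agent.L0h5.TE

open Finset Pool.Agent.W262.RK Pool.Agent.L0h5.TF Pool.Agent.L0h5.TH

section

variable {St : Type}

lemma sum_gw (F : ℕ → ℝ) (c z y : ℕ) :
    ∑ s ∈ (PP z y).divisors, (∏ p ∈ s.primeFactors, F p) * gw 1 c s =
      ∏ p ∈ PS z y, (1 + F p / ((p : ℝ) - c)) := by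
  unfold PP
  rw [← Pool.Agent.W655.RK.sum_mult (PS z y) (fun p hp => (mem_PS.1 hp).2)
    (fun p => F p / ((p : ℝ) - c))]
  refine sum_congr rfl fun s _ => ?_
  unfold gw
  rw [← prod_mul_distrib]
  refine prod_congr rfl fun p _ => ?_
  ring

lemma prod_le_pow {F : ℕ → ℝ} {c z y N : ℕ} {C2 : ℝ} (hcz : 2 * c + 2 ≤ z) (hzy : z < y)
    (hF0 : ∀ p ∈ PS z y, 0 ≤ F p)
    (h : ∑ p ∈ PS z y, F p / ((p : ℝ) - c) ≤ N * Real.log (Real.log y) + C2) :
    ∏ p ∈ PS z y, (1 + F p / ((p : ℝ) - c)) ≤ Real.exp C2 * (Real.log y) ^ N := by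
  have h1 : ∀ p ∈ PS z y, 0 ≤ F p / ((p : ℝ) - c) := by
    intro p hp
    have h2 := (mem_PS.1 hp).1.1
    have h3 : (c : ℝ) ≤ p := by exact_mod_cast (by omega : c ≤ p)
    exact div_nonneg (hF0 p hp) (by linarith)
  refine (Pool.Agent.W655.RK.prod_le_exp _ _ fun p hp => by
    have := h1 p hp
    linarith).trans ?_
  have hy : (1 : ℝ) < y := by exact_mod_cast (by omega : 1 < y)
  have hl := Real.log_pos hy
  have h4 : Real.exp C2 * (Real.log y) ^ N = Real.exp (N * Real.log (Real.log y) + C2) := by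
    rw [Real.exp_add, ← Real.log_pow, Real.exp_log (by positivity)]
    ring
  rw [h4]
  exact Real.exp_le_exp.2 h

/-- the average of the fractional power -/
theorem avGE (hlow : LOWNL) (Sp : ℕ → Finset St)
    (LS : St → ℕ → Bool → Bool → Bool → Bool → Prop) (lam : ℕ → Vk 1 → Vk 1 → ℝ)
    {c N z : ℕ} (hcz : 2 * c + 2 ≤ z)
    (hlam : ∀ p, p.Prime → z < p → ∀ v h, lam p v h =
      ∑ σ ∈ Sp p, (1 / 2) * ∏ i, iL (LS σ p) (v i) (h i))
    (hXC : ∀ p, p.Prime → z < p → ∀ σ ∈ Sp p, XC (LS σ p)) (E : Finset (Bool × Bool))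
    (hE0 : ∀ e ∈ E, e ≠ (false, false)) (hE2 : E.card ≤ 2) {ε : ℝ} (h0 : 0 < ε) (h1 : ε ≤ 1)
    (C1 : ℝ) (hC1 : ∀ y, z < y → |∑ s ∈ (PP z y).divisors, Gs lam s * gw 1 c s -
      ∑ e ∈ E, ∏ p ∈ PS z y, (1 + (∑ σ ∈ Sp p, (1 / 2) * tq e (LS σ p)) / ((p : ℝ) - c))| ≤
        C1 * (Real.log y) ^ N)
    (C2 : ℝ) (hC2 : ∀ e ∈ E, ∀ y, z < y → ∑ p ∈ PS z y,
      (∑ σ ∈ Sp p, (1 / 2) * (tq e (LS σ p)) ^ ε) / ((p : ℝ) - c) ≤
        N * Real.log (Real.log y) + C2)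
    (hC3 : ∀ y, z < y → ∑ p ∈ PS z y, (∑ _σ ∈ Sp p, (1 / 2 : ℝ)) / ((p : ℝ) - c) ≤
        N * Real.log (Real.log y) + C2) :
    ∃ C' : ℝ, ∀ y, z < y → ∑ s ∈ (PP z y).divisors, GE Sp LS ε s * gw 1 c s ≤
      C' * (Real.log y) ^ N := by
  classical
  refine ⟨E.card * Real.exp C2 + 2 * Real.exp C2 + C1, fun y hy => ?_⟩
  have hstep : ∀ s ∈ (PP z y).divisors, GE Sp LS ε s * gw 1 c s ≤
      ∑ e ∈ E, (∏ p ∈ s.primeFactors, (∑ σ ∈ Sp p, (1 / 2) * (tq e (LS σ p)) ^ ε)) * gw 1 c s +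
      2 * ((∏ p ∈ s.primeFactors, (∑ _σ ∈ Sp p, (1 / 2 : ℝ))) * gw 1 c s) +
      (Gs lam s * gw 1 c s - ∑ e ∈ E, (∏ p ∈ s.primeFactors, (∑ σ ∈ Sp p,
        (1 / 2) * tq e (LS σ p))) * gw 1 c s) := by
    intro s hs
    have hp : ∀ p ∈ s.primeFactors, p.Prime ∧ z < p := fun p hp =>
      ⟨Nat.prime_of_mem_primeFactors hp, (dv_prime hs (Nat.prime_of_mem_primeFactors hp)
        (Nat.dvd_of_mem_primeFactors hp)).1⟩
    have h2 := GE_le hlow Sp LS lam s (dv_squarefree hs)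
      (fun p hp' => hlam p (hp p hp').1 (hp p hp').2)
      (fun p hp' => hXC p (hp p hp').1 (hp p hp').2) E hE0 hE2 h0 h1
    have h3 : 0 ≤ gw 1 c s := gw_nonneg (c := c) (by omega) hs
    refine (mul_le_mul_of_nonneg_right h2 h3).trans (le_of_eq ?_)
    rw [← sum_mul, ← sum_mul]
    ring
  refine (sum_le_sum hstep).trans ?_
  rw [sum_add_distrib, sum_add_distrib, sum_sub_distrib, sum_comm, sum_comm (t := E), ← mul_sum]
  simp only [sum_gw]
  have hy1 : (1 : ℝ) < y := by exact_mod_cast (by omega : 1 < y)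
  have hl : 0 ≤ (Real.log y) ^ N := pow_nonneg (Real.log_pos hy1).le _
  have g1 : ∑ e ∈ E, ∏ p ∈ PS z y, (1 + (∑ σ ∈ Sp p, (1 / 2) * (tq e (LS σ p)) ^ ε) /
      ((p : ℝ) - c)) ≤ E.card * (Real.exp C2 * (Real.log y) ^ N) := by
    rw [← nsmul_eq_mul, ← sum_const]
    refine sum_le_sum fun e he => prod_le_pow hcz hy (fun p _ => sum_nonneg fun σ _ =>
      mul_nonneg (by norm_num) (Real.rpow_nonneg (tq_nonneg _ _) _)) (hC2 e he y hy)
  have g2 : ∏ p ∈ PS z y, (1 + (∑ _σ ∈ Sp p, (1 / 2 : ℝ)) / ((p : ℝ) - c)) ≤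
      Real.exp C2 * (Real.log y) ^ N := prod_le_pow hcz hy (fun p _ => sum_nonneg fun σ _ => by
        norm_num) (hC3 y hy)
  have g3 := (abs_le.1 (hC1 y hy)).2
  linarith

end

section

variable {Ω St : Type} {c N z : ℕ}

open Classical in
/-- the sum of the powers of the local counts over a set of parameters -/
lemma sum_statesE (Sp : ℕ → Finset St) (LS : St → ℕ → Bool → Bool → Bool → Bool → Prop)
    (ε : ℝ) (s : ℕ)
    (st : Ω → ℕ → St) (T' : Finset Ω) (hst : ∀ ω ∈ T', ∀ p ∈ s.primeFactors, st ω p ∈ Sp p)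
    (Bd : ℝ) (hBd : ∀ T'' : Finset Ω, T'' ⊆ T' → (∀ ω ∈ T'', ∀ ω' ∈ T'', ∀ p ∈ s.primeFactors,
      st ω p = st ω' p) → (T''.card : ℝ) ≤ (1 / 2) ^ s.primeFactors.card * Bd) :
    ∑ ω ∈ T', (NL s (fun p => LS (st ω p) p) : ℝ) ^ ε ≤ Bd * GE Sp LS ε s := by
  set S := s.primeFactors with hS
  set Φ : Ω → (∀ p ∈ S, St) := fun ω p _ => st ω p with hΦ
  have h0 : ∀ ω ∈ T', Φ ω ∈ S.pi Sp := by
    intro ω hω
    rw [mem_pi]
    intro p hp
    exact hst ω hω p hp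
  rw [← sum_fiberwise_of_maps_to h0]
  unfold GE
  rw [mul_sum]
  refine sum_le_sum fun σ _ => ?_
  have h2 : ∀ ω ∈ T'.filter (fun ω => Φ ω = σ), (NL s (fun p => LS (st ω p) p) : ℝ) ^ ε =
      (NL s (LAs LS s.primeFactors σ) : ℝ) ^ ε := by
    intro ω hω
    rw [mem_filter] at hω
    congr 2
    unfold NL
    congr 1
    refine filter_congr fun d _ => ?_
    refine forall₂_congr fun p hp => ?_
    rw [LAs_mem hp]
    have h3 : st ω p = σ p hp := congrFun (congrFun hω.2 p) hp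
    simp only [h3]
  rw [sum_congr rfl h2, sum_const, nsmul_eq_mul]
  have h3 := hBd (T'.filter (fun ω => Φ ω = σ)) (filter_subset _ _) (by
    intro ω hω ω' hω' p hp
    rw [mem_filter] at hω hω'
    have h4 : Φ ω = Φ ω' := hω.2.trans hω'.2.symm
    exact congrFun (congrFun h4 p) hp)
  have h4 : 0 ≤ (NL s (LAs LS s.primeFactors σ) : ℝ) ^ ε :=
    Real.rpow_nonneg (Nat.cast_nonneg _) _
  refine (mul_le_mul_of_nonneg_right h3 h4).trans (le_of_eq ?_)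
  rw [hS]
  ring

/-- **The abstract main estimate** -/
theorem coreE (Sp : ℕ → Finset St) (LS : St → ℕ → Bool → Bool → Bool → Bool → Prop)
    (hcz : 2 * c + 2 ≤ z) {ε : ℝ} (hε0 : 0 ≤ ε) (hε1 : ε ≤ 1)
    (hSp : ∀ p, p.Prime → z < p → (Sp p).card ≤ 2 * c)
    (hXC : ∀ p, p.Prime → z < p → ∀ σ ∈ Sp p, XC (LS σ p))
    (C' : ℝ) (havg : ∀ y, z < y → ∑ s ∈ (PP z y).divisors, GE Sp LS ε s * gw 1 c s ≤
      C' * (Real.log y) ^ N)
    (T : ℕ → Finset Ω) (Ad : ℕ → Finset Ω → Prop) (hAd : ∀ X TX, Ad X TX → TX ⊆ T X)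
    (hTT : ∀ X Y, X ≤ Y → T X ⊆ T Y) (S : ℕ → ℝ) (hS1 : ∀ X, 1 ≤ X → 1 ≤ S X)
    (f : Ω → ℤ) (hf0 : ∀ X, ∀ ω ∈ T X, f ω ≠ 0) (st : Ω → ℕ → St)
    (hst : ∀ X, ∀ ω ∈ T X, ∀ p, p.Prime → z < p → (p : ℤ) ∣ f ω → ¬ (p : ℤ) ^ 2 ∣ f ω →
      st ω p ∈ Sp p)
    (rk : Ω → ℕ) (D0 D1 : ℝ) (hD0 : 1 ≤ D0) (hD1 : 1 ≤ D1) (C : ℝ) (K y0 : ℕ) (hC : 0 ≤ C)
    (hK : 1 ≤ K)
    (hrank : ∀ X y k' : ℕ, y0 ≤ y → z < y → y ≤ X → X < (y + 1) ^ k' → ∀ TX, Ad X TX → ∀ ω ∈ TX,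
      (2 : ℝ) ^ rk ω ≤ D0 * D1 ^ k' * 4 ^ (s2 z y (f ω)).primeFactors.card *
        (NL (s1 z y (f ω)) (fun p => LS (st ω p) p) : ℝ))
    (hcnt : ∀ X y Y k' : ℕ, y0 ≤ y → z < y → y ^ K ≤ X → X < (y + 1) ^ k' → ∀ TX, Ad X TX →
      ∀ s v u : ℕ, s ∈ (PP z y).divisors → v ∈ (PP z y).divisors → u ∈ (PP y Y).divisors →
      (s * v * u) ^ 8 ≤ X → s.Coprime v → ∀ T' : Finset Ω, T' ⊆ TX →
      (∀ ω ∈ T', s1 z y (f ω) = s ∧ s2 z y (f ω) = v ∧ (u : ℤ) ∣ f ω) →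
      (∀ ω ∈ T', ∀ ω' ∈ T', ∀ p ∈ s.primeFactors, st ω p = st ω' p) →
      (T'.card : ℝ) ≤ C * D1 ^ k' * S X * ((1 / 2) ^ s.primeFactors.card * gw 1 c s) *
        ((c : ℝ) ^ v.primeFactors.card * (gw 1 c v / v)) *
        ((c : ℝ) ^ u.primeFactors.card / u) / (Real.log y) ^ N) :
    ∃ C2 : ℝ, ∀ X : ℕ, 1 ≤ X → ∀ TX, Ad X TX →
      ∑ ω ∈ TX, (2 : ℝ) ^ (ε * (rk ω : ℝ)) ≤ C2 * S X := by
  classical
  set b : ℝ := 4 * (c : ℝ) with hb
  have hb0 : 0 ≤ b := by positivity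
  have hcb : (c : ℝ) ≤ b := by
    have : (0 : ℝ) ≤ c := Nat.cast_nonneg c
    linarith
  have hD10 : 0 ≤ D1 := by linarith
  refine Pool.Agent.L0h5.NT.ant_s Unit Ω T (fun ω _ => f ω) S z c N
    (fun s => GE Sp LS ε (s ())) (fun ω => (2 : ℝ) ^ (ε * (rk ω : ℝ))) b (C * D0) C'
    (D1 * D1) K y0 Ad hAd hb0 hcz hTT hS1 ?_ (fun s => GE_nonneg _ _ _ _)
    (fun ω => by positivity) (by positivity) (one_le_mul_of_one_le_of_one_le hD1 hD1) hK ?_ ?_ ?_
  · intro X ω hω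
    exact ⟨fun _ => hf0 X ω hω, fun p _ _ j l hjl => absurd (Subsingleton.elim j l) hjl⟩
  · intro y _ s e hse
    have h1 := mem_TupU.1 hse
    simp only [univ_unique, sum_singleton]
    show GE Sp LS ε (s () * e ()) ≤ b ^ (e ()).primeFactors.card * GE Sp LS ε (s ())
    have hPS : ∀ p : ℕ, p.Prime → p ∣ s () * e () → z < p := fun p hp h => (dv_prime h1 hp h).1
    refine GE_sub Sp LS c (s ()) (e ()) (dv_squarefree h1) ?_ ?_ hε0 hε1
    · intro p hp hd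
      have h2 : ((Sp p).card : ℝ) ≤ 2 * c := by
        exact_mod_cast hSp p hp (hPS p hp (hd.trans (Dvd.intro_left _ rfl)))
      linarith
    · intro p hp hd
      exact hXC p hp (hPS p hp (hd.trans (Dvd.intro _ rfl)))
  · intro y hy
    have h1 := sum_TupU (z := z) (y := y) fun s => GE Sp LS ε s * gw 1 c s
    simp only [univ_unique, prod_singleton]
    exact le_trans (le_of_eq h1) (havg y hy)
  · intro X y Y k' hy hzy hyX hXk TX hTX s hs v hv u hu hsvu T' hT' hT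
    have hs' := mem_TupU.1 hs
    have hv' := mem_TupU.1 hv
    have hu' := mem_TupU.1 hu
    simp only [univ_unique, prod_singleton] at hsvu ⊢
    have hX1 : 1 ≤ X := (Nat.one_le_pow _ _ (by omega)).trans hyX
    have hTT' : ∀ ω ∈ T', s1 z y (f ω) = s () ∧ s2 z y (f ω) = v () ∧
        ((u () : ℕ) : ℤ) ∣ f ω := by
      intro ω hω
      obtain ⟨h1, h2, h3⟩ := hT ω hω
      exact ⟨congrFun h1 (), congrFun h2 (), h3 ()⟩
    have hgs := gw_nonneg (c := c) (by omega) hs'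
    have hgv := gw_nonneg (c := c) (by omega) hv'
    have hlog : 0 ≤ (Real.log y) ^ N := pow_nonneg (Real.log_natCast_nonneg y) _
    have hG : 0 ≤ GE Sp LS ε (s ()) := GE_nonneg _ _ _ _
    have hS0 : 0 ≤ S X := by
      have := hS1 X hX1
      linarith
    rcases T'.eq_empty_or_nonempty with hE | ⟨ω0, hω0⟩
    · rw [hE, sum_empty]
      positivity
    have hcop : (s ()).Coprime (v ()) := by
      obtain ⟨h1, h2, -⟩ := hTT' ω0 hω0
      apply Nat.coprime_of_dvd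
      intro p hp hps hpv
      rw [← h1, dvd_s1 hp] at hps
      rw [← h2, dvd_s2 hp] at hpv
      exact hps.2.2 hpv.2
    -- the sum of the local counts
    set Bd : ℝ := C * D1 ^ k' * S X * gw 1 c (s ()) *
        ((c : ℝ) ^ (v ()).primeFactors.card * (gw 1 c (v ()) / (v () : ℕ))) *
        ((c : ℝ) ^ (u ()).primeFactors.card / (u () : ℕ)) / (Real.log y) ^ N with hBd
    have hBd0 : 0 ≤ Bd := by positivity
    have h1 := sum_statesE Sp LS ε (s ()) st T' (fun ω hω p hp => by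
        have hp1 := Nat.prime_of_mem_primeFactors hp
        have hp2 := Nat.dvd_of_mem_primeFactors hp
        rw [← (hTT' ω hω).1] at hp2
        obtain ⟨h3, h4, h5⟩ := (dvd_s1 hp1).1 hp2
        exact hst X ω (hAd X TX hTX (hT' hω)) p hp1 (mem_PS.1 h3).1.1 h4 h5) Bd
      (fun T'' hT'' hc => by
        refine (hcnt X y Y k' hy hzy hyX hXk TX hTX (s ()) (v ()) (u ()) hs' hv' hu' hsvu hcop T''
          (hT''.trans hT') (fun ω hω => hTT' ω (hT'' hω)) hc).trans (le_of_eq ?_)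
        rw [hBd]
        ring)
    have hR : ∀ ω ∈ T', (2 : ℝ) ^ (ε * (rk ω : ℝ)) ≤ (D0 * D1 ^ k' *
        4 ^ (v ()).primeFactors.card) *
          (NL (s ()) (fun p => LS (st ω p) p) : ℝ) ^ ε := by
      intro ω hω
      obtain ⟨h3, h4, h5⟩ := hTT' ω hω
      have h8 := hrank X y k' hy hzy ((Nat.le_self_pow (by omega) y).trans hyX) hXk TX hTX ω
        (hT' hω)
      rw [h3, h4] at h8
      have h9 : (2 : ℝ) ^ (ε * (rk ω : ℝ)) = ((2 : ℝ) ^ rk ω) ^ ε := by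
        rw [mul_comm, Real.rpow_mul (by norm_num), Real.rpow_natCast]
      rw [h9]
      have h10 := Real.rpow_le_rpow (by positivity) h8 hε0
      have h11 : (1 : ℝ) ≤ D0 * D1 ^ k' * 4 ^ (v ()).primeFactors.card :=
        one_le_mul_of_one_le_of_one_le (one_le_mul_of_one_le_of_one_le hD0
          (one_le_pow₀ hD1)) (one_le_pow₀ (by norm_num))
      rw [Real.mul_rpow (by linarith) (Nat.cast_nonneg _)] at h10
      refine h10.trans (mul_le_mul_of_nonneg_right ?_ (Real.rpow_nonneg (Nat.cast_nonneg _) _))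
      have h12 := Real.rpow_le_rpow_of_exponent_le h11 hε1
      rwa [Real.rpow_one] at h12
    refine (sum_le_sum hR).trans ?_
    rw [← mul_sum]
    have h2 : (0 : ℝ) ≤ D0 * D1 ^ k' * 4 ^ (v ()).primeFactors.card := by
      positivity
    refine (mul_le_mul_of_nonneg_left h1 h2).trans ?_
    rw [hBd]
    have hcu : (c : ℝ) ^ (u ()).primeFactors.card / (u () : ℝ) ≤
        b ^ (u ()).primeFactors.card / (u () : ℝ) := by
      apply div_le_div_of_nonneg_right _ (Nat.cast_nonneg _)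
      exact pow_le_pow_left₀ (Nat.cast_nonneg _) hcb _
    have hbv : b ^ (v ()).primeFactors.card =
        4 ^ (v ()).primeFactors.card * (c : ℝ) ^ (v ()).primeFactors.card := by
      rw [hb, mul_pow]
    rw [hbv]
    have h3 : 0 ≤ C * D0 * (D1 * D1) ^ k' * S X *
        (GE Sp LS ε (s ()) * gw 1 c (s ())) * (4 ^ (v ()).primeFactors.card *
          (c : ℝ) ^ (v ()).primeFactors.card * (gw 1 c (v ()) / (v () : ℝ))) := by positivity
    have h4 := div_le_div_of_nonneg_right (mul_le_mul_of_nonneg_left hcu h3) hlog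
    refine le_trans (le_of_eq ?_) h4
    rw [mul_pow D1]
    ring

end

end Pool.Agent.L0h5.TE
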