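import Pool.Agent.L0h5.TE.D6
import Pool.Agent.L0h5.TE.D8
import Pool.Agent.L0h5.TH.M1

/-!
# The values at one prime
-/

set_option autoImplicit false
set_option linter.unusedSectionVars false

namespace Pool.Agent.L0h5.TE

open Finset Pool.Agent.W262.RK Pool.Agent.L0h5.TH
open Pool.Agent.L0h5.TF hiding oo
open Pool.Agent.W762.RK2 (sg)

lemma tq_ns {q : Fin 4} (hq : q ≠ 3) {c : Fin 4} {ev : Bool} {κ : Fin 3 → ℤ} {p : ℕ} (neg : Bool)
    (hn : nsE c ev κ p = true) : tq (ec q) (LE c ev κ neg p) = 1 := by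
  have h1 : ∀ x u : Bool, iL (LE c ev κ neg p) (x && (ec q).1, x && (ec q).2)
      (u && (ec q).1, u && (ec q).2) = if x = false then (1 : ℝ) else 0 := by
    intro x u
    unfold iL
    have h2 : LE c ev κ neg p (x && (ec q).1) (x && (ec q).2) (u && (ec q).1) (u && (ec q).2) ↔
        x = false := by
      rw [LE_ns hn]
      clear hn
      revert q x
      decide
    by_cases hx : x = false
    · rw [if_pos (h2.2 hx), if_pos hx]
    · rw [if_neg (fun h => hx (h2.1 h)), if_neg hx]
  unfold tq
  simp only [h1, Fintype.sum_bool]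
  norm_num

lemma four_gen (g : (Bool × Bool) → (Bool × Bool) → ℝ) {q : Fin 4} (hq : q ≠ 3) :
    (1 / 2) * ∑ x : Bool, ∑ u : Bool, g (x && (ec q).1, x && (ec q).2) (u && (ec q).1, u && (ec q).2)
      = (1 / 4) * ∑ h : Bool × Bool, g oo h * ch1 oo h +
        (1 / 4) * ∑ h : Bool × Bool, g oo h * ch1 (ec q).swap h +
        (1 / 4) * ∑ h : Bool × Bool, g (ec q) h * ch1 oo h +
        (1 / 4) * ∑ h : Bool × Bool, g (ec q) h * ch1 (ec q).swap h := by
  rcases lt3 hq with rfl | rfl | rfl
  · simp only [Fintype.sum_prod_type, Fintype.sum_bool, ch1, sg, ec, Prod.swap, oo]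
    simp
    ring
  · simp only [Fintype.sum_prod_type, Fintype.sum_bool, ch1, sg, ec, Prod.swap, oo]
    simp
    ring
  · simp only [Fintype.sum_prod_type, Fintype.sum_bool, ch1, sg, ec, Prod.swap, oo]
    simp
    ring

lemma iL_lq {c : Fin 4} {ev : Bool} {κ : Fin 3 → ℤ} {p : ℕ} (neg : Bool)
    (hn : ¬ nsE c ev κ p = true) (v h : Bool × Bool) :
    iL (LE c ev κ neg p) v h = lq c κ neg p v h := by
  classical
  unfold iL lq
  by_cases h1 : LL c κ neg p v.1 v.2 h.1 h.2
  · rw [if_pos h1, if_pos ((LE_or hn _ _ _ _).2 h1)]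
  · rw [if_neg h1, if_neg (fun h2 => h1 ((LE_or hn _ _ _ _).1 h2))]

/-- the average of the values -/
lemma tq_Qj {q : Fin 4} (hq : q ≠ 3) (c : Fin 4) (ev : Bool) (κ : Fin 3 → ℤ) (p : ℕ) :
    ∑ neg : Bool, (1 / 2) * tq (ec q) (LE c ev κ neg p) = Qj q c ev κ p 1 1 := by
  by_cases hn : nsE c ev κ p = true
  · rw [sum_congr rfl fun neg _ => by rw [tq_ns hq neg hn]]
    unfold Qj
    rw [bo_ns hn, bo_ns hn, bo_ns hn, bo_ns hn]
    have e1 : ¬ (oo = oo ∧ (ec q).swap = oo) := by
      clear hn hq
      revert q; decide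
    have e2 : ¬ (ec q = oo ∧ oo = oo) := by
      clear hn hq e1
      revert q; decide
    have e3 : ¬ (ec q = oo ∧ (ec q).swap = oo) := by
      clear hn hq e1 e2
      revert q; decide
    rw [if_pos ⟨rfl, rfl⟩, if_neg e1, if_neg e2, if_neg e3]
    simp
  · have h1 : ∀ neg : Bool, tq (ec q) (LE c ev κ neg p) = cf c κ neg p oo oo +
        cf c κ neg p oo (ec q).swap + cf c κ neg p (ec q) oo + cf c κ neg p (ec q) (ec q).swap := by
      intro neg
      unfold tq cf
      simp only [iL_lq neg hn]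
      exact four_gen (fun v h => lq c κ neg p v h) hq
    simp only [h1, Fintype.sum_bool]
    unfold Qj
    rw [bo_or hn, bo_or hn, bo_or hn, bo_or hn]
    ring

lemma LL_three (κ : Fin 3 → ℤ) (neg : Bool) (p : ℕ) (v w : Bool) : ∃ A B : Bool, ∀ h g : Bool,
    LL 3 κ neg p v w h g ↔ h = A ∧ g = B := by
  refine ⟨xor (v && neg) (xor (v && !w && sg0 p (κ 0)) (xor (!v && w && sg0 p (κ 0 * κ 1))
      (v && w && sg0 p (κ 1)))), xor (w && neg) (xor (v && !w && sg0 p (κ 0 * κ 2))
      (xor (!v && w && sg0 p (-κ 0)) (v && w && sg0 p (-κ 2)))), fun h g => ?_⟩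
  unfold LL
  rw [if_neg (by decide), if_neg (by decide), if_neg (by decide)]

/-- the bound of the values -/
lemma tq_le_mj {q : Fin 4} (hq : q ≠ 3) (c : Fin 4) (ev : Bool) (κ : Fin 3 → ℤ) (neg : Bool)
    (p : ℕ) : tq (ec q) (LE c ev κ neg p) ≤ mj q c ev (sg0 p (κ 0)) := by
  by_cases hn : nsE c ev κ p = true
  · rw [tq_ns hq neg hn]
    unfold nsE at hn
    simp only [Bool.and_eq_true, decide_eq_true_eq] at hn
    obtain ⟨h1, h2, h3⟩ := hn
    unfold mj
    rw [if_neg h2, h3, h1]
    simp
  · unfold tq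
    simp only [iL_lq neg hn]
    by_cases h3 : c = 3
    · subst h3
      have h1 : ∀ x : Bool, ∑ u : Bool, lq 3 κ neg p (x && (ec q).1, x && (ec q).2)
          (u && (ec q).1, u && (ec q).2) ≤ 1 := by
        intro x
        obtain ⟨A, B, hAB⟩ := LL_three κ neg p (x && (ec q).1) (x && (ec q).2)
        rw [Fintype.sum_bool]
        unfold lq
        by_cases h1 : LL 3 κ neg p (x && (ec q).1) (x && (ec q).2) (true && (ec q).1)
          (true && (ec q).2)
        · have h2 : ¬ LL 3 κ neg p (x && (ec q).1) (x && (ec q).2) (false && (ec q).1)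
              (false && (ec q).2) := by
            intro h2
            have h3 := (hAB _ _).1 h1
            have h4 := (hAB _ _).1 h2
            have h5 := h3.1.trans h4.1.symm
            have h6 := h3.2.trans h4.2.symm
            clear h1 h2 h3 h4 hAB hn
            revert q
            decide
          simp only [if_pos h1, if_neg h2]
          norm_num
        · simp only [if_neg h1]
          split_ifs <;> norm_num
      rw [Fintype.sum_bool (fun x => ∑ u : Bool, lq 3 κ neg p (x && (ec q).1, x && (ec q).2)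
          (u && (ec q).1, u && (ec q).2))]
      have h2 := h1 true
      have h4 := h1 false
      unfold mj
      rw [if_pos rfl]
      linarith
    · unfold nsE at hn
      simp only [Bool.and_eq_true, decide_eq_true_eq] at hn
      unfold lq LL mj
      simp only [Fintype.sum_bool]
      generalize sg0 p (κ 0) = s at *
      rcases lt3 hq with rfl | rfl | rfl <;> rcases lt3 h3 with rfl | rfl | rfl <;>
        cases s <;> cases ev <;> simp [ec] at * <;> norm_num

end Pool.Agent.L0h5.TE
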