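import Pool.Agent.L0h5.TF.Sub

/-!
# Lower bound of the local count by the elements in one direction: the statement
-/

set_option autoImplicit false

namespace Pool.Agent.L0h5.TE

open Finset Pool.Agent.W262.RK Pool.Agent.L0h5.TF

/-- half the number of the elements `(x e, u e)` that satisfy the condition -/
noncomputable def tq (e : Bool × Bool) (L : Bool → Bool → Bool → Bool → Prop) : ℝ :=
  (1 / 2) * ∑ x : Bool, ∑ u : Bool, iL L (x && e.1, x && e.2) (u && e.1, u && e.2)

/-- LOWNL: the lower bounds of the number of the pairs of divisors that satisfy the conditions -/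
def LOWNL : Prop := ∀ (s : ℕ) (L : ℕ → Bool → Bool → Bool → Bool → Prop), Squarefree s →
  (∀ p, p.Prime → p ∣ s → XC (L p)) → ∀ e e' : Bool × Bool, e ≠ (false, false) →
  e' ≠ (false, false) → e ≠ e' →
    ∏ p ∈ s.primeFactors, tq e (L p) ≤ (NL s L : ℝ) ∧
    ∏ p ∈ s.primeFactors, tq e (L p) + ∏ p ∈ s.primeFactors, tq e' (L p) ≤ (NL s L : ℝ) + 1

end Pool.Agent.L0h5.TE
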