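import Pool.Agent.L0h5.TE.D6

/-!
# Weighted averages: tools
-/

set_option autoImplicit false
set_option linter.unusedSectionVars false

namespace Pool.Agent.L0h5.TE

open Finset Pool.Agent.W262.RK Pool.Agent.L0h5.AG Pool.Agent.L0h5.AH
  Pool.Agent.L0h5.TH
open Pool.Agent.L0h5.TF hiding oo

section

variable {J : Type} [Fintype J] {k : ℕ}

/-- the weighted local average -/
noncomputable def lamW (w : J → ℝ) (cls : J → Fin 4) (ev : J → Bool) (kap : J → ℕ → Fin 3 → ℤ)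
    (R : J → ℕ → Finset ℕ) (p : ℕ) (v h : Vk k) : ℝ :=
  ∑ j, w j * ∑ r ∈ R j p, lstE (cls j) (ev j) (kap j r) p v h

/-- the coefficients of the weighted local average -/
noncomputable def bW (w : J → ℝ) (cls : J → Fin 4) (ev : J → Bool) (kap : J → ℕ → Fin 3 → ℤ)
    (R : J → ℕ → Finset ℕ) (p : ℕ) (v x : Vk k) : ℝ :=
  ∑ j, w j * ∑ r ∈ R j p, bstE (cls j) (ev j) (kap j r) p v x

lemma lamW_eq (w : J → ℝ) (cls : J → Fin 4) (ev : J → Bool) (kap : J → ℕ → Fin 3 → ℤ)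
    (R : J → ℕ → Finset ℕ) (p : ℕ) (v h : Vk k) :
    lamW w cls ev kap R p v h = ∑ x, bW w cls ev kap R p v x * chi x h := by
  unfold lamW bW
  simp only [sum_mul]
  rw [sum_comm]
  refine sum_congr rfl fun j _ => ?_
  simp only [mul_assoc]
  rw [← mul_sum]
  congr 1
  simp only [sum_mul]
  rw [sum_comm]
  refine sum_congr rfl fun r _ => ?_
  exact lstE_eq _ _ _ _ _ _

lemma bW_odd (w : J → ℝ) (cls : J → Fin 4) (ev : J → Bool) (kap : J → ℕ → Fin 3 → ℤ)
    (R : J → ℕ → Finset ℕ) (p : ℕ) (v x : Vk k) (h : ¬ Even (nd x v)) :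
    bW w cls ev kap R p v x = 0 := by
  unfold bW
  refine sum_eq_zero fun j _ => ?_
  rw [sum_eq_zero fun r _ => bstE_odd _ _ _ _ _ _ h, mul_zero]

lemma bW_bits (w : J → ℝ) (cls : J → Fin 4) (ev : J → Bool) (kap : J → ℕ → Fin 3 → ℤ)
    (R : J → ℕ → Finset ℕ) (p : ℕ) (l : Lb 1) :
    bW (k := 1) w cls ev kap R p l.1.1 l.1.2 =
      ∑ j, w j * ∑ r ∈ R j p, bo (cls j) (ev j) (kap j r) p (bits l).1 (bits l).2 := by
  unfold bW bo
  rw [← bits_fst, ← bits_snd]

/-- the joint sum -/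
lemma joint_sumW {B : ℕ} {q : Fin 4} (hq : q ≠ 3) (hB : 0 < B) (w : J → ℝ) (cls : J → Fin 4)
    (ev : J → Bool)
    (kap : J → ℕ → Fin 3 → ℤ) (R : J → ℕ → Finset ℕ) (c p : ℕ) (e : Ix 1 B → ℕ) :
    ∑ i ∈ SqJ B q, wt (B := B) (bW (k := 1) w cls ev kap R) c i p *
      XX (Lk (k := 1) (B := B)) i e p =
      (∑ j, w j * ∑ r ∈ R j p, Qj q (cls j) (ev j) (kap j r) p (XLf (oo, (ec q).swap) e p)
        (XLf (ec q, oo) e p)) / ((p : ℝ) - c) := by
  have hBr : (B : ℝ) ≠ 0 := by exact_mod_cast hB.ne'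
  unfold SqJ
  rw [sum_product]
  have h1 : ∀ l : Lb 1, ∑ b : Fin B, wt (B := B) (bW (k := 1) w cls ev kap R) c (l, b) p *
      XX (Lk (k := 1) (B := B)) (l, b) e p =
      (∑ j, w j * ∑ r ∈ R j p, bo (cls j) (ev j) (kap j r) p (bits l).1 (bits l).2) *
        XLf (bits l) e p / ((p : ℝ) - c) := by
    intro l
    simp only [XX_eq]
    unfold wt
    simp only [bW_bits]
    rw [sum_const, card_univ, Fintype.card_fin, nsmul_eq_mul]
    field_simp
  rw [sum_congr rfl fun l _ => h1 l, sum_lab hq (fun b =>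
    (∑ j, w j * ∑ r ∈ R j p, bo (cls j) (ev j) (kap j r) p b.1 b.2) *
        XLf b e p / ((p : ℝ) - c)), ← add_div, ← add_div, ← add_div]
  congr 1
  rw [XLf_oo, XLf_mul (ec q) (ec q).swap]
  unfold Qj
  simp only [sum_add_distrib, mul_add, mul_sum, sum_mul, mul_assoc, mul_one]

/-- the weighted asymptotic formula -/
lemma asymW_sum {w : J → ℝ} {cls : J → Fin 4} {sp : J → Bool} {c z : ℕ}
    {kap : J → ℕ → Fin 3 → ℤ} {R : J → ℕ → Finset ℕ} {Cj : ℝ}
    (H1 : ∀ (j : J) (y : ℕ), z < y →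
      |∑ p ∈ PS z y, w j * (((R j p).card : ℝ) / ((p : ℝ) - c)) - Real.log (Real.log y)| ≤ Cj)
    (H2 : ∀ j : J, cls j ≠ 3 → ∀ y : ℕ, z < y →
      |∑ p ∈ PS z y, w j * (((Rz kap R j p).card : ℝ) / ((p : ℝ) - c)) -
        th (sp j) * Real.log (Real.log y)| ≤ Cj)
    (F : J → Bool → ℝ) (hF : ∀ j, cls j = 3 → F j false = F j true) {M : ℝ}
    (hM : ∀ j, |F j true| ≤ M) (hM' : ∀ j, |F j false - F j true| ≤ M) {y : ℕ} (hy : z < y) :
    |∑ p ∈ PS z y, (∑ j, w j * ∑ r ∈ R j p, F j (sg0 p (kap j r 0))) / ((p : ℝ) - c) -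
      (∑ j, (F j true + (F j false - F j true) * th (sp j))) * Real.log (Real.log y)| ≤
      Fintype.card J * (2 * M * Cj) := by
  have h1 : ∑ p ∈ PS z y, (∑ j, w j * ∑ r ∈ R j p, F j (sg0 p (kap j r 0))) / ((p : ℝ) - c) =
      ∑ j, ∑ p ∈ PS z y, (w j * ∑ r ∈ R j p, F j (sg0 p (kap j r 0))) / ((p : ℝ) - c) := by
    rw [sum_comm]
    refine sum_congr rfl fun p _ => ?_
    rw [sum_div]
  rw [h1, sum_mul, ← sum_sub_distrib]
  refine (abs_sum_le_sum_abs _ _).trans ?_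
  have key : ∀ j, |∑ p ∈ PS z y, (w j * ∑ r ∈ R j p, F j (sg0 p (kap j r 0))) / ((p : ℝ) - c) -
      (F j true + (F j false - F j true) * th (sp j)) * Real.log (Real.log y)| ≤ 2 * M * Cj := by
    intro j
    have hCj : 0 ≤ Cj := (abs_nonneg _).trans (H1 j y hy)
    have hM0 : 0 ≤ M := (abs_nonneg _).trans (hM j)
    have h1 : ∑ p ∈ PS z y, (w j * ∑ r ∈ R j p, F j (sg0 p (kap j r 0))) / ((p : ℝ) - c) =
        F j true * ∑ p ∈ PS z y, w j * (((R j p).card : ℝ) / ((p : ℝ) - c)) +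
        (F j false - F j true) *
          ∑ p ∈ PS z y, w j * (((Rz kap R j p).card : ℝ) / ((p : ℝ) - c)) := by
      rw [mul_sum, mul_sum, ← sum_add_distrib]
      refine sum_congr rfl fun p _ => ?_
      rw [sum_s]
      ring
    rw [h1]
    have h2 := H1 j y hy
    by_cases h3 : cls j = 3
    · have h4 : F j false - F j true = 0 := by rw [hF j h3, sub_self]
      rw [h4, zero_mul, zero_mul, add_zero, add_zero, ← mul_sub, abs_mul]
      refine (mul_le_mul (hM j) h2 (abs_nonneg _) hM0).trans ?_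
      nlinarith [mul_nonneg hM0 hCj]
    · have h4 := H2 j h3 y hy
      rw [show ∀ a b c d e f : ℝ, a * b + c * d - (a + c * e) * f =
        a * (b - f) + c * (d - e * f) from fun a b c d e f => by ring]
      refine (abs_add_le _ _).trans ?_
      rw [abs_mul, abs_mul]
      calc _ ≤ M * Cj + M * Cj := add_le_add (mul_le_mul (hM j) h2 (abs_nonneg _) hM0)
            (mul_le_mul (hM' j) h4 (abs_nonneg _) hM0)
        _ = _ := by ring
  refine (sum_le_sum fun j _ => key j).trans ?_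
  rw [sum_const, card_univ, nsmul_eq_mul]

variable {cls : J → Fin 4} {ev sp lin : J → Bool} {c z : ℕ} {kap : J → ℕ → Fin 3 → ℤ}
    {R : J → ℕ → Finset ℕ} {Cj : ℝ} {B0 : ℕ} {q : Fin 4}

lemma gl_sumW (hz : 2 * c + 3 ≤ z) (hR0 : ∀ p : ℕ, p.Prime → z < p → ∑ j, (R j p).card ≤ B0)
    (H2 : ∀ j : J, lin j = true → cls j ≠ 3 → ∀ y : ℕ, z < y →
      |∑ p ∈ PS z y, ((Rz kap R j p).card : ℝ) / ((p : ℝ) - c) -
        th (sp j) * Real.log (Real.log y)| ≤ Cj) (hq : q ≠ 3) {y : ℕ} (hy : z < y)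
    (hCj : 0 ≤ Cj) :
    (∑ j, sv q (cls j) (sp j) (lin j)) * Real.log (Real.log y) -
      Fintype.card J * (Cj + 2 * c * B0) ≤ ∑ p ∈ PS z y, gl q cls lin kap R p := by
  have h0 : ∑ p ∈ PS z y, gl q cls lin kap R p =
      ∑ j, ∑ p ∈ PS z y, (if cls j = q ∧ lin j = true then
        ((Rz kap R j p).card : ℝ) / p else 0) := by
    unfold gl
    rw [sum_comm]
    refine sum_congr rfl fun p _ => ?_
    rw [sum_div]
    refine sum_congr rfl fun j _ => ?_
    split_ifs <;> simp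
  rw [h0, sum_mul, ← nsmul_eq_mul, ← card_univ, ← sum_const, ← sum_sub_distrib]
  refine sum_le_sum fun j _ => ?_
  unfold sv
  by_cases hj : cls j = q ∧ lin j = true
  · rw [if_pos hj]
    simp only [hj, and_self, if_true]
    have h1 := (abs_le.1 (H2 j hj.2 (by rw [hj.1]; exact hq) y hy)).1
    have h2 : ∑ p ∈ PS z y, ((Rz kap R j p).card : ℝ) / ((p : ℝ) - c) ≤
        ∑ p ∈ PS z y, ((Rz kap R j p).card : ℝ) / p + ∑ p ∈ PS z y,
          (2 * c * B0) * ((p : ℝ) ^ 2)⁻¹ := by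
      rw [← sum_add_distrib]
      refine sum_le_sum fun p hp => ?_
      obtain ⟨⟨h3, h4⟩, h5⟩ := mem_PS.1 hp
      have h6 : (2 * c + 3 : ℝ) ≤ p := by exact_mod_cast (by omega : 2 * c + 3 ≤ p)
      have hc0 : (0 : ℝ) ≤ c := Nat.cast_nonneg c
      have hp0 : (0 : ℝ) < p := by linarith
      have h8 : (0 : ℝ) < (p : ℝ) - c := by linarith
      have h9 : ((Rz kap R j p).card : ℝ) ≤ B0 := by
        have h10 : (Rz kap R j p).card ≤ ∑ j, (R j p).card :=
          (card_filter_le _ _).trans (single_le_sum (f := fun j => (R j p).card)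
            (fun _ _ => Nat.zero_le _) (mem_univ j))
        exact_mod_cast h10.trans (hR0 p h5 h3)
      have h10 : (0 : ℝ) ≤ (Rz kap R j p).card := Nat.cast_nonneg _
      have h11 : ((Rz kap R j p).card : ℝ) / ((p : ℝ) - c) = ((Rz kap R j p).card : ℝ) / p +
          ((Rz kap R j p).card : ℝ) * (c / (p * (p - c))) := by
        field_simp
        ring
      have h12 : (c : ℝ) / (p * (p - c)) ≤ 2 * c * ((p : ℝ) ^ 2)⁻¹ := by
        rw [← div_eq_mul_inv, div_le_div_iff₀ (by positivity) (by positivity)]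
        nlinarith [mul_nonneg (mul_nonneg hc0 hp0.le) (by linarith : (0 : ℝ) ≤ p - 2 * c)]
      have h13 : (0 : ℝ) ≤ c / (p * (p - c)) := by positivity
      rw [h11]
      have h14 := mul_le_mul h9 h12 h13 (Nat.cast_nonneg B0)
      linarith [h14]
    have h3 : ∑ p ∈ PS z y, (2 * c * B0 : ℝ) * ((p : ℝ) ^ 2)⁻¹ ≤ 2 * c * B0 := by
      rw [← mul_sum]
      exact mul_le_of_le_one_right (by positivity) (sum_inv_sq z y (by omega))
    linarith
  · rw [if_neg hj]
    simp only [hj, if_false, sum_const_zero, zero_mul]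
    have : (0 : ℝ) ≤ 2 * c * B0 := by positivity
    linarith

end

end Pool.Agent.L0h5.TE
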