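import Pool.Agent.L0h5.TE.W1

/-!
# The refined weighted average for one copy, with main terms
-/

set_option autoImplicit false
set_option linter.unusedSectionVars false

namespace Pool.Agent.L0h5.TE

open Finset Pool.Agent.W262.RK Pool.Agent.L0h5.AG Pool.Agent.L0h5.AH
  Pool.Agent.L0h5.TH
open Pool.Agent.L0h5.TF hiding oo

section

variable {J : Type} [Fintype J]

/-- **The refined average with main terms** -/
theorem avg2w [Nonempty J] (w : J → ℝ) (hw0 : ∀ j, 0 ≤ w j) (hw1 : ∀ j, w j ≤ 1)
    (cls : J → Fin 4) (ev sp lin : J → Bool) (c B0 : ℕ)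
    (Bd : Finset (Fin 4)) (hBd : ∀ q ∈ Bd, q ≠ 3 ∧ ∃ j, cls j = q)
    (hcrit : ∀ q : Fin 4, q ≠ 3 → q ∉ Bd → ∑ j, kc q (cls j) (ev j) (sp j) ≤ Fintype.card J)
    (hcritB : ∀ q ∈ Bd, ∑ j, kc q (cls j) (ev j) (sp j) - ∑ j, sv q (cls j) (sp j) (lin j) <
      Fintype.card J) :
    ∃ z0 : ℕ, ∀ z, z0 ≤ z → ∀ (kap : J → ℕ → Fin 3 → ℤ) (R : J → ℕ → Finset ℕ) (Cj : ℝ)
        (κ0 : J → ℤ), (∀ j, lin j = true → w j = 1) →
      (∀ j, lin j = true → κ0 j ≠ 0 ∧ (κ0 j).natAbs ≤ z ∧
        ∀ p : ℕ, p.Prime → z < p → (R j p).card = 1 ∧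
          ∀ r ∈ R j p, sg0 p (kap j r 0) = sg0 p (κ0 j)) →
      (∀ p : ℕ, p.Prime → z < p → ∑ j, (R j p).card ≤ B0) →
      (∀ (j : J) (y : ℕ), z < y → |∑ p ∈ PS z y, w j * (((R j p).card : ℝ) / ((p : ℝ) - c)) -
        Real.log (Real.log y)| ≤ Cj) →
      (∀ j : J, cls j ≠ 3 → ∀ y : ℕ, z < y →
        |∑ p ∈ PS z y, w j * (((Rz kap R j p).card : ℝ) / ((p : ℝ) - c)) -
        th (sp j) * Real.log (Real.log y)| ≤ Cj) →
      ∃ C : ℝ, ∀ y, z < y →
      |∑ s ∈ (PP z y).divisors, Gs (lamW (k := 1) w cls ev kap R) s * gw 1 c s -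
        ∑ q ∈ Bd, ∏ p ∈ PS z y, (1 + (∑ j, w j * ∑ r ∈ R j p, Qj q (cls j) (ev j) (kap j r) p 1 1) /
          ((p : ℝ) - c))| ≤ C * (Real.log y) ^ (Fintype.card J) := by
  classical
  set B : ℕ := 2 * B0 + 2 with hBdef
  have hB : 0 < B := by omega
  have hBr : (0 : ℝ) < B := by exact_mod_cast hB
  set N : ℝ := (Fintype.card J : ℝ) with hN
  have hN1 : 1 ≤ N := by
    rw [hN]
    exact_mod_cast Fintype.card_pos
  set W : (Bool × Bool) × (Bool × Bool) → ℝ := fun b => ∑ j, wE (cls j) (ev j) (sp j) b with hW
  have hW0 : ∀ b, 0 ≤ W b := fun b => sum_nonneg fun j _ => wE_nonneg _ _ _ _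
  set e : Ix 1 B → ℝ := fun i => W (bits i.1) / B with he
  have he0 : ∀ i, 0 ≤ e i := fun i => div_nonneg (hW0 _) hBr.le
  set Sg : Finset (Finset (Ix 1 B)) := ((univ : Finset (Fin 4)).filter (· ≠ 3)).image (SqJ B)
    with hSg
  have hSgm : ∀ S ∈ Sg, ∃ q : Fin 4, q ≠ 3 ∧ S = SqJ B q := by
    intro S hS
    obtain ⟨q, hq, rfl⟩ := mem_image.1 hS
    exact ⟨q, (mem_filter.1 hq).2, rfl⟩
  have hfib : ∀ U : Finset (Ix 1 B), ∑ i ∈ U, e i ≤ ∑ l ∈ U.image Prod.fst, W (bits l) := by
    intro U
    have h2 : ∑ i ∈ U, e i = ∑ l ∈ U.image Prod.fst, ∑ i ∈ U.filter (fun i => i.1 = l), e i :=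
      (sum_fiberwise_of_maps_to (fun i hi => mem_image_of_mem _ hi) _).symm
    rw [h2]
    refine sum_le_sum fun l _ => ?_
    have h3 : ∀ i ∈ U.filter (fun i => i.1 = l), e i = W (bits l) / B := by
      intro i hi
      rw [he, ← (mem_filter.1 hi).2]
    rw [sum_congr rfl h3, sum_const, nsmul_eq_mul]
    have h4 : (U.filter (fun i => i.1 = l)).card ≤ B := by
      have h5 : (U.filter (fun i => i.1 = l)).card ≤ (univ : Finset (Fin B)).card := by
        apply card_le_card_of_injOn Prod.snd (fun i _ => mem_univ _)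
        intro i hi i' hi' hii
        have h6 := (mem_filter.1 (mem_coe.1 hi)).2
        have h7 := (mem_filter.1 (mem_coe.1 hi')).2
        exact Prod.ext (h6.trans h7.symm) hii
      rwa [card_univ, Fintype.card_fin] at h5
    have h6 : ((U.filter (fun i => i.1 = l)).card : ℝ) ≤ B := by exact_mod_cast h4
    calc ((U.filter (fun i => i.1 = l)).card : ℝ) * (W (bits l) / B) ≤ B * (W (bits l) / B) :=
          mul_le_mul_of_nonneg_right h6 (div_nonneg (hW0 _) hBr.le)
      _ = _ := by field_simp
  have hfacq : ∀ q ∈ Bd, ∀ b : (Bool × Bool) × (Bool × Bool), Al q b.1 b.2 = true → 0 < W b := by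
    intro q hq b hb
    obtain ⟨j0, hj0⟩ := (hBd q hq).2
    refine sum_pos' (fun j _ => wE_nonneg _ _ _ _) ⟨j0, mem_univ _, wE_pos _ _ ?_⟩
    right
    rw [hj0]
    exact hb
  obtain ⟨γ, hγ0, hγ⟩ : ∃ γ : ℝ, 0 < γ ∧ ∀ q ∈ Bd, ∑ j, kc q (cls j) (ev j) (sp j) -
      ∑ j, sv q (cls j) (sp j) (lin j) + γ ≤ N := by
    rcases Bd.eq_empty_or_nonempty with h | h
    · rw [h]
      exact ⟨1, one_pos, fun q hq => absurd hq (notMem_empty _)⟩
    · obtain ⟨q0, hq0, hmin⟩ := Bd.exists_min_image (fun q => N - (∑ j, kc q (cls j) (ev j) (sp j) -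
        ∑ j, sv q (cls j) (sp j) (lin j))) h
      refine ⟨N - (∑ j, kc q0 (cls j) (ev j) (sp j) - ∑ j, sv q0 (cls j) (sp j) (lin j)), ?_,
        fun q hq => ?_⟩
      · have := hcritB q0 hq0
        rw [hN]
        linarith
      · have := hmin q hq
        linarith
  have hBdm : ∀ S ∈ Bd.image (SqJ B), ∃ q ∈ Bd, S = SqJ B q := by
    intro S hS
    obtain ⟨q, hq, rfl⟩ := mem_image.1 hS
    exact ⟨q, hq, rfl⟩
  have hsep : ∀ q ∈ Bd, ∀ q' : Fin 4, q' ≠ 3 →
      (∀ i, 0 < e i → (i ∈ SqJ B q ↔ i ∈ SqJ B q')) → q = q' := by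
    intro q hq q' hq' h
    by_contra hne
    have hq3 := (hBd q hq).1
    obtain ⟨l, hl⟩ := exists_bits (lk_Al q hq3 (ec q, oo) (ec q, oo)
      (Al_xs q hq3).2 (Al_xs q hq3).2)
    have h1 : 0 < e (l, ⟨0, hB⟩) := by
      refine div_pos (hfacq q hq _ ?_) hBr
      rw [hl]
      exact (Al_xs q hq3).2
    have h2 : ((l, ⟨0, hB⟩) : Ix 1 B) ∈ SqJ B q := by
      rw [mem_Sq, hl]
      exact (Al_xs q hq3).2
    have h3 := (h _ h1).1 h2
    rw [mem_Sq, hl] at h3
    have h4 := Al_two q q' hq3 hq' hne (ec q, oo) (Al_xs q hq3).2 h3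
    have h5 : ec q = oo := congrArg Prod.fst h4
    clear h4 h3 h2 h1 hl l h
    revert hq3 h5
    clear hne hq
    revert q
    decide
  obtain ⟨z0, hz0⟩ := ag2zm (Ix 1 B) e (Lk (k := 1) (B := B)) c N (1 / 4) (2 * B0 + 1) γ
    (Fintype.card J) (by norm_num) (by
      have : (0 : ℝ) ≤ B0 := Nat.cast_nonneg _
      linarith) hγ0 (Nat.cast_nonneg _) (by linarith) Sg (Bd.image (SqJ B))
    (fun S hS => by
      obtain ⟨q, hq, rfl⟩ := hBdm S hS
      exact mem_image_of_mem _ (mem_filter.2 ⟨mem_univ _, (hBd q hq).1⟩))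
    (fun S hS S' hS' h => by
      obtain ⟨q, hq, rfl⟩ := hBdm S hS
      obtain ⟨q', hq', rfl⟩ := hSgm S' hS'
      rw [hsep q hq q' hq' h]) he0
    (fun i => by rw [Lk_bits]; exact lk_self _)
    (fun U hU => by
      by_cases hS : ∀ q : Fin 4, q ≠ 3 → ∃ i ∈ U, Al q (bits i.1).1 (bits i.1).2 ≠ true
      · left
        refine (hfib U).trans ?_
        rw [hW, sum_comm]
        have h1 : ∀ j, ∑ l ∈ U.image Prod.fst, wE (cls j) (ev j) (sp j) (bits l) ≤ 1 := by
          intro j
          refine comb_E _ ?_ ?_ _ _ _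
          · intro l hl l' hl'
            obtain ⟨i, hi, rfl⟩ := mem_image.1 hl
            obtain ⟨i', hi', rfl⟩ := mem_image.1 hl'
            exact hU i hi i' hi'
          · intro q hq
            obtain ⟨i, hi, hA⟩ := hS q hq
            exact ⟨i.1, mem_image_of_mem _ hi, hA⟩
        refine (sum_le_sum fun j _ => h1 j).trans (le_of_eq ?_)
        rw [sum_const, card_univ, nsmul_eq_mul, mul_one]
      · right
        push Not at hS
        obtain ⟨q, hq, hA⟩ := hS
        exact ⟨SqJ B q, mem_image_of_mem _ (mem_filter.2 ⟨mem_univ _, hq⟩), fun i hi =>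
          mem_Sq.2 (hA i hi)⟩)
    (fun S hS i hi j hj => by
      obtain ⟨q, hq, rfl⟩ := hSgm S hS
      rw [Lk_bits]
      exact lk_Al q hq _ _ (mem_Sq.1 hi) (mem_Sq.1 hj))
    (fun S hS S' hS' hne => by
      obtain ⟨q, hq, rfl⟩ := hSgm S hS
      obtain ⟨q', hq', rfl⟩ := hSgm S' hS'
      have hqq : q ≠ q' := fun h => hne (by rw [h])
      have hoo : ∀ i ∈ SqJ B q ∩ SqJ B q', bits i.1 = (oo, oo) := by
        intro i hi
        rw [mem_inter, mem_Sq, mem_Sq] at hi
        exact Al_two q q' hq hq' hqq _ hi.1 hi.2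
      refine lt_of_le_of_lt (hfib _) ?_
      have h1 : ((SqJ B q ∩ SqJ B q').image Prod.fst).card ≤ 1 := by
        rw [card_le_one]
        intro l hl l' hl'
        obtain ⟨i, hi, rfl⟩ := mem_image.1 hl
        obtain ⟨i', hi', rfl⟩ := mem_image.1 hl'
        exact bits_inj ((hoo i hi).trans (hoo i' hi').symm)
      have h2 : ∑ l ∈ (SqJ B q ∩ SqJ B q').image Prod.fst, W (bits l) ≤ W (oo, oo) := by
        have h3 : ∀ l ∈ (SqJ B q ∩ SqJ B q').image Prod.fst, W (bits l) = W (oo, oo) := by
          intro l hl
          obtain ⟨i, hi, rfl⟩ := mem_image.1 hl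
          rw [hoo i hi]
        rw [sum_congr rfl h3, sum_const, nsmul_eq_mul]
        have h4 : (((SqJ B q ∩ SqJ B q').image Prod.fst).card : ℝ) ≤ 1 := by exact_mod_cast h1
        calc _ ≤ 1 * W (oo, oo) := mul_le_mul_of_nonneg_right h4 (hW0 _)
          _ = _ := one_mul _
      have h3 : W (oo, oo) ≤ N * (3 / 4) := by
        refine (sum_le_sum fun j _ => wE_oo (cls j) (ev j) (sp j)).trans (le_of_eq ?_)
        rw [sum_const, card_univ, nsmul_eq_mul]
      linarith)
  refine ⟨z0 + 2 * c + 3, fun z hz kap R Cj κ0 hlw hlin hR0 H1 H2 => ?_⟩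
  have hpc : ∀ p : ℕ, z < p → (0 : ℝ) < (p : ℝ) - c := by
    intro p hp
    have : (2 * c + 3 : ℝ) ≤ p := by exact_mod_cast (by omega : 2 * c + 3 ≤ p)
    have hc0 : (0 : ℝ) ≤ c := Nat.cast_nonneg c
    linarith
  have hpc2 : ∀ p : ℕ, z < p → 1 / ((p : ℝ) - c) ≤ 2 / p := by
    intro p hp
    have h1 : (2 * c + 3 : ℝ) ≤ p := by exact_mod_cast (by omega : 2 * c + 3 ≤ p)
    have h2 := hpc p hp
    have hc0 : (0 : ℝ) ≤ c := Nat.cast_nonneg c
    have h3 : (0 : ℝ) < p := by linarith
    rw [div_le_div_iff₀ h2 h3]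
    linarith
  have hR0' : ∀ p : ℕ, p.Prime → z < p → ∑ j, ((R j p).card : ℝ) ≤ B0 := by
    intro p hp hzp
    exact_mod_cast hR0 p hp hzp
  have hCj : 0 ≤ Cj := (abs_nonneg _).trans (H1 (Classical.arbitrary J) (z + 1) (by omega))
  have hll : ∀ y : ℕ, z < y → 0 ≤ Real.log (Real.log y) := by
    intro y hy
    have h1 : (3 : ℝ) ≤ y := by exact_mod_cast (by omega : 3 ≤ y)
    apply Real.log_nonneg
    rw [Real.le_log_iff_exp_le (by linarith)]
    have := Real.exp_one_lt_d9
    linarith
  obtain ⟨C, hC⟩ := hz0 z (by omega) (wt (B := B) (bW (k := 1) w cls ev kap R) c)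
    (Fintype.card J * (2 * 1 * Cj))
    (fun i hi p _ _ => by
      have h1 : W (bits i.1) = 0 := by
        have h2 : W (bits i.1) / B = 0 := hi
        rcases div_eq_zero_iff.1 h2 with h3 | h3
        · exact h3
        · exact absurd h3 hBr.ne'
      have h2 := (sum_eq_zero_iff_of_nonneg fun j _ => wE_nonneg _ _ _ _).1 h1
      unfold wt
      rw [bW_bits, sum_eq_zero, zero_div]
      intro j _
      rw [sum_eq_zero, mul_zero]
      intro r _
      have h3 := h2 j (mem_univ j)
      have h4 : ¬ (cls j = 3 ∨ Al (cls j) (bits i.1).1 (bits i.1).2 = true) := by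
        intro h5
        exact (wE_pos (ev j) (sp j) h5).ne' h3
      push Not at h4
      exact bo_zero h4.1 _ _ _ h4.2)
    (fun i p hp hpz => by
      unfold wt
      rw [abs_div, abs_of_pos (mul_pos hBr (hpc p hpz)), div_mul_eq_div_div]
      refine div_le_div_of_nonneg_right ?_ (hpc p hpz).le
      rw [div_le_iff₀ hBr, bW_bits]
      refine (abs_sum_le_sum_abs _ _).trans ?_
      have h1 : ∀ j ∈ (univ : Finset J), |w j * ∑ r ∈ R j p, bo (cls j) (ev j) (kap j r) p
          (bits i.1).1 (bits i.1).2| ≤ ((R j p).card : ℝ) := by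
        intro j _
        rw [abs_mul, abs_of_nonneg (hw0 j)]
        refine (mul_le_of_le_one_left (abs_nonneg _) (hw1 j)).trans ?_
        refine (abs_sum_le_sum_abs _ _).trans ?_
        refine (sum_le_sum fun r _ => (abs_bo_le (cls j) (ev j) (kap j r) p (bits i.1)).trans
          (fw_le _ _ _ _)).trans (le_of_eq ?_)
        rw [sum_const, nsmul_eq_mul, mul_one]
      refine (sum_le_sum h1).trans ((hR0' p hp hpz).trans ?_)
      rw [hBdef]
      push_cast
      linarith)
    (fun i y hy => by
      have h0 := asymW_sum H1 H2 (fun j s => fw (cls j) (ev j) (bits i.1) s)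
        (fun j hj => by
          show fw (cls j) (ev j) (bits i.1) false = fw (cls j) (ev j) (bits i.1) true
          unfold fw
          rw [if_pos hj, if_pos hj])
        (M := 1) (fun j => by
          show |fw (cls j) (ev j) (bits i.1) true| ≤ 1
          rw [abs_of_nonneg (fw_nonneg _ _ _ _)]
          exact fw_le _ _ _ _)
        (fun j => by
          show |fw (cls j) (ev j) (bits i.1) false - fw (cls j) (ev j) (bits i.1) true| ≤ 1
          have h1 := fw_nonneg (cls j) (ev j) (bits i.1) false
          have h2 := fw_nonneg (cls j) (ev j) (bits i.1) true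
          have h3 := fw_le (cls j) (ev j) (bits i.1) false
          have h4 := fw_le (cls j) (ev j) (bits i.1) true
          rw [abs_le]
          constructor <;> linarith) hy
      simp only [fw_th] at h0
      have h1 : ∑ p ∈ PS z y, |wt (B := B) (bW (k := 1) w cls ev kap R) c i p| ≤
          (∑ p ∈ PS z y, (∑ j, w j * ∑ r ∈ R j p, fw (cls j) (ev j) (bits i.1)
            (sg0 p (kap j r 0))) / ((p : ℝ) - c)) / B := by
        rw [sum_div]
        refine sum_le_sum fun p hp => ?_
        obtain ⟨⟨h2, h3⟩, h4⟩ := mem_PS.1 hp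
        unfold wt
        rw [abs_div, abs_of_pos (mul_pos hBr (hpc p h2)), bW_bits, div_div,
          mul_comm ((p : ℝ) - c)]
        refine div_le_div_of_nonneg_right ?_ (mul_pos hBr (hpc p h2)).le
        refine (abs_sum_le_sum_abs _ _).trans (sum_le_sum fun j _ => ?_)
        rw [abs_mul, abs_of_nonneg (hw0 j)]
        refine mul_le_mul_of_nonneg_left ?_ (hw0 j)
        refine (abs_sum_le_sum_abs _ _).trans (sum_le_sum fun r _ => ?_)
        exact abs_bo_le (cls j) (ev j) (kap j r) p (bits i.1)
      refine h1.trans ?_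
      rw [div_le_iff₀ hBr]
      have h2 := (abs_le.1 h0).2
      have h3 : e i * Real.log (Real.log y) * B = W (bits i.1) * Real.log (Real.log y) := by
        rw [he]
        field_simp
      rw [add_mul, h3]
      have h4 : (Fintype.card J : ℝ) * (2 * 1 * Cj) ≤ Fintype.card J * (2 * 1 * Cj) * B := by
        apply le_mul_of_one_le_right
        · positivity
        · exact_mod_cast hB
      linarith)
    (fun S hS => by
      obtain ⟨q, hq, rfl⟩ := hSgm S hS
      set m : ℕ → ℝ := fun p => (∑ j, w j * ∑ r ∈ R j p, mj q (cls j) (ev j) (sg0 p (kap j r 0))) /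
        |(p : ℝ) - c| with hm
      set G : ℕ → ℝ := fun p => (∑ j, w j * ∑ r ∈ R j p, gj q (cls j) (sg0 p (kap j r 0))) /
        |(p : ℝ) - c| with hG
      have hm0 : ∀ p, 0 ≤ m p := fun p => div_nonneg (sum_nonneg fun j _ => mul_nonneg (hw0 j)
        (sum_nonneg fun r _ => (mj_nonneg _ _ _ _).1)) (abs_nonneg _)
      have hG0 : ∀ p, 0 ≤ G p := fun p => div_nonneg (sum_nonneg fun j _ => mul_nonneg (hw0 j)
        (sum_nonneg fun r _ => (gj_nonneg _ _ _).1)) (abs_nonneg _)
      set Kq : ℝ := ∑ j, kc q (cls j) (ev j) (sp j) with hKq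
      set Dq : ℝ := ∑ j, dc q (cls j) (sp j) with hDq
      have hmsum : ∀ y : ℕ, z < y → ∑ p ∈ PS z y, m p ≤
          Kq * Real.log (Real.log y) + Fintype.card J * (2 * 2 * Cj) := by
        intro y hy
        have h0 := asymW_sum H1 H2 (fun j s => mj q (cls j) (ev j) s)
          (fun j hj => by
            show mj q (cls j) (ev j) false = mj q (cls j) (ev j) true
            unfold mj
            rw [if_pos hj, if_pos hj])
          (M := 2) (fun j => by
            show |mj q (cls j) (ev j) true| ≤ 2
            rw [abs_of_nonneg (mj_nonneg _ _ _ _).1]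
            exact (mj_nonneg _ _ _ _).2)
          (fun j => by
            show |mj q (cls j) (ev j) false - mj q (cls j) (ev j) true| ≤ 2
            have h1 := mj_nonneg q (cls j) (ev j) false
            have h2 := mj_nonneg q (cls j) (ev j) true
            rw [abs_le]
            constructor <;> linarith [h1.1, h1.2, h2.1, h2.2]) hy
        simp only [mj_th] at h0
        have h1 : ∑ p ∈ PS z y, m p = ∑ p ∈ PS z y, (∑ j, w j * ∑ r ∈ R j p,
            mj q (cls j) (ev j) (sg0 p (kap j r 0))) / ((p : ℝ) - c) := by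
          refine sum_congr rfl fun p hp => ?_
          rw [hm]
          simp only
          rw [abs_of_pos (hpc p (mem_PS.1 hp).1.1)]
        rw [h1]
        linarith [(abs_le.1 h0).2]
      have hGsum : ∀ y : ℕ, z < y → |∑ p ∈ PS z y, G p - Dq * Real.log (Real.log y)| ≤
          Fintype.card J * (2 * 1 * Cj) := by
        intro y hy
        have h0 := asymW_sum H1 H2 (fun j s => gj q (cls j) s)
          (fun j hj => by
            show gj q (cls j) false = gj q (cls j) true
            unfold gj
            rw [if_pos hj, if_pos hj])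
          (M := 1) (fun j => by
            show |gj q (cls j) true| ≤ 1
            rw [abs_of_nonneg (gj_nonneg _ _ _).1]
            exact (gj_nonneg _ _ _).2)
          (fun j => by
            show |gj q (cls j) false - gj q (cls j) true| ≤ 1
            have h1 := gj_nonneg q (cls j) false
            have h2 := gj_nonneg q (cls j) true
            rw [abs_le]
            constructor <;> linarith [h1.1, h1.2, h2.1, h2.2]) hy
        simp only [gj_th] at h0
        have h1 : ∑ p ∈ PS z y, G p = ∑ p ∈ PS z y, (∑ j, w j * ∑ r ∈ R j p,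
            gj q (cls j) (sg0 p (kap j r 0))) / ((p : ℝ) - c) := by
          refine sum_congr rfl fun p hp => ?_
          rw [hG]
          simp only
          rw [abs_of_pos (hpc p (mem_PS.1 hp).1.1)]
        rw [h1]
        exact h0
      -- the joint bound
      have hjoint : ∀ (f : Ix 1 B → ℕ) (p : ℕ), z < p →
          ∑ i ∈ SqJ B q, wt (B := B) (bW (k := 1) w cls ev kap R) c i p *
            XX (Lk (k := 1) (B := B)) i f p ≤ m p ∧
          ∀ U : ℝ, (U = XLf (oo, (ec q).swap) f p ∨ U = XLf (ec q, oo) f p) →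
            ∑ i ∈ SqJ B q, wt (B := B) (bW (k := 1) w cls ev kap R) c i p *
              XX (Lk (k := 1) (B := B)) i f p ≤ m p - G p * (1 - U) := by
        intro f p hp
        rw [joint_sumW hq hB]
        set U := XLf (oo, (ec q).swap) f p with hU
        set V := XLf (ec q, oo) f p with hV
        have hU1 : |U| ≤ 1 := abs_XLf _ _ _
        have hV1 : |V| ≤ 1 := abs_XLf _ _ _
        have hp0 := hpc p hp
        have hmp : m p = (∑ j, w j * ∑ r ∈ R j p, mj q (cls j) (ev j) (sg0 p (kap j r 0))) /
            ((p : ℝ) - c) := by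
          rw [hm]
          simp only
          rw [abs_of_pos hp0]
        have hGp : G p = (∑ j, w j * ∑ r ∈ R j p, gj q (cls j) (sg0 p (kap j r 0))) /
            ((p : ℝ) - c) := by
          rw [hG]
          simp only
          rw [abs_of_pos hp0]
        have hQ := fun j r => Qj_le hq (cls j) (ev j) (kap j r) p hU1 hV1
        refine ⟨?_, ?_⟩
        · rw [hmp]
          refine div_le_div_of_nonneg_right ?_ hp0.le
          exact sum_le_sum fun j _ => mul_le_mul_of_nonneg_left
            (sum_le_sum fun r _ => (hQ j r).1) (hw0 j)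
        · intro X hX
          rw [hmp, hGp, div_mul_eq_mul_div, ← sub_div, sum_mul, ← sum_sub_distrib]
          refine div_le_div_of_nonneg_right (sum_le_sum fun j _ => ?_) hp0.le
          rw [mul_assoc, ← mul_sub]
          refine mul_le_mul_of_nonneg_left ?_ (hw0 j)
          rw [sum_mul, ← sum_sub_distrib]
          refine sum_le_sum fun r _ => ?_
          rcases hX with rfl | rfl
          · exact (hQ j r).2.1
          · exact (hQ j r).2.2
      by_cases hqB : q ∈ Bd
      · refine Or.inr ⟨mem_image_of_mem _ hqB, ?_⟩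
        obtain ⟨C1s, hC1s, hos⟩ := gl_one_sided (q := q) (cls := cls) (z := z) (by omega) κ0 hlin
        have hc0 : (0 : ℝ) ≤ c := Nat.cast_nonneg c
        have hB00 : (0 : ℝ) ≤ B0 := Nat.cast_nonneg B0
        have n1 : 0 ≤ (Fintype.card J : ℝ) * (2 * 2 * Cj) := by positivity
        have n2 : 0 ≤ (Fintype.card J : ℝ) * (Cj + 2 * c * B0) := by positivity
        refine ⟨m, gl q cls lin kap R, Kq, ∑ j, sv q (cls j) (sp j) (lin j),
          Fintype.card J * (2 * 2 * Cj) + Fintype.card J * (Cj + 2 * c * B0) + C1s,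
          (SqJ B q).filter fun i => bits i.1 = (oo, (ec q).swap) ∨ bits i.1 = (ec q, oo),
          ?_, filter_subset _ _, hγ q hqB, hm0, ?_, ?_, ?_, ?_, ?_, ?_⟩
        · intro i hi
          rw [mem_filter, mem_Sq] at hi
          exact div_pos (hfacq q hqB _ hi.1) hBr
        · intro p hp hzp
          exact ⟨gl_nn p, gl_le hR0 hp hzp⟩
        · intro y hy
          have := hmsum y hy
          linarith
        · intro y hy
          have := gl_sumW (lin := lin) (q := q) (c := c) (by omega) hR0 (fun j hj hc y hy => by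
            have h9 := H2 j hc y hy
            simp only [hlw j hj, one_mul] at h9
            exact h9) hq hy hCj
          linarith
        · intro y r t hy hr hrs hrp
          have := hos y r t hy hr hrs hrp
          linarith
        · intro y hy f hf hf1 p hp hpf i0 hi0
          have hzp := (mem_PS.1 hp).1.1
          obtain ⟨h1, h2⟩ := hjoint f p hzp
          rw [mem_filter] at hi0
          have h3 := h2 (XX (Lk (k := 1) (B := B)) i0 f p) (by
            rw [XX_eq]
            rcases hi0.2 with h | h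
            · left; rw [h]
            · right; rw [h])
          refine h3.trans ?_
          have h4 : 0 ≤ 1 - XX (Lk (k := 1) (B := B)) i0 f p := by
            have := (abs_le.1 (abs_XX_le (Lk (k := 1) (B := B)) i0 f p)).2
            linarith
          have h5 : gl q cls lin kap R p ≤ G p := by
            have hp0 : (0 : ℝ) < p := by exact_mod_cast (mem_PS.1 hp).2.pos
            have hpc0 := hpc p hzp
            have h6 : ∑ j, (if cls j = q ∧ lin j = true then ((Rz kap R j p).card : ℝ) else 0) ≤
                ∑ j, w j * ∑ r ∈ R j p, gj q (cls j) (sg0 p (kap j r 0)) := by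
              refine sum_le_sum fun j _ => ?_
              by_cases hj : cls j = q ∧ lin j = true
              · rw [if_pos hj, hlw j hj.2, one_mul, sum_s kap R j p (fun s => gj q (cls j) s)]
                have e1 : gj q (cls j) true = 0 := by
                  unfold gj
                  rw [if_neg (by rw [hj.1]; exact hq), if_pos hj.1, if_pos rfl]
                have e2 : gj q (cls j) false = 1 := by
                  unfold gj
                  rw [if_neg (by rw [hj.1]; exact hq), if_pos hj.1, if_neg (by simp)]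
                simp only [e1, e2]
                linarith
              · rw [if_neg hj]
                exact mul_nonneg (hw0 j) (sum_nonneg fun r _ => (gj_nonneg _ _ _).1)
            unfold gl
            rw [hG]
            simp only
            rw [abs_of_pos hpc0, div_le_div_iff₀ hp0 hpc0]
            have h7 : (p : ℝ) - c ≤ p := by linarith
            have h8 : 0 ≤ ∑ j, w j * ∑ r ∈ R j p, gj q (cls j) (sg0 p (kap j r 0)) :=
              sum_nonneg fun j _ => mul_nonneg (hw0 j)
                (sum_nonneg fun r _ => (gj_nonneg _ _ _).1)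
            exact mul_le_mul h6 h7 hpc0.le h8
          have h6 := mul_le_mul_of_nonneg_right h5 h4
          linarith
        · intro j hj
          rw [mem_Sq] at hj
          rcases det q hq (bits j.1) (lk_self _) hj with h | h
          · obtain ⟨l, hl⟩ := exists_bits (lk_Al q hq (oo, (ec q).swap) (oo, (ec q).swap)
              (Al_xs q hq).1 (Al_xs q hq).1)
            refine ⟨(l, ⟨0, hB⟩), ?_, ?_⟩
            · rw [mem_filter, mem_Sq]
              simp only [hl]
              exact ⟨(Al_xs q hq).1, Or.inl trivial⟩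
            · rw [Lk_bits, Lk_bits, hl]
              exact h
          · obtain ⟨l, hl⟩ := exists_bits (lk_Al q hq (ec q, oo) (ec q, oo)
              (Al_xs q hq).2 (Al_xs q hq).2)
            refine ⟨(l, ⟨0, hB⟩), ?_, ?_⟩
            · rw [mem_filter, mem_Sq]
              simp only [hl]
              exact ⟨(Al_xs q hq).2, Or.inr trivial⟩
            · rw [Lk_bits, Lk_bits, hl]
              exact h
      refine Or.inl ⟨?_, ?_⟩
      · intro h'
        obtain ⟨q2, hq2, h'⟩ := mem_image.1 h'
        have := hsep q2 hq2 q hq (fun i _ => by rw [h'])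
        rw [this] at hq2
        exact hqB hq2
      have hKN : Kq ≤ N := hcrit q hq hqB
      by_cases hD : ∃ j, cls j = 3 ∨ cls j = q
      · right
        obtain ⟨j0, hj0⟩ := hD
        have hdc0 : ∀ j, 0 ≤ dc q (cls j) (sp j) := by
          intro j
          unfold dc
          have := (th_pos (sp j)).1
          split_ifs <;> linarith
        have hDq4 : 1 / 4 ≤ Dq := by
          have h1 : dc q (cls j0) (sp j0) ≤ Dq :=
            single_le_sum (f := fun j => dc q (cls j) (sp j)) (fun j _ => hdc0 j) (mem_univ j0)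
          have h2 : 1 / 4 ≤ dc q (cls j0) (sp j0) := by
            unfold dc
            by_cases h3 : cls j0 = 3
            · rw [if_pos h3]
            · rw [if_neg h3, if_pos (hj0.resolve_left h3)]
              have := (th_pos (sp j0)).1
              linarith
          linarith
        have hDpos : 0 < Dq := by linarith
        set t : ℝ := (1 / 4) / Dq with ht
        have ht0 : 0 ≤ t := by positivity
        have ht1 : t ≤ 1 := by
          rw [ht, div_le_one hDpos]
          exact hDq4
        have hfac : ∀ b : (Bool × Bool) × (Bool × Bool), Al q b.1 b.2 = true → 0 < W b := by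
          intro b hb
          refine sum_pos' (fun j _ => wE_nonneg _ _ _ _) ⟨j0, mem_univ _, wE_pos _ _ ?_⟩
          rcases hj0 with h | h
          · exact Or.inl h
          · right
            rw [h]
            exact hb
        refine ⟨m, fun p => t * G p, Fintype.card J * (2 * 2 * Cj),
          (SqJ B q).filter fun i => bits i.1 = (oo, (ec q).swap) ∨ bits i.1 = (ec q, oo),
          ?_, filter_subset _ _, hm0, ?_, ?_, ?_, ?_, ?_⟩
        · intro i hi
          rw [mem_filter, mem_Sq] at hi
          exact div_pos (hfac _ hi.1) hBr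
        · intro p hp hzp
          refine ⟨mul_nonneg ht0 (hG0 p), ?_⟩
          have h1 : t * G p ≤ G p := mul_le_of_le_one_left (hG0 p) ht1
          refine h1.trans ?_
          have h2 : ∑ j, w j * ∑ r ∈ R j p, gj q (cls j) (sg0 p (kap j r 0)) ≤ B0 := by
            refine (sum_le_sum fun j _ => (mul_le_of_le_one_left (sum_nonneg fun r _ =>
              (gj_nonneg _ _ _).1) (hw1 j)).trans
              (sum_le_sum fun r _ => (gj_nonneg _ _ _).2)).trans ?_
            simp only [sum_const, nsmul_eq_mul, mul_one]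
            exact hR0' p hp hzp
          have h3 : (0 : ℝ) < p := by exact_mod_cast hp.pos
          rw [hG]
          simp only
          rw [abs_of_pos (hpc p hzp), div_eq_mul_one_div]
          calc (∑ j, w j * ∑ r ∈ R j p, gj q (cls j) (sg0 p (kap j r 0))) *
              (1 / ((p : ℝ) - c)) ≤
              B0 * (2 / p) := mul_le_mul h2 (hpc2 p hzp) (by
                have := hpc p hzp
                positivity) (Nat.cast_nonneg _)
            _ ≤ (2 * B0 + 1) / p := by
              rw [← mul_div_assoc]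
              apply div_le_div_of_nonneg_right _ h3.le
              linarith
        · intro y hy
          refine (hmsum y hy).trans ?_
          have := mul_le_mul_of_nonneg_right hKN (hll y hy)
          linarith
        · intro y hy
          have h1 := hGsum y hy
          have h2 : ∑ p ∈ PS z y, t * G p - 1 / 4 * Real.log (Real.log y) =
              t * (∑ p ∈ PS z y, G p - Dq * Real.log (Real.log y)) := by
            rw [← mul_sum, mul_sub, ← mul_assoc t Dq, ht, div_mul_cancel₀ _ hDpos.ne']
          rw [h2, abs_mul, abs_of_nonneg ht0]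
          calc t * |∑ p ∈ PS z y, G p - Dq * Real.log (Real.log y)| ≤
              1 * (Fintype.card J * (2 * 1 * Cj)) :=
                mul_le_mul ht1 h1 (abs_nonneg _) zero_le_one
            _ ≤ _ := by
              rw [one_mul]
              apply mul_le_mul_of_nonneg_left _ (Nat.cast_nonneg _)
              linarith
        · intro y hy f hf hf1 p hp hpf
          have hzp := (mem_PS.1 hp).1.1
          obtain ⟨h1, h2⟩ := hjoint f p hzp
          refine ⟨h1, fun i0 hi0 => ?_⟩
          rw [mem_filter] at hi0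
          have h3 := h2 (XX (Lk (k := 1) (B := B)) i0 f p) (by
            rw [XX_eq]
            rcases hi0.2 with h | h
            · left; rw [h]
            · right; rw [h])
          refine h3.trans ?_
          have h4 : 0 ≤ 1 - XX (Lk (k := 1) (B := B)) i0 f p := by
            have := (abs_le.1 (abs_XX_le (Lk (k := 1) (B := B)) i0 f p)).2
            linarith
          have h5 : t * G p ≤ G p := mul_le_of_le_one_left (hG0 p) ht1
          have h6 := mul_le_mul_of_nonneg_right h5 h4
          linarith
        · intro j hj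
          rw [mem_Sq] at hj
          rcases det q hq (bits j.1) (lk_self _) hj with h | h
          · obtain ⟨l, hl⟩ := exists_bits (lk_Al q hq (oo, (ec q).swap) (oo, (ec q).swap)
              (Al_xs q hq).1 (Al_xs q hq).1)
            refine ⟨(l, ⟨0, hB⟩), ?_, ?_⟩
            · rw [mem_filter, mem_Sq]
              simp only [hl]
              exact ⟨(Al_xs q hq).1, Or.inl trivial⟩
            · rw [Lk_bits, Lk_bits, hl]
              exact h
          · obtain ⟨l, hl⟩ := exists_bits (lk_Al q hq (ec q, oo) (ec q, oo)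
              (Al_xs q hq).2 (Al_xs q hq).2)
            refine ⟨(l, ⟨0, hB⟩), ?_, ?_⟩
            · rw [mem_filter, mem_Sq]
              simp only [hl]
              exact ⟨(Al_xs q hq).2, Or.inr trivial⟩
            · rw [Lk_bits, Lk_bits, hl]
              exact h
      · left
        push Not at hD
        refine ⟨m, N * (3 / 4), Fintype.card J * (2 * 2 * Cj), by linarith, hm0, ?_, ?_⟩
        · intro y hy
          refine (hmsum y hy).trans ?_
          have h1 : Kq ≤ N * (3 / 4) := by
            refine (sum_le_sum fun j _ => kc_le q (cls j) (ev j) (sp j) (hD j).1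
              (hD j).2).trans (le_of_eq ?_)
            rw [sum_const, card_univ, nsmul_eq_mul]
          have := mul_le_mul_of_nonneg_right h1 (hll y hy)
          linarith
        · intro y hy f hf hf1 p hp hpf
          exact (hjoint f p (mem_PS.1 hp).1.1).1)
  refine ⟨C, fun y hy => ?_⟩
  have hMT : ∑ q ∈ Bd, ∏ p ∈ PS z y, (1 + (∑ j, w j * ∑ r ∈ R j p,
      Qj q (cls j) (ev j) (kap j r) p 1 1) / ((p : ℝ) - c)) =
      ∑ S ∈ Bd.image (SqJ B), MT (wt (B := B) (bW (k := 1) w cls ev kap R) c) S z y := by
    rw [sum_image fun q hq q' hq' h => hsep q hq q' (hBd q' hq').1 (fun i _ => by rw [h])]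
    refine sum_congr rfl fun q hq => ?_
    unfold MT
    refine prod_congr rfl fun p _ => ?_
    congr 1
    have h1 := joint_sumW (hBd q hq).1 hB w cls ev kap R c p (fun _ => 1)
    have h2 : ∀ b, XLf (B := B) b (fun _ => 1) p = 1 := by
      intro b
      unfold XLf
      refine prod_eq_one fun b' _ => ?_
      rw [Jr_right_one, Nat.cast_one, Jr_left_one]
      simp
    rw [h2, h2] at h1
    rw [← h1]
    refine sum_congr rfl fun i _ => ?_
    rw [XX_eq, h2, mul_one]
  rw [hMT, exp_id hB (lamW (k := 1) w cls ev kap R) (bW w cls ev kap R) c z y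
    (fun p _ v h => lamW_eq w cls ev kap R p v h)
    (fun p _ v x h => bW_odd w cls ev kap R p v x h)]
  refine (hC y hy).trans (le_of_eq ?_)
  rw [hN, Real.rpow_natCast]

end

end Pool.Agent.L0h5.TE
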