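import Pool.Agent.L0h5.TE.W2
import Pool.Agent.L0h5.TE.D9
import Pool.Agent.L0h5.TH.AvA
import Pool.Agent.L0h5.T4.Stm4

/-!
# The average for the family of the pairs `(c, b)`
-/

set_option autoImplicit false
set_option linter.unusedSectionVars false

namespace Pool.Agent.L0h5.TE

open Finset Polynomial Pool.Agent.W262.RK Pool.Agent.L0h5.TH Pool.Agent.L0h5.MR
  Pool.Agent.L0h5.T4
open Pool.Agent.L0h5.TF hiding oo

/-- the local condition depends on the symbol of the constant only -/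
lemma LE_sg {c : Fin 4} (hc : c ≠ 3) (ev : Bool) {κ κ' : Fin 3 → ℤ} {p : ℕ}
    (h : sg0 p (κ 0) = sg0 p (κ' 0)) (neg neg' : Bool) :
    LE c ev κ neg p = LE c ev κ' neg' p := by
  funext v w h' g
  unfold TH.LE nsE LL
  rw [h]
  rcases lt3 hc with rfl | rfl | rfl <;> simp

lemma lstE_sg {k : ℕ} {c : Fin 4} (hc : c ≠ 3) (ev : Bool) {κ κ' : Fin 3 → ℤ} {p : ℕ}
    (h : sg0 p (κ 0) = sg0 p (κ' 0)) (neg : Bool) (v x : Vk k) :
    lstE c ev κ p v x = ∏ i, iL (LE c ev κ' neg p) (v i) (x i) := by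
  unfold lstE
  have h1 : ∀ neg' : Bool, LE c ev κ neg' p = LE c ev κ' neg p := fun neg' =>
    LE_sg hc ev h neg' neg
  simp only [h1, Fintype.sum_bool]
  ring

/-- the weights -/
noncomputable def w4 : Fin 3 → ℝ := ![1 / 2, 1, 1]

/-- the splitting bits -/
def sp4 : Fin 3 → Bool := ![false, true, false]

open Classical in
/-- a nonresidue, natural number -/
noncomputable def nN (p : ℕ) : ℕ := if h : ∃ n : ℕ, sg0 p (n : ℤ) = true then h.choose else 0

/-- the roots -/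
noncomputable def R4 (j : Fin 3) (p : ℕ) : Finset ℕ := if j = 0 then {1, nN p} else {1}

/-- the constants -/
def kp4 (j : Fin 3) (r : ℕ) : Fin 3 → ℤ := fun _ =>
  if j = 0 then (r : ℤ) else if j = 1 then 1 else -1

lemma exists_nonres {p : ℕ} (hp : p.Prime) (h2 : p ≠ 2) : ∃ n : ℕ, sg0 p (n : ℤ) = true := by
  have := Fact.mk hp
  obtain ⟨a, ha⟩ := FiniteField.exists_nonsquare (F := ZMod p) (by
    rw [ZMod.ringChar_zmod_n]
    exact h2)
  refine ⟨a.val, ?_⟩
  unfold sg0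
  rw [decide_eq_true_iff, ← jacobiSym.legendreSym.to_jacobiSym, legendreSym.eq_neg_one_iff]
  simpa using ha

lemma sg0_nN {p : ℕ} (hp : p.Prime) (h2 : p ≠ 2) : sg0 p (nN p : ℤ) = true := by
  have h := exists_nonres hp h2
  unfold nN
  rw [dif_pos h]
  exact h.choose_spec

lemma sg0_nr {p : ℕ} (hp : p.Prime) (h2 : p ≠ 2) : sg0 p (nr p) = true := by
  have h : ∃ n : ℤ, ¬ (p : ℤ) ∣ n ∧ sg0 p n = true := by
    obtain ⟨n, hn⟩ := exists_nonres hp h2
    refine ⟨n, fun hd => ?_, hn⟩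
    unfold sg0 at hn
    rw [decide_eq_true_iff] at hn
    have h3 : jacobiSym (n : ℤ) p = 0 := by
      rw [jacobiSym.eq_zero_iff]
      refine ⟨hp.ne_zero, fun h1 => ?_⟩
      have h4 : p ∣ Int.gcd (n : ℤ) p := by
        rw [Int.gcd_natCast_natCast]
        exact Nat.dvd_gcd (by exact_mod_cast hd) (dvd_refl p)
      rw [h1] at h4
      exact hp.one_lt.ne' (Nat.dvd_one.1 h4)
    rw [h3] at hn
    exact absurd hn (by norm_num)
  unfold nr
  rw [dif_pos h]
  exact h.choose_spec.2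

lemma sg0_one (p : ℕ) : sg0 p 1 = false := by
  unfold sg0
  rw [jacobiSym.one_left]
  rfl

lemma R4_card {p : ℕ} (hp : p.Prime) (h2 : p ≠ 2) : R4 0 p = {1, nN p} ∧ 1 ≠ nN p := by
  refine ⟨rfl, fun h => ?_⟩
  have h3 := sg0_nN hp h2
  rw [← h] at h3
  rw [Nat.cast_one, sg0_one] at h3
  exact absurd h3 (by decide)

lemma cl4_ne (j : Fin 3) : cl4 j ≠ 3 := by
  revert j
  decide

/-- the sum over the states -/
lemma sum_st4 {p : ℕ} (hp : p.Prime) (h2 : p ≠ 2)
    (F : (Bool → Bool → Bool → Bool → Prop) → ℝ) :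
    ∑ σ : Fin 3 × Bool, (1 / 2) * F (LS4 σ p) =
      ∑ j, w4 j * ∑ r ∈ R4 j p, F (LE (cl4 j) (ev4 j) (kp4 j r) false p) := by
  have e0 : LS4 (0, false) p = LE (cl4 0) (ev4 0) (kp4 0 1) false p := by
    unfold LS4
    refine LE_sg (cl4_ne _) _ ?_ _ _
    simp [kap4, kp4]
  have e1 : LS4 (0, true) p = LE (cl4 0) (ev4 0) (kp4 0 (nN p)) false p := by
    unfold LS4
    refine LE_sg (cl4_ne _) _ ?_ _ _
    simp [kap4, kp4, sg0_nr hp h2, sg0_nN hp h2]
  have e2 : ∀ b, LS4 (1, b) p = LE (cl4 1) (ev4 1) (kp4 1 1) false p := by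
    intro b
    unfold LS4
    refine LE_sg (cl4_ne _) _ ?_ _ _
    simp [kap4, kp4]
  have e3 : ∀ b, LS4 (2, b) p = LE (cl4 2) (ev4 2) (kp4 2 1) false p := by
    intro b
    unfold LS4
    refine LE_sg (cl4_ne _) _ ?_ _ _
    simp [kap4, kp4]
  rw [Fintype.sum_prod_type, Fin.sum_univ_three, Fin.sum_univ_three]
  simp only [Fintype.sum_bool, e0, e1, e2, e3]
  obtain ⟨h3, h4⟩ := R4_card hp h2
  have h5 : R4 1 p = {1} := rfl
  have h6 : R4 2 p = {1} := rfl
  rw [h3, h5, h6, sum_pair h4, sum_singleton, sum_singleton]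
  have w0 : w4 0 = 1 / 2 := rfl
  have w1 : w4 1 = 1 := rfl
  have w2 : w4 2 = 1 := rfl
  rw [w0, w1, w2]
  ring

lemma lam4 {k : ℕ} {p : ℕ} (hp : p.Prime) (h2 : p ≠ 2) (v x : Vk k) :
    lamW w4 cl4 ev4 kp4 R4 p v x = ∑ σ : Fin 3 × Bool, (1 / 2) * ∏ i, iL (LS4 σ p) (v i) (x i) := by
  rw [sum_st4 hp h2 fun L => ∏ i, iL L (v i) (x i)]
  unfold lamW
  refine sum_congr rfl fun j _ => ?_
  congr 1
  refine sum_congr rfl fun r _ => ?_
  exact lstE_sg (cl4_ne j) _ rfl false v x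

lemma tq4 {p : ℕ} (hp : p.Prime) (h2 : p ≠ 2) {q : Fin 4} (hq : q ≠ 3) :
    ∑ σ : Fin 3 × Bool, (1 / 2) * tq (ec q) (LS4 σ p) =
      ∑ j, w4 j * ∑ r ∈ R4 j p, Qj q (cl4 j) (ev4 j) (kp4 j r) p 1 1 := by
  rw [sum_st4 hp h2 fun L => tq (ec q) L]
  refine sum_congr rfl fun j _ => ?_
  congr 1
  refine sum_congr rfl fun r _ => ?_
  rw [← tq_Qj hq, Fintype.sum_bool, LE_sg (cl4_ne j) (ev4 j) (κ := kp4 j r) (κ' := kp4 j r) rfl
    true false]
  ring

lemma nr_unit {p : ℕ} (hp : p.Prime) (h2 : p ≠ 2) : ¬ (p : ℤ) ∣ nr p := by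
  by_cases h : ∃ n : ℤ, ¬ (p : ℤ) ∣ n ∧ sg0 p n = true
  · unfold nr
    rw [dif_pos h]
    exact h.choose_spec.1
  · exfalso
    have h3 := sg0_nr hp h2
    unfold nr at h3
    rw [dif_neg h, sg0_one] at h3
    exact absurd h3 (by decide)

lemma xc4 {p : ℕ} (hp : p.Prime) (h2 : p ≠ 2) (σ : Fin 3 × Bool) : XC (LS4 σ p) := by
  have hp1 : ¬ (p : ℤ) ∣ 1 := by
    intro hd
    have h3 : p ∣ 1 := by exact_mod_cast hd
    exact hp.one_lt.ne' (Nat.dvd_one.1 h3)
  have hp2 : ¬ (p : ℤ) ∣ -1 := by rwa [dvd_neg]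
  have hnr := nr_unit hp h2
  unfold LS4
  refine xce _ _ _ _ _ hp h2 fun k => ?_
  unfold kap4
  obtain ⟨j, b⟩ := σ
  have hj : j = 0 ∨ j = 1 ∨ j = 2 := by
    revert j
    decide
  rcases hj with rfl | rfl | rfl
  · cases b
    · simpa using hp1
    · simpa using hnr
  · simpa using hp1
  · simpa using hp2

/-- Mertens -/
lemma mert1 (c z : ℕ) (hz : 2 * c + 2 ≤ z) : ∃ C : ℝ, ∀ y : ℕ, z < y →
    |∑ p ∈ PS z y, 1 / ((p : ℝ) - c) - Real.log (Real.log y)| ≤ C := by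
  obtain ⟨C, hC⟩ := mertens_rho (X : ℤ[X]) (by
    rw [Polynomial.map_X]
    exact irreducible_X)
  have hr : ∀ p : ℕ, p.Prime → rho (X : ℤ[X]) p = 1 := by
    intro p hp
    unfold rho
    rw [card_eq_one]
    refine ⟨0, ?_⟩
    ext r
    rw [mem_filter, mem_range, mem_singleton, eval_X]
    constructor
    · rintro ⟨h1, h2⟩
      have h3 : p ∣ r := by exact_mod_cast h2
      exact Nat.eq_zero_of_dvd_of_lt h3 h1
    · rintro rfl
      exact ⟨hp.pos, by simp⟩
  obtain ⟨C', hC'⟩ := two_sided (fun _ => (1 : ℝ)) (fun _ => zero_le_one) 1 c z hz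
    (fun p _ _ => le_rfl) 1 C (fun y hy => by
      refine le_trans (le_of_eq ?_) (hC y hy)
      rw [one_mul]
      congr 2
      refine sum_congr rfl fun p hp => ?_
      rw [hr p (mem_filter.1 hp).2, Nat.cast_one])
  exact ⟨C', fun y hy => by
    have := hC' y hy
    rwa [one_mul] at this⟩

/-- Mertens for the primes `1` modulo `4` -/
lemma mert2 (c z : ℕ) (hz : 2 * c + 2 ≤ z) : ∃ C : ℝ, ∀ y : ℕ, z < y →
    |∑ p ∈ PS z y, (if sg0 p (-1) = false then (1 : ℝ) else 0) / ((p : ℝ) - c) -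
      (1 / 2) * Real.log (Real.log y)| ≤ C := by
  have hirr : Irreducible ((X ^ 2 + 1 : ℤ[X]).map (Int.castRingHom ℚ)) := by
    have e : (X ^ 2 + 1 : ℤ[X]).map (Int.castRingHom ℚ) = X ^ 2 + C 1 := by simp
    rw [e]
    apply irreducible_of_degree_le_three_of_not_isRoot
    · rw [natDegree_X_pow_add_C]
      decide
    · intro x hx
      rw [IsRoot.def] at hx
      simp only [eval_add, eval_pow, eval_X, eval_C] at hx
      nlinarith [sq_nonneg x]
  obtain ⟨C, hC⟩ := mertens_rho (X ^ 2 + 1 : ℤ[X]) hirr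
  have hr : ∀ p : ℕ, p.Prime → p ≠ 2 →
      (rho (X ^ 2 + 1 : ℤ[X]) p : ℝ) = 2 * (if sg0 p (-1) = false then (1 : ℝ) else 0) := by
    intro p hp h2
    have := Fact.mk hp
    have h3 := legendreSym.card_sqrts p h2 (-1)
    have h4 : rho (X ^ 2 + 1 : ℤ[X]) p = {x : ZMod p | x ^ 2 = ((-1 : ℤ) : ZMod p)}.toFinset.card := by
      unfold rho
      refine card_bij (fun r _ => (r : ZMod p)) ?_ ?_ ?_
      · intro r hr
        rw [mem_filter] at hr
        rw [Set.mem_toFinset, Set.mem_setOf_eq]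
        have h5 := (ZMod.intCast_zmod_eq_zero_iff_dvd _ p).2 hr.2
        simp only [eval_add, eval_pow, eval_X, eval_one] at h5
        push_cast at h5 ⊢
        linear_combination h5
      · intro r hr r' hr' h
        rw [mem_filter, mem_range] at hr hr'
        have h5 := (ZMod.natCast_eq_natCast_iff' r r' p).1 h
        rwa [Nat.mod_eq_of_lt hr.1, Nat.mod_eq_of_lt hr'.1] at h5
      · intro x hx
        rw [Set.mem_toFinset, Set.mem_setOf_eq] at hx
        refine ⟨x.val, ?_, by simp⟩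
        rw [mem_filter, mem_range]
        refine ⟨ZMod.val_lt x, ?_⟩
        rw [← ZMod.intCast_zmod_eq_zero_iff_dvd]
        simp only [eval_add, eval_pow, eval_X, eval_one]
        push_cast
        rw [ZMod.natCast_zmod_val, hx]
        push_cast
        ring
    have h5 : ((rho (X ^ 2 + 1 : ℤ[X]) p : ℕ) : ℤ) = legendreSym p (-1) + 1 := by
      rw [h4]
      exact h3
    have h6 : (rho (X ^ 2 + 1 : ℤ[X]) p : ℝ) = ((legendreSym p (-1) : ℤ) : ℝ) + 1 := by
      exact_mod_cast h5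
    rw [h6]
    have h7 : ¬ (p : ℤ) ∣ -1 := by
      rw [dvd_neg]
      intro hd
      have h3 : p ∣ 1 := by exact_mod_cast hd
      exact hp.one_lt.ne' (Nat.dvd_one.1 h3)
    have h8 : ((-1 : ℤ) : ZMod p) ≠ 0 := by
      rw [Ne, ZMod.intCast_zmod_eq_zero_iff_dvd]
      exact h7
    unfold sg0
    rw [← jacobiSym.legendreSym.to_jacobiSym]
    rcases legendreSym.eq_one_or_neg_one p h8 with h9 | h9 <;> rw [h9] <;> norm_num
  obtain ⟨C', hC'⟩ := two_sided (fun p => (if sg0 p (-1) = false then (1 : ℝ) else 0))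
    (fun _ => by positivity) 1 c z hz
    (fun p _ _ => by
      show (if sg0 p (-1) = false then (1 : ℝ) else 0) ≤ 1
      split_ifs <;> norm_num) (1 / 2) (C / 2 + 1) (fun y hy => by
      have h1 := hC y hy
      have h2 : ∀ p ∈ pr y, (if sg0 p (-1) = false then (1 : ℝ) else 0) / (p : ℝ) =
          (1 / 2) * ((rho (X ^ 2 + 1 : ℤ[X]) p : ℝ) / p) + (if p = 2 then
            (if sg0 2 (-1) = false then (1 : ℝ) else 0) / (2 : ℝ) -
              (1 / 2) * ((rho (X ^ 2 + 1 : ℤ[X]) 2 : ℝ) / 2) else 0) := by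
        intro p hp
        by_cases h3 : p = 2
        · subst h3
          simp
        · rw [if_neg h3, hr p (mem_filter.1 hp).2 h3]
          ring
      rw [sum_congr rfl h2, sum_add_distrib, ← mul_sum, sum_ite_eq']
      have h3 : (rho (X ^ 2 + 1 : ℤ[X]) 2 : ℝ) ≤ 2 := by
        have : rho (X ^ 2 + 1 : ℤ[X]) 2 ≤ 2 := by
          unfold rho
          refine (card_filter_le _ _).trans (le_of_eq (card_range 2))
        exact_mod_cast this
      have h4 : (0 : ℝ) ≤ (rho (X ^ 2 + 1 : ℤ[X]) 2 : ℝ) := Nat.cast_nonneg _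
      have h5 := abs_le.1 h1
      rw [abs_le]
      split_ifs <;> constructor <;> linarith [h5.1, h5.2])
  exact ⟨C', hC'⟩

end Pool.Agent.L0h5.TE
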