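import Pool.Agent.L0h5.TE.W3
import Pool.Agent.L0h5.TE.D14

/-!
# The average for the family of the pairs `(c, b)`: the bound
-/

set_option autoImplicit false
set_option linter.unusedSectionVars false

namespace Pool.Agent.L0h5.TE

open Finset Polynomial Pool.Agent.W262.RK Pool.Agent.L0h5.TH Pool.Agent.L0h5.MR
  Pool.Agent.L0h5.T4
open Pool.Agent.L0h5.TF hiding oo

lemma crit4a (q : Fin 4) (h3 : q ≠ 3) (h2 : q ∉ ({2} : Finset (Fin 4))) :
    ∑ j, kc q (cl4 j) (ev4 j) (sp4 j) ≤ Fintype.card (Fin 3) := by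
  rw [mem_singleton] at h2
  have e : q = 0 ∨ q = 1 := by
    revert q
    decide
  rcases e with rfl | rfl
  · simp [Fin.sum_univ_succ, kc, th, ev4, cl4, sp4]
    norm_num
  · simp [Fin.sum_univ_succ, kc, th, ev4, cl4, sp4]
    norm_num

lemma crit4b (q : Fin 4) (h2 : q ∈ ({2} : Finset (Fin 4))) :
    ∑ j, kc q (cl4 j) (ev4 j) (sp4 j) - ∑ j, sv q (cl4 j) (sp4 j) (sp4 j) <
      Fintype.card (Fin 3) := by
  rw [mem_singleton] at h2
  subst h2
  simp [Fin.sum_univ_succ, kc, sv, th, ev4, cl4, sp4]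
  norm_num

lemma w4_nn (j : Fin 3) : 0 ≤ w4 j := by
  fin_cases j <;> simp [w4]

lemma w4_le (j : Fin 3) : w4 j ≤ 1 := by
  fin_cases j <;> simp [w4]
  norm_num

lemma tq4_le {p : ℕ} (hp : p.Prime) (h2 : p ≠ 2) (σ : Fin 3 × Bool) :
    tq (ec 2) (LS4 σ p) ≤ (![![1 / 2, 1], ![2, 2], ![1 / 2, 1 / 2]] : Fin 3 → Fin 2 → ℝ) σ.1
      (if σ.2 = true then 1 else 0) := by
  obtain ⟨j, b⟩ := σ
  have h3 := tq_le_mj (q := 2) (by decide) (cl4 j) (ev4 j)
    (kap4 j p (if b = true then 1 else 0)) false p
  unfold LS4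
  simp only
  refine h3.trans ?_
  have hs0 := sg0_one p
  have hs1 := sg0_nr hp h2
  have hj : j = 0 ∨ j = 1 ∨ j = 2 := by
    clear h3
    revert j
    decide
  rcases hj with rfl | rfl | rfl <;> cases b <;>
    simp [kap4, cl4, ev4, mj, hs0, hs1]

/-- **The average for the family of the pairs `(c, b)`** -/
theorem avg4 (hlow : LOWNL) {ε : ℝ} (h0 : 0 < ε) (h1 : ε ≤ 1) (hx : (2 : ℝ) ^ ε ≤ 3 / 2) :
    ∃ z0 : ℕ, ∀ z, z0 ≤ z → ∃ C' : ℝ, ∀ y, z < y → ∑ s ∈ (PP z y).divisors,
      GE (fun _ => (univ : Finset (Fin 3 × Bool))) LS4 ε s * gw 1 4 s ≤ C' * (Real.log y) ^ 3 := by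
  classical
  obtain ⟨z2, hz2⟩ := avg2w w4 w4_nn w4_le cl4 ev4 sp4 sp4 4 4 {2}
    (by decide) crit4a crit4b
  refine ⟨z2 + 20, fun z hz => ?_⟩
  have hp2 : ∀ p : ℕ, z < p → p ≠ 2 := fun p hp => by omega
  obtain ⟨C1, hC1⟩ := mert1 4 z (by omega)
  obtain ⟨C2, hC2⟩ := mert2 4 z (by omega)
  have hR2 : ∀ p : ℕ, p.Prime → z < p → (R4 0 p).card = 2 := by
    intro p hp hzp
    obtain ⟨h3, h4⟩ := R4_card hp (hp2 p hzp)
    rw [h3, card_pair h4]
  have hR1 : ∀ (j : Fin 3) (p : ℕ), j ≠ 0 → R4 j p = {1} := by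
    intro j p hj
    unfold R4
    rw [if_neg hj]
  have key := hz2 z (by omega) kp4 R4 (|C1| + |C2|) (fun _ => 1)
    (fun j hj => by
      have : j = 1 := by
        revert j
        decide
      rw [this]
      rfl)
    (fun j hj => by
      have hj1 : j = 1 := by
        revert j
        decide
      subst hj1
      refine ⟨one_ne_zero, by simp; omega, fun p hp hzp => ⟨by rw [hR1 1 p (by decide)]; rfl,
        fun r _ => ?_⟩⟩
      simp [kp4])
    (fun p hp hzp => by
      rw [Fin.sum_univ_three, hR2 p hp hzp, hR1 1 p (by decide), hR1 2 p (by decide)]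
      simp)
    (fun j y hy => by
      have h3 : ∑ p ∈ PS z y, w4 j * (((R4 j p).card : ℝ) / ((p : ℝ) - (4 : ℕ))) =
          ∑ p ∈ PS z y, 1 / ((p : ℝ) - (4 : ℕ)) := by
        refine sum_congr rfl fun p hp => ?_
        obtain ⟨⟨h4, -⟩, h5⟩ := mem_PS.1 hp
        by_cases hj : j = 0
        · subst hj
          rw [hR2 p h5 h4]
          have : w4 0 = 1 / 2 := rfl
          rw [this]
          push_cast
          ring
        · rw [hR1 j p hj]
          have : w4 j = 1 := by
            have hj' : j = 1 ∨ j = 2 := by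
              revert j
              decide
            rcases hj' with rfl | rfl <;> rfl
          rw [this, card_singleton]
          push_cast
          ring
      rw [h3]
      have h4 := hC1 y hy
      have h5 := le_abs_self C1
      have h6 := abs_nonneg C2
      linarith)
    (fun j _ y hy => by
      have hj : j = 0 ∨ j = 1 ∨ j = 2 := by
        revert j
        decide
      have h4 := hC1 y hy
      have h5 := le_abs_self C1
      have h6 := abs_nonneg C2
      have h7 := le_abs_self C2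
      have h8 := abs_nonneg C1
      rcases hj with rfl | rfl | rfl
      · have h3 : ∑ p ∈ PS z y, w4 0 * (((Rz kp4 R4 0 p).card : ℝ) / ((p : ℝ) - (4 : ℕ))) =
            (1 / 2) * ∑ p ∈ PS z y, 1 / ((p : ℝ) - (4 : ℕ)) := by
          rw [mul_sum]
          refine sum_congr rfl fun p hp => ?_
          obtain ⟨⟨h4, -⟩, h5⟩ := mem_PS.1 hp
          have h9 : Rz kp4 R4 0 p = {1} := by
            obtain ⟨h10, h11⟩ := R4_card h5 (hp2 p h4)
            unfold Rz
            rw [h10]
            ext r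
            rw [mem_filter, mem_insert, mem_singleton, mem_singleton]
            constructor
            · rintro ⟨h12 | h12, h13⟩
              · exact h12
              · exfalso
                rw [h12] at h13
                have h14 := sg0_nN h5 (hp2 p h4)
                have h15 : kp4 0 (nN p) 0 = (nN p : ℤ) := rfl
                rw [h15, h14] at h13
                exact absurd h13 (by decide)
            · rintro rfl
              refine ⟨Or.inl rfl, ?_⟩
              have h15 : kp4 0 1 0 = 1 := rfl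
              rw [h15, sg0_one]
          have : w4 0 = 1 / 2 := rfl
          rw [h9, this, card_singleton]
          push_cast
          ring
        rw [h3]
        have h9 : th (sp4 0) = 1 / 2 := by simp [th, sp4]
        rw [h9, ← mul_sub, abs_mul, abs_of_pos (by norm_num : (0 : ℝ) < 1 / 2)]
        have := abs_nonneg (∑ p ∈ PS z y, 1 / ((p : ℝ) - (4 : ℕ)) - Real.log (Real.log y))
        linarith
      · have h3 : ∑ p ∈ PS z y, w4 1 * (((Rz kp4 R4 1 p).card : ℝ) / ((p : ℝ) - (4 : ℕ))) =
            ∑ p ∈ PS z y, 1 / ((p : ℝ) - (4 : ℕ)) := by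
          refine sum_congr rfl fun p hp => ?_
          have h9 : Rz kp4 R4 1 p = {1} := by
            unfold Rz
            rw [hR1 1 p (by decide)]
            apply filter_true_of_mem
            intro r _
            have h15 : kp4 1 r 0 = 1 := rfl
            rw [h15, sg0_one]
          have : w4 1 = 1 := rfl
          rw [h9, this, card_singleton]
          push_cast
          ring
        rw [h3]
        have h9 : th (sp4 1) = 1 := by simp [th, sp4]
        rw [h9, one_mul]
        linarith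
      · have h3 : ∑ p ∈ PS z y, w4 2 * (((Rz kp4 R4 2 p).card : ℝ) / ((p : ℝ) - (4 : ℕ))) =
            ∑ p ∈ PS z y, (if sg0 p (-1) = false then (1 : ℝ) else 0) / ((p : ℝ) - (4 : ℕ)) := by
          refine sum_congr rfl fun p hp => ?_
          have h9 : ((Rz kp4 R4 2 p).card : ℝ) = if sg0 p (-1) = false then (1 : ℝ) else 0 := by
            unfold Rz
            rw [hR1 2 p (by decide), filter_singleton]
            have h15 : kp4 2 1 0 = -1 := rfl
            rw [h15]
            split_ifs <;> simp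
          have : w4 2 = 1 := rfl
          rw [h9, this, one_mul]
        rw [h3]
        have h9 : th (sp4 2) = 1 / 2 := by simp [th, sp4]
        rw [h9]
        have := hC2 y hy
        linarith)
  obtain ⟨C3, hC3⟩ := key
  have hpc : ∀ p : ℕ, z < p → (0 : ℝ) < (p : ℝ) - (4 : ℕ) := by
    intro p hp
    have : (20 : ℝ) ≤ p := by exact_mod_cast (by omega : 20 ≤ p)
    push_cast
    linarith
  have h3sum : ∀ y, z < y → ∑ p ∈ PS z y, (3 : ℝ) / ((p : ℝ) - (4 : ℕ)) ≤
      (3 : ℕ) * Real.log (Real.log y) + 3 * |C1| := by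
    intro y hy
    have h4 := (abs_le.1 (hC1 y hy)).2
    have h5 := le_abs_self C1
    have h6 : ∑ p ∈ PS z y, (3 : ℝ) / ((p : ℝ) - (4 : ℕ)) =
        3 * ∑ p ∈ PS z y, 1 / ((p : ℝ) - (4 : ℕ)) := by
      rw [mul_sum]
      exact sum_congr rfl fun p _ => by ring
    rw [h6]
    push_cast at h4 ⊢
    linarith
  refine avGE hlow (fun _ => (univ : Finset (Fin 3 × Bool))) LS4 (lamW w4 cl4 ev4 kp4 R4)
    (c := 4) (N := 3) (by omega) (fun p hp hzp v x => lam4 hp (hp2 p hzp) v x)
    (fun p hp hzp σ _ => xc4 hp (hp2 p hzp) σ) {ec 2} (by decide) (by decide) h0 h1 C3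
    (fun y hy => ?_) (3 * |C1|) (fun e he y hy => ?_) (fun y hy => ?_)
  · have h4 := hC3 y hy
    refine le_trans (le_of_eq ?_) h4
    congr 1
    congr 1
    rw [sum_singleton, sum_singleton]
    refine prod_congr rfl fun p hp => ?_
    obtain ⟨⟨h5, -⟩, h6⟩ := mem_PS.1 hp
    rw [tq4 h6 (hp2 p h5) (by decide)]
  · rw [mem_singleton] at he
    subst he
    refine le_trans (sum_le_sum fun p hp => ?_) (h3sum y hy)
    obtain ⟨⟨h5, -⟩, h6⟩ := mem_PS.1 hp
    refine div_le_div_of_nonneg_right ?_ (hpc p h5).le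
    have h7 : ∀ σ : Fin 3 × Bool, (tq (ec 2) (LS4 σ p)) ^ ε ≤
        ((![![1 / 2, 1], ![2, 2], ![1 / 2, 1 / 2]] : Fin 3 → Fin 2 → ℝ) σ.1
          (if σ.2 = true then 1 else 0)) ^ ε := fun σ =>
      Real.rpow_le_rpow (tq_nonneg _ _) (tq4_le h6 (hp2 p h5) σ) h0.le
    rw [Fintype.sum_prod_type, Fin.sum_univ_three]
    simp only [Fintype.sum_bool]
    have g1 := h7 (0, true)
    have g2 := h7 (0, false)
    have g3 := h7 (1, true)
    have g4 := h7 (1, false)
    have g5 := h7 (2, true)
    have g6 := h7 (2, false)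
    simp only [Matrix.cons_val_zero, Matrix.cons_val_one, Matrix.cons_val, if_true,
      Bool.false_eq_true, if_false, Real.one_rpow] at g1 g2 g3 g4 g5 g6
    set x : ℝ := (2 : ℝ) ^ ε with hxd
    have hx1 : 1 ≤ x := Real.one_le_rpow (by norm_num) h0.le
    have hx2 : (1 / 2 : ℝ) ^ ε = 1 / x := by
      rw [one_div, Real.inv_rpow (by norm_num), ← hxd, one_div]
    rw [hx2] at g2 g5 g6
    have h8 : x + 1 / 2 + (3 / 2) * (1 / x) ≤ 3 := by
      have hx0 : 0 < x := by linarith
      have h9 : x + 1 / 2 + (3 / 2) * (1 / x) - 3 = (x - 1) * (x - 3 / 2) / x := by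
        field_simp
        ring
      have h10 : (x - 1) * (x - 3 / 2) / x ≤ 0 := by
        apply div_nonpos_of_nonpos_of_nonneg _ hx0.le
        exact mul_nonpos_of_nonneg_of_nonpos (by linarith) (by linarith)
      linarith
    linarith
  · refine le_trans (le_of_eq ?_) (h3sum y hy)
    refine sum_congr rfl fun p _ => ?_
    congr 1
    rw [sum_const, card_univ]
    simp
    norm_num

end Pool.Agent.L0h5.TE
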